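import Mathlib

open MeasureTheory Filter Topology Set
open scoped ENNReal

namespace Pool.Agent.H.MP_20d613_pr

/-- Capacitability of analytic sets, in the form needed: a continuous image of Baire space of
positive outer measure contains the image of a compact set which has positive measure. -/
theorem exists_isCompact_measure_image_pos {Z : Type*} [TopologicalSpace Z] [T2Space Z]
    [FirstCountableTopology Z]
    [MeasurableSpace Z] [BorelSpace Z] (ν : Measure Z) [IsFiniteMeasure ν]
    (f : (ℕ → ℕ) → Z) (hf : Continuous f) (hpos : ν (range f) ≠ 0) :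
    ∃ C : Set (ℕ → ℕ), IsCompact C ∧ ν (f '' C) ≠ 0 := by
  classical
  obtain ⟨c, hc0, hc⟩ : ∃ c : ℝ≥0∞, 0 < c ∧ c < ν (range f) :=
    exists_between (pos_iff_ne_zero.2 hpos)
  let S : ℕ → (ℕ → ℕ) → Set (ℕ → ℕ) := fun k g => {x | ∀ i < k, x i ≤ g i}
  have step : ∀ (k : ℕ) (g : ℕ → ℕ), c < ν (f '' S k g) →
      ∃ j : ℕ, c < ν (f '' S (k+1) (Function.update g k j)) := by
    intro k g hk
    have hU : S k g = ⋃ j : ℕ, S (k+1) (Function.update g k j) := by
      ext x
      simp only [S, mem_ofPred_eq, mem_iUnion]
      constructor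
      · intro hx
        refine ⟨x k, fun i hi => ?_⟩
        rcases Nat.lt_succ_iff_lt_or_eq.1 hi with h | h
        · rw [Function.update_of_ne h.ne]; exact hx i h
        · subst h; simp
      · rintro ⟨j, hj⟩ i hi
        have := hj i (by omega)
        rwa [Function.update_of_ne hi.ne] at this
    have hmono : Monotone fun j : ℕ => f '' S (k+1) (Function.update g k j) := by
      intro j j' hjj
      apply image_mono
      intro x hx i hi
      rcases Nat.lt_succ_iff_lt_or_eq.1 hi with h | h
      · have := hx i hi
        rw [Function.update_of_ne h.ne] at this ⊢; exact this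
      · subst h
        have := hx i hi
        simp only [Function.update_self] at this ⊢
        omega
    rw [hU, image_iUnion, hmono.measure_iUnion] at hk
    exact lt_iSup_iff.1 hk
  let G : (k : ℕ) → {g : ℕ → ℕ // c < ν (f '' S k g)} := fun k =>
    Nat.rec ⟨fun _ => 0, by
      have : S 0 (fun _ => 0) = univ := by ext; simp [S]
      rw [this, image_univ]; exact hc⟩
      (fun k g => ⟨Function.update g.1 k (step k g.1 g.2).choose, (step k g.1 g.2).choose_spec⟩) k
  have hGsucc : ∀ k, (G (k+1)).1 = Function.update (G k).1 k (step k (G k).1 (G k).2).choose :=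
    fun k => rfl
  let n : ℕ → ℕ := fun i => (G (i+1)).1 i
  have hGn : ∀ k, ∀ i < k, (G k).1 i = n i := by
    intro k
    induction k with
    | zero => intro i hi; omega
    | succ k ih =>
      intro i hi
      rcases Nat.lt_succ_iff_lt_or_eq.1 hi with h | h
      · rw [hGsucc, Function.update_of_ne h.ne]; exact ih i h
      · subst h; rfl
  have hSn : ∀ k, c < ν (f '' S k n) := by
    intro k
    have : S k n = S k (G k).1 := by
      ext x
      simp only [S, mem_ofPred_eq]
      constructor
      · intro h i hi; rw [hGn k i hi]; exact h i hi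
      · intro h i hi; rw [← hGn k i hi]; exact h i hi
    rw [this]; exact (G k).2
  let C : Set (ℕ → ℕ) := Set.pi univ fun i => Iic (n i)
  have hC : IsCompact C := isCompact_univ_pi fun i => (finite_Iic (n i)).isCompact
  refine ⟨C, hC, ?_⟩
  have hsub : (⋂ k, closure (f '' S k n)) ⊆ f '' C := by
    intro z hz
    rw [mem_iInter] at hz
    obtain ⟨u, hu⟩ := (𝓝 z).exists_antitone_basis
    have hx : ∀ k, ∃ x ∈ S k n, f x ∈ u k := by
      intro k
      have := mem_closure_iff_nhds.1 (hz k) (u k) (hu.1.mem_of_mem trivial)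
      obtain ⟨_, hy1, x, hx, rfl⟩ := this
      exact ⟨x, hx, hy1⟩
    choose x hxS hxu using hx
    have hfx : Tendsto (fun k => f (x k)) atTop (𝓝 z) := hu.tendsto hxu
    let y : ℕ → ℕ → ℕ := fun k i => min (x k i) (n i)
    have hy : ∀ k, y k ∈ C := fun k i _ => mem_Iic.2 (min_le_right (x k i) (n i))
    obtain ⟨a, haC, φ, hφ, hlim⟩ := hC.tendsto_subseq hy
    have hlim' : Tendsto (fun k => x (φ k)) atTop (𝓝 a) := by
      rw [tendsto_pi_nhds] at hlim ⊢
      intro i
      refine (hlim i).congr' ?_
      filter_upwards [eventually_gt_atTop i] with k hk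
      have h1 : i < φ k := lt_of_lt_of_le hk (hφ.id_le k)
      simp only [Function.comp, y]
      exact min_eq_left (hxS (φ k) i h1)
    have h1 : Tendsto (fun k => f (x (φ k))) atTop (𝓝 (f a)) := (hf.tendsto a).comp hlim'
    have h2 : Tendsto (fun k => f (x (φ k))) atTop (𝓝 z) := hfx.comp hφ.tendsto_atTop
    exact ⟨a, haC, tendsto_nhds_unique h1 h2⟩
  have hanti : Antitone fun k => closure (f '' S k n) := by
    intro k k' hkk
    apply closure_mono
    apply image_mono
    intro x hx i hi
    exact hx i (lt_of_lt_of_le hi hkk)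
  have hmeas : ν (⋂ k, closure (f '' S k n)) = ⨅ k, ν (closure (f '' S k n)) :=
    hanti.measure_iInter (fun k => isClosed_closure.measurableSet.nullMeasurableSet)
      ⟨0, measure_ne_top _ _⟩
  have hge : c ≤ ν (⋂ k, closure (f '' S k n)) := by
    rw [hmeas]
    exact le_iInf fun k => (hSn k).le.trans (measure_mono subset_closure)
  exact (lt_of_lt_of_le hc0 (hge.trans (measure_mono hsub))).ne'

end Pool.Agent.H.MP_20d613_pr
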