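import Pool.Agent.H.MP_20d613_pr.Hit

open MeasureTheory ProbabilityTheory Filter Topology Set
open scoped ENNReal NNReal

set_option linter.unusedSectionVars false
set_option linter.style.haveILetI false

namespace Pool.Agent.H.MP_20d613_pr

/-! ### cylinder neighbourhoods of a closed set -/

section cyl
variable {I : Type*}

/-- configurations which agree on `F` with an element of `C` -/
def cyl (C : Set (I → Bool)) (F : Finset I) : Set (I → Bool) := {y | ∃ z ∈ C, ∀ x ∈ F, y x = z x}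

lemma cyl_mem_congr (C : Set (I → Bool)) (F : Finset I) {y y' : I → Bool}
    (h : ∀ x ∈ F, y x = y' x) (hy : y ∈ cyl C F) : y' ∈ cyl C F := by
  obtain ⟨z, hz, hyz⟩ := hy
  exact ⟨z, hz, fun x hx => (h x hx).symm.trans (hyz x hx)⟩

lemma subset_cyl (C : Set (I → Bool)) (F : Finset I) : C ⊆ cyl C F :=
  fun z hz => ⟨z, hz, fun _ _ => rfl⟩

lemma cyl_anti (C : Set (I → Bool)) {F F' : Finset I} (h : F ⊆ F') : cyl C F' ⊆ cyl C F :=
  fun _ ⟨z, hz, hyz⟩ => ⟨z, hz, fun x hx => hyz x (h hx)⟩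

lemma measurableSet_cyl (C : Set (I → Bool)) (F : Finset I) : MeasurableSet (cyl C F) := by
  have h1 : cyl C F = F.restrict (π := fun _ : I => Bool) ⁻¹' (F.restrict '' C) := by
    ext y
    constructor
    · rintro ⟨z, hz, hyz⟩
      refine ⟨z, hz, ?_⟩
      ext ⟨x, hx⟩
      exact (hyz x hx).symm
    · rintro ⟨z, hz, hyz⟩
      refine ⟨z, hz, fun x hx => ?_⟩
      exact (congrFun hyz ⟨x, hx⟩).symm
  rw [h1]
  exact F.measurable_restrict (Set.toFinite _).measurableSet

lemma cyl_dependsOn (C : Set (I → Bool)) (F : Finset I) :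
    DependsOn ((cyl C F)ᶜ.indicator (1 : (I → Bool) → ℝ)) (F : Set I) := by
  intro y y' h
  by_cases hy : y ∈ cyl C F
  · have hy' : y' ∈ cyl C F := cyl_mem_congr C F (fun x hx => h x hx) hy
    rw [indicator_of_notMem (by simpa using hy), indicator_of_notMem (by simpa using hy')]
  · have hy' : y' ∉ cyl C F := fun hy' => hy (cyl_mem_congr C F (fun x hx => (h x hx).symm) hy')
    rw [indicator_of_mem (by simpa using hy), indicator_of_mem (by simpa using hy')]
    rfl

lemma iInter_cyl (C : Set (I → Bool)) (hC : IsClosed C) (F : ℕ → Finset I) (hF : Monotone F)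
    (hFu : ∀ x, ∃ n, x ∈ F n) : ⋂ n, cyl C (F n) = C := by
  apply Subset.antisymm
  · intro y hy
    rw [mem_iInter] at hy
    choose z hz hyz using hy
    have : Tendsto z atTop (𝓝 y) := by
      rw [tendsto_pi_nhds]
      intro x
      obtain ⟨n, hn⟩ := hFu x
      refine tendsto_const_nhds.congr' ?_
      filter_upwards [eventually_ge_atTop n] with m hm
      exact hyz m x (hF hm hn)
    exact hC.mem_of_tendsto this (Eventually.of_forall hz)
  · exact subset_iInter fun n => subset_cyl C (F n)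

lemma exists_exhaustion [Countable I] : ∃ F : ℕ → Finset I, Monotone F ∧ ∀ x, ∃ n, x ∈ F n := by
  classical
  obtain ⟨f, hf⟩ := exists_injective_nat I
  have hfin : ∀ n, {x | f x < n}.Finite := fun n => (finite_Iio n).preimage hf.injOn
  refine ⟨fun n => (hfin n).toFinset, ?_, ?_⟩
  · intro n m hnm x hx
    rw [Finite.mem_toFinset] at hx ⊢
    exact lt_of_lt_of_le hx hnm
  · intro x
    refine ⟨f x + 1, ?_⟩
    rw [Finite.mem_toFinset]
    exact Nat.lt_succ_self _

end cyl

/-! ### paths of dynamical percolation -/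

section paths
variable {I : Type*} {n : I → ℝ≥0 → ℕ} {b : I × ℕ → Bool}

lemma left_const (f : ℝ≥0 → ℕ) (hf : Monotone f) (t : ℝ≥0) : ∃ c, ∀ᶠ u in 𝓝[<] t, f u = c := by
  have h := hf.tendsto_nhdsLT t
  rw [nhds_discrete, tendsto_pure] at h
  exact ⟨_, h⟩

/-- if the path hits all the cylinders, then it hits `C`, or it hits `C` from the left at a
ring -/
lemma path_compact (hmono : ∀ x, Monotone (n x))
    (hrc : ∀ x t, ∀ᶠ s in 𝓝[>] t, n x s = n x t) (C : Set (I → Bool)) (hC : IsClosed C)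
    (F : ℕ → Finset I) (hF : Monotone F) (hFu : ∀ x, ∃ n, x ∈ F n) (T : ℝ≥0)
    (h : ∀ m, ∃ t ≤ T, (fun x => b (x, n x t)) ∈ cyl C (F m)) :
    (∃ t, (fun x => b (x, n x t)) ∈ C) ∨
    (∃ t, 0 < t ∧ t ≤ T ∧ (∃ x, ∀ s < t, n x s < n x t) ∧
      ∀ m, ∀ᶠ u in 𝓝[<] t, (fun x => b (x, n x u)) ∈ cyl C (F m)) := by
  set A : ℕ → Set ℝ≥0 := fun m => {t | t ≤ T ∧ (fun x => b (x, n x t)) ∈ cyl C (F m)} with hA
  have hAanti : ∀ m m', m ≤ m' → A m' ⊆ A m := fun m m' hm t ht =>
    ⟨ht.1, cyl_anti C (hF hm) ht.2⟩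
  have hAT : ∀ m, closure (A m) ⊆ Icc 0 T :=
    fun m => closure_minimal (fun t ht => ⟨zero_le, ht.1⟩) isClosed_Icc
  have hne : (⋂ m, closure (A m)).Nonempty := by
    apply IsCompact.nonempty_iInter_of_sequence_nonempty_isCompact_isClosed
    · exact fun m => closure_mono (hAanti m (m + 1) (Nat.le_succ m))
    · intro m
      obtain ⟨t, ht, hm⟩ := h m
      exact ⟨t, subset_closure ⟨ht, hm⟩⟩
    · exact isCompact_Icc.of_isClosed_subset isClosed_closure (hAT 0)
    · exact fun m => isClosed_closure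
  obtain ⟨t, ht⟩ := hne
  rw [mem_iInter] at ht
  have htT : t ≤ T := (hAT 0 (ht 0)).2
  have hright : ∀ m, ∀ᶠ s in 𝓝[≥] t, ∀ x ∈ F m, n x s = n x t := by
    intro m
    rw [← Ioi_insert, nhdsWithin_insert, eventually_sup, eventually_pure]
    refine ⟨fun x _ => rfl, ?_⟩
    rw [eventually_all_finset]
    exact fun x _ => hrc x t
  have hleft : ∃ c : I → ℕ, ∀ m, ∀ᶠ u in 𝓝[<] t, ∀ x ∈ F m, n x u = c x := by
    choose c hc using fun x => left_const (n x) (hmono x) t
    exact ⟨c, fun m => (eventually_all_finset _).2 fun x _ => hc x⟩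
  by_cases hR : ∀ m, ∃ᶠ s in 𝓝[≥] t, s ∈ A m
  · left
    refine ⟨t, ?_⟩
    rw [← iInter_cyl C hC F hF hFu, mem_iInter]
    intro m
    obtain ⟨s, hs, hs'⟩ := ((hR m).and_eventually (hright m)).exists
    refine cyl_mem_congr C (F m) ?_ hs.2
    intro x hx
    show b (x, n x s) = b (x, n x t)
    rw [hs' x hx]
  · rw [not_forall] at hR
    obtain ⟨m0, hm0⟩ := hR
    have hL : ∀ m, ∃ᶠ s in 𝓝[<] t, s ∈ A m := by
      intro m
      have h1 : ∃ᶠ s in 𝓝 t, s ∈ A (max m m0) := mem_closure_iff_frequently.1 (ht _)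
      rw [← nhdsLT_sup_nhdsGE, frequently_sup] at h1
      rcases h1 with h1 | h1
      · exact h1.mono fun s hs => hAanti _ _ (le_max_left _ _) hs
      · exact absurd (h1.mono fun s hs => hAanti _ _ (le_max_right _ _) hs) hm0
    obtain ⟨c, hc⟩ := hleft
    have hcm : ∀ m, (fun x => b (x, c x)) ∈ cyl C (F m) := by
      intro m
      obtain ⟨s, hs, hs'⟩ := ((hL m).and_eventually (hc m)).exists
      exact cyl_mem_congr C (F m) (fun x hx => by
        show b (x, n x s) = b (x, c x)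
        rw [hs' x hx]) hs.2
    have ht0 : 0 < t := by
      obtain ⟨s, _, hs⟩ := ((hL 0).and_eventually self_mem_nhdsWithin).exists
      exact lt_of_le_of_lt zero_le hs
    by_cases hring : ∃ x, ∀ s < t, n x s < n x t
    · right
      refine ⟨t, ht0, htT, hring, fun m => (hc m).mono fun u hu => ?_⟩
      exact cyl_mem_congr C (F m) (fun x hx => by
        show b (x, c x) = b (x, n x u)
        rw [hu x hx]) (hcm m)
    · left
      refine ⟨t, ?_⟩
      push Not at hring
      have hct : ∀ x, n x t = c x := by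
        intro x
        obtain ⟨s, hst, hs⟩ := hring x
        obtain ⟨m, hm⟩ := hFu x
        obtain ⟨u, _, hu, hu'⟩ := ((hL m).and_eventually ((hc m).and (Ioo_mem_nhdsLT hst))).exists
        have h1 := hmono x hu'.1.le
        have h2 := hmono x hu'.2.le
        have h3 := hu x hm
        omega
      rw [← iInter_cyl C hC F hF hFu, mem_iInter]
      intro m
      simp_rw [hct]
      exact hcm m

end paths

section rings
variable {I Ω : Type*} {mΩ : MeasurableSpace Ω} {μ : Measure Ω}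
  {𝓕 : Filtration ℝ≥0 mΩ} {N : I → ℝ≥0 → Ω → ℕ} {β : I × ℕ → Ω → Bool}
  [Countable I] [IsProbabilityMeasure μ]

lemma DynData.ring_prob (hX : DynData μ 𝓕 N β) (x : I) (G : Set (I → Bool)) (hG : MeasurableSet G)
    (s t : ℝ≥0) (hst : s ≤ t) :
    μ {ω | cfg N β s ω ∈ G ∧ N x s ω < N x t ω} ≤ (t - s : ℝ≥0) * fair I G := by
  set R : Set (I → ℕ) := {c | c x ≠ 0} with hR
  have hRm : MeasurableSet R := by
    have : R = (fun c : I → ℕ => c x) ⁻¹' {0}ᶜ := by ext c; simp [hR]
    rw [this]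
    exact measurable_pi_apply x (MeasurableSet.singleton 0).compl
  have hinc : Measurable fun ω x => N x t ω - N x s ω :=
    measurable_pi_lambda _ fun x => (hX.measurable_N x t).sub (hX.measurable_N x s)
  have h1 := hX.ring_law s t hst R hRm
  have h2 : (μ.restrict {ω | (fun x => N x t ω - N x s ω) ∈ R}).map (cfg N β s) G =
      (μ {ω | (fun x => N x t ω - N x s ω) ∈ R} • fair I) G := by rw [h1]
  rw [Measure.map_apply (hX.measurable_cfg s) hG, Measure.restrict_apply (hX.measurable_cfg s hG),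
    Measure.smul_apply, smul_eq_mul] at h2
  have h3 : {ω | cfg N β s ω ∈ G ∧ N x s ω < N x t ω} =
      cfg N β s ⁻¹' G ∩ {ω | (fun x => N x t ω - N x s ω) ∈ R} := by
    ext ω
    simp only [hR, mem_ofPred_eq, mem_inter_iff, mem_preimage]
    constructor
    · rintro ⟨h4, h5⟩
      exact ⟨h4, by omega⟩
    · rintro ⟨h4, h5⟩
      exact ⟨h4, by omega⟩
  rw [h3, h2]
  gcongr
  have hm : Measurable fun ω => N x t ω - N x s ω :=
    (hX.measurable_N x t).sub (hX.measurable_N x s)
  have h4 : μ {ω | (fun x => N x t ω - N x s ω) ∈ R} = poissonMeasure (1 * (t - s)) {n | n ≠ 0} := by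
    rw [← hX.clocks.poisson x s t hst, Measure.map_apply hm (by measurability)]
    rfl
  rw [h4]
  refine (po_ne_zero_le _).trans ?_
  rw [one_mul]

/-- rings at which the configuration just before is in `C` -/
def badRing (N : I → ℝ≥0 → Ω → ℕ) (β : I × ℕ → Ω → Bool) (C : Set (I → Bool)) (F : ℕ → Finset I)
    (T : ℕ) (x : I) : Set Ω :=
  {ω | (∀ x, Monotone fun t => N x t ω) ∧ ∃ t : ℝ≥0, 0 < t ∧ t ≤ T ∧
    (∀ s < t, N x s ω < N x t ω) ∧ ∀ m, ∀ᶠ u in 𝓝[<] t, cfg N β u ω ∈ cyl C (F m)}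

lemma DynData.ring_null (hX : DynData μ 𝓕 N β) (C : Set (I → Bool)) (F : ℕ → Finset I)
    (hfair : Tendsto (fun m => fair I (cyl C (F m))) atTop (𝓝 0)) (T : ℕ) (x : I) :
    μ (badRing N β C F T x) = 0 := by
  have key : ∀ m, μ (badRing N β C F T x) ≤ T * fair I (cyl C (F m)) := by
    intro m
    set G := cyl C (F m) with hG
    have hGm : MeasurableSet G := measurableSet_cyl C (F m)
    set B : ℕ → Set Ω := fun k => ⋃ j ∈ Finset.range (T * 2 ^ k),
      {ω | cfg N β (j * (2⁻¹ : ℝ≥0) ^ k) ω ∈ G ∧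
        N x (j * (2⁻¹ : ℝ≥0) ^ k) ω < N x ((j + 1 : ℕ) * (2⁻¹ : ℝ≥0) ^ k) ω} with hB
    have hBle : ∀ k, μ (B k) ≤ T * fair I G := by
      intro k
      calc μ (B k) ≤ ∑ j ∈ Finset.range (T * 2 ^ k), μ {ω | cfg N β (j * (2⁻¹ : ℝ≥0) ^ k) ω ∈ G ∧
            N x (j * (2⁻¹ : ℝ≥0) ^ k) ω < N x ((j + 1 : ℕ) * (2⁻¹ : ℝ≥0) ^ k) ω} :=
            measure_biUnion_finset_le _ _
        _ ≤ ∑ j ∈ Finset.range (T * 2 ^ k), (((2⁻¹ : ℝ≥0) ^ k : ℝ≥0) : ℝ≥0∞) * fair I G := by
            refine Finset.sum_le_sum fun j _ => ?_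
            have hle : (j : ℝ≥0) * (2⁻¹ : ℝ≥0) ^ k ≤ (j + 1 : ℕ) * (2⁻¹ : ℝ≥0) ^ k := by
              gcongr; simp
            have hsub : ((j + 1 : ℕ) : ℝ≥0) * (2⁻¹ : ℝ≥0) ^ k - j * (2⁻¹ : ℝ≥0) ^ k =
                (2⁻¹ : ℝ≥0) ^ k := by
              push_cast; rw [add_mul, one_mul]; exact add_tsub_cancel_left _ _
            have := hX.ring_prob x G hGm _ _ hle
            rw [hsub] at this
            exact this
        _ = T * fair I G := by
            rw [Finset.sum_const, Finset.card_range, nsmul_eq_mul, ← mul_assoc]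
            congr 1
            have : ((T * 2 ^ k : ℕ) : ℝ≥0) * (2⁻¹ : ℝ≥0) ^ k = T := by
              push_cast
              rw [mul_assoc, ← mul_pow]
              norm_num
            exact_mod_cast congrArg (fun r : ℝ≥0 => (r : ℝ≥0∞)) this
    have hsub : badRing N β C F T x ⊆ ⋃ k0 : ℕ, ⋂ k ≥ k0, B k := by
      rintro ω ⟨hmono, t, ht0, htT, hring, hC⟩
      have h1 := hC m
      obtain ⟨s, hst, hs⟩ := (mem_nhdsLT_iff_exists_Ioo_subset' ht0).1 h1
      have hst' : s < t := hst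
      have hts : (0:ℝ≥0) < t - s := tsub_pos_of_lt hst'
      obtain ⟨k0, hk0⟩ := exists_pow_lt_of_lt_one hts (show (2⁻¹ : ℝ≥0) < 1 by
        rw [inv_lt_one₀ (by norm_num)]; norm_num)
      rw [mem_iUnion]
      refine ⟨k0, ?_⟩
      rw [mem_iInter₂]
      intro k hk
      set δ : ℝ≥0 := (2⁻¹ : ℝ≥0) ^ k with hδ
      have hδ0 : 0 < δ := by rw [hδ]; positivity
      have hδk : δ < t - s := lt_of_le_of_lt
        (pow_le_pow_of_le_one (by positivity) (by
          rw [inv_le_one₀ (by norm_num)]; norm_num) hk) hk0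
      obtain ⟨j, hj⟩ : ∃ j : ℕ, ⌈t / δ⌉₊ = j + 1 := by
        apply Nat.exists_eq_succ_of_ne_zero
        rw [Nat.ne_zero_iff_zero_lt, Nat.ceil_pos]
        positivity
      have hj1 : t ≤ (j + 1 : ℕ) * δ := by
        rw [← div_le_iff₀ hδ0, ← hj]
        exact Nat.le_ceil _
      have hj2 : (j : ℝ≥0) * δ < t := by
        rw [← lt_div_iff₀ hδ0]
        apply Nat.lt_ceil.1
        omega
      have hjT : j < T * 2 ^ k := by
        have h2 : (j : ℝ≥0) * δ < T := lt_of_lt_of_le hj2 htT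
        have h3 : (j : ℝ≥0) < T * 2 ^ k := by
          have h4 : δ * 2 ^ k = 1 := by rw [hδ, ← mul_pow]; norm_num
          calc (j : ℝ≥0) = j * δ * 2 ^ k := by rw [mul_assoc, h4, mul_one]
            _ < T * 2 ^ k := by
                exact mul_lt_mul_of_pos_right h2 (by positivity)
        exact_mod_cast h3
      have hjs : s < j * δ := by
        have h2 : s + δ < t := by
          rw [add_comm]; exact lt_tsub_iff_right.1 hδk
        have h3 : s + δ < j * δ + δ := by
          refine h2.trans_le (hj1.trans (le_of_eq ?_))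
          push_cast; ring
        exact lt_of_add_lt_add_right h3
      simp only [hB, mem_iUnion]
      refine ⟨j, Finset.mem_range.2 hjT, hs ⟨hjs, hj2⟩, ?_⟩
      exact lt_of_lt_of_le (hring _ hj2) (hmono x hj1)
    have hmon : Monotone fun k0 : ℕ => ⋂ k ≥ k0, B k := by
      intro a b hab
      exact biInter_subset_biInter_left fun k hk => le_trans hab hk
    calc μ (badRing N β C F T x) ≤ μ (⋃ k0 : ℕ, ⋂ k ≥ k0, B k) := measure_mono hsub
      _ = ⨆ k0 : ℕ, μ (⋂ k ≥ k0, B k) := hmon.measure_iUnion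
      _ ≤ T * fair I G := iSup_le fun k0 => (measure_mono (biInter_subset_of_mem le_rfl)).trans (hBle k0)
  have hlim : Tendsto (fun m => (T : ℝ≥0∞) * fair I (cyl C (F m))) atTop (𝓝 (T * 0)) :=
    ENNReal.Tendsto.const_mul hfair (Or.inr (ENNReal.natCast_ne_top T))
  rw [mul_zero] at hlim
  exact le_antisymm (ge_of_tendsto' hlim key) zero_le

/-- if `C` is a null closed set without exceptional times for dynamical percolation, then
the probability to hit all its cylinder neighbourhoods vanishes -/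
lemma DynData.hits_null (hX : DynData μ 𝓕 N β) (C : Set (I → Bool)) (hC : IsClosed C)
    (F : ℕ → Finset I) (hF : Monotone F) (hFu : ∀ x, ∃ n, x ∈ F n)
    (hC0 : fair I C = 0) (hnull : μ {ω | ∃ t, cfg N β t ω ∈ C} = 0) (T : ℕ) :
    Tendsto (fun m => μ.real (⋃ k, hits (cfg N β) (cyl C (F m)) T k)) atTop (𝓝 0) := by
  have hanti : Antitone fun m => cyl C (F m) := fun m m' h => cyl_anti C (hF h)
  have hfair : Tendsto (fun m => fair I (cyl C (F m))) atTop (𝓝 0) := by
    have := tendsto_measure_iInter_atTop (μ := fair I)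
      (fun m => (measurableSet_cyl C (F m)).nullMeasurableSet) hanti ⟨0, measure_ne_top _ _⟩
    rw [iInter_cyl C hC F hF hFu, hC0] at this
    exact this
  set E : ℕ → Set Ω := fun m => ⋃ k, hits (cfg N β) (cyl C (F m)) T k with hE
  have hEm : ∀ m, MeasurableSet (E m) := fun m => MeasurableSet.iUnion fun k =>
    measurableSet_hits _ hX.measurable_cfg _ (measurableSet_cyl C (F m)) T k
  have hEanti : Antitone E := fun m m' h => iUnion_mono fun k => hits_subset _ (hanti h) T k
  have h1 := tendsto_measure_iInter_atTop (μ := μ) (fun m => (hEm m).nullMeasurableSet) hEanti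
    ⟨0, measure_ne_top _ _⟩
  have h2 : μ (⋂ m, E m) = 0 := by
    have h3 : (⋂ m, E m) ≤ᵐ[μ] ({ω | ∃ t, cfg N β t ω ∈ C} ∪ ⋃ x, badRing N β C F T x : Set Ω) := by
      filter_upwards [hX.clocks.mono, hX.clocks.right_cont] with ω hω1 hω2 hω3
      have hω3' : ω ∈ ⋂ m, E m := hω3
      rw [mem_iInter] at hω3'
      have h4 := path_compact (n := fun x t => N x t ω) (b := fun p => β p ω) hω1 hω2 C hC F hF hFu
        T (by
          intro m
          have h5 := hω3' m
          simp only [hE, mem_iUnion] at h5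
          obtain ⟨k, j, hj, hjG⟩ := h5
          refine ⟨j * (2⁻¹ : ℝ≥0) ^ k, ?_, hjG⟩
          have h6 : (j : ℝ≥0) ≤ T * 2 ^ k := by exact_mod_cast hj
          calc (j : ℝ≥0) * (2⁻¹ : ℝ≥0) ^ k ≤ T * 2 ^ k * (2⁻¹ : ℝ≥0) ^ k := by gcongr
            _ = T := by rw [mul_assoc, ← mul_pow]; norm_num)
      rcases h4 with h4 | ⟨t, ht0, htT, ⟨x, hx⟩, h5⟩
      · exact Or.inl h4
      · exact Or.inr (mem_iUnion.2 ⟨x, hω1, t, ht0, htT, hx, h5⟩)
    refine le_antisymm ((measure_mono_ae h3).trans ?_) zero_le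
    refine (measure_union_le _ _).trans ?_
    rw [hnull, zero_add]
    refine (measure_iUnion_le _).trans ?_
    simp [hX.ring_null C F hfair T]
  rw [h2] at h1
  exact (ENNReal.tendsto_toReal ENNReal.zero_ne_top).comp h1

end rings

end Pool.Agent.H.MP_20d613_pr
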