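import Pool.Agent.H.MP_20d613_pr.DynLaw

open MeasureTheory ProbabilityTheory Filter Topology Set
open scoped ENNReal NNReal

set_option linter.unusedSectionVars false
set_option linter.style.haveILetI false

namespace Pool.Agent.H.MP_20d613_pr

lemma seq_lower (a : ℕ → ℝ) (ha : Antitone a) (h1 : ∀ n, a n ≤ 1) (h0 : ∀ n, 0 ≤ a n) (ρ : ℝ)
    (hρ0 : 0 ≤ ρ) (hρ1 : ρ < 1) (m N : ℕ) :
    ρ ^ m * (1 - a m) ≤ 1 - (1 - ρ) * ∑ n ∈ Finset.range N, ρ ^ n * a n := by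
  have h2 : ∑ n ∈ Finset.range N, ρ ^ n * a n ≤
      a m * ∑ n ∈ Finset.range N, ρ ^ n + (1 - a m) * ∑ n ∈ Finset.range m, ρ ^ n := by
    rcases le_total N m with h | h
    · have h3 : ∑ n ∈ Finset.range N, ρ ^ n ≤ ∑ n ∈ Finset.range m, ρ ^ n :=
        Finset.sum_le_sum_of_subset_of_nonneg (Finset.range_mono h) fun _ _ _ => by positivity
      have h4 : ∑ n ∈ Finset.range N, ρ ^ n * a n ≤ ∑ n ∈ Finset.range N, ρ ^ n :=
        Finset.sum_le_sum fun n _ => mul_le_of_le_one_right (by positivity) (h1 n)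
      have h5 : 0 ≤ 1 - a m := by linarith [h1 m]
      nlinarith
    · rw [← Finset.sum_range_add_sum_Ico _ h, ← Finset.sum_range_add_sum_Ico (fun n => ρ ^ n) h]
      have h4 : ∑ n ∈ Finset.range m, ρ ^ n * a n ≤ ∑ n ∈ Finset.range m, ρ ^ n :=
        Finset.sum_le_sum fun n _ => mul_le_of_le_one_right (by positivity) (h1 n)
      have h5 : ∑ n ∈ Finset.Ico m N, ρ ^ n * a n ≤ a m * ∑ n ∈ Finset.Ico m N, ρ ^ n := by
        rw [Finset.mul_sum]
        refine Finset.sum_le_sum fun n hn => ?_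
        rw [mul_comm]
        exact mul_le_mul_of_nonneg_right (ha (Finset.mem_Ico.1 hn).1) (by positivity)
      nlinarith
  have e1 := mul_neg_geom_sum ρ N
  have e2 := mul_neg_geom_sum ρ m
  have h3 : (1 - ρ) * ∑ n ∈ Finset.range N, ρ ^ n * a n ≤
      a m * (1 - ρ ^ N) + (1 - a m) * (1 - ρ ^ m) := by
    rw [← e1, ← e2]
    have := mul_le_mul_of_nonneg_left h2 (show (0:ℝ) ≤ 1 - ρ by linarith)
    linarith
  have h4 : 0 ≤ a m * ρ ^ N := mul_nonneg (h0 m) (by positivity)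
  nlinarith

lemma seq_upper (a : ℕ → ℝ) (ha : Antitone a) (h1 : ∀ n, a n ≤ 1) (ρ : ℝ)
    (hρ0 : 0 ≤ ρ) (hρ1 : ρ < 1) (N : ℕ) :
    1 - (1 - ρ) * ∑ n ∈ Finset.range N, ρ ^ n * a n ≤ (1 - a N) + ρ ^ N := by
  have h2 : a N * ∑ n ∈ Finset.range N, ρ ^ n ≤ ∑ n ∈ Finset.range N, ρ ^ n * a n := by
    rw [Finset.mul_sum]
    refine Finset.sum_le_sum fun n hn => ?_
    rw [mul_comm]
    exact mul_le_mul_of_nonneg_left (ha (Finset.mem_range.1 hn).le) (by positivity)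
  have e1 := mul_neg_geom_sum ρ N
  have h3 := mul_le_mul_of_nonneg_left h2 (show (0:ℝ) ≤ 1 - ρ by linarith)
  have h4 : a N * ρ ^ N ≤ 1 * ρ ^ N := mul_le_mul_of_nonneg_right (h1 N) (by positivity)
  have h5 : (1 - ρ) * (a N * ∑ n ∈ Finset.range N, ρ ^ n) = a N * (1 - ρ ^ N) := by
    rw [← e1]; ring
  nlinarith

section killedlem
variable {I : Type*} [DecidableEq I] [Countable I]

lemma killed_dependsOn (F : Finset I) (q : ℝ) (h : (I → Bool) → ℝ)
    (hdep : DependsOn h (F : Set I)) (n : ℕ) : DependsOn (killed (mult F q) h n) (F : Set I) := by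
  cases n with
  | zero => exact hdep
  | succ n => exact DependsOn.mul' hdep (mult_dependsOn _ _ _)

lemma green_dependsOn (F : Finset I) (q : ℝ) (h : (I → Bool) → ℝ)
    (hdep : DependsOn h (F : Set I)) (ρ : ℝ) (N : ℕ) :
    DependsOn (green (mult F q) h ρ N) (F : Set I) := by
  intro y y' hy
  unfold green
  exact Finset.sum_congr rfl fun n _ => by rw [killed_dependsOn F q h hdep n hy]

lemma killed_eq_zero {E : Type*} (P : (E → ℝ) → (E → ℝ)) (h : E → ℝ) (x : E) (hx : h x = 0)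
    (n : ℕ) : killed P h n x = 0 := by
  cases n with
  | zero => exact hx
  | succ n => simp [killed, hx]

end killedlem

section energy
variable {I Ω : Type*} {mΩ : MeasurableSpace Ω} {K : SwapKernel I} {μ : Measure Ω}
  {𝓕 : Filtration ℝ≥0 mΩ} {N : Sym2 I → ℝ≥0 → Ω → ℕ} {Y : ℝ≥0 → Ω → I → Bool}
  {M : ℝ≥0} [Countable I] [IsProbabilityMeasure μ] [DecidableEq I]

lemma ExclData.energy (hD : ExclData K μ 𝓕 N Y)
    (hM : ∀ x, ∑' y, (K.P x y : ℝ≥0∞) ≤ M) (h0 : μ.map (Y 0) = fair I) (δ : ℝ≥0)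
    (π : Measure ((I → Bool) × (I → Bool))) [IsProbabilityMeasure π]
    (hπ : π = μ.map fun ω => (Y 0 ω, Y δ ω)) (F : Finset I)
    (u : (I → Bool) → ℝ) (hu : Measurable u) (hu1 : ∀ y, |u y| ≤ 1)
    (hdep : DependsOn u (F : Set I)) :
    ∫ y, u y ^ 2 ∂fair I - ∫ y, u y * Pop π u y ∂fair I ≤
      4 * M * Real.exp (δ * F.card) *
        (∫ y, u y ^ 2 ∂fair I - ∫ y, u y * mult F (Real.exp (-δ)) u y ∂fair I)
      + Cst M F.card * δ ^ 2 := by
  have hY := hD.measurable_Y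
  have hub : BM u := BM.of_abs_le hu hu1
  have hpm : Measurable fun ω => (Y 0 ω, Y δ ω) := (hY 0).prodMk (hY δ)
  have hfst : π.fst = fair I := by
    rw [hπ, Measure.fst, Measure.map_map measurable_fst hpm]
    exact h0
  have h1 : ∫ y, u y * Pop π u y ∂fair I = ∫ ω, u (Y 0 ω) * u (Y δ ω) ∂μ := by
    rw [← hfst, Pop_integral π u u hub hub, hπ, integral_map hpm.aemeasurable]
    exact ((hub.comp measurable_fst).mul (hub.comp measurable_snd)).1.aestronglyMeasurable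
  have h2 := one_step hD hM F u hu hu1 hdep 0 δ zero_le (fun ω => u (Y 0 ω))
    (hu.comp (hD.adapted 0)) (fun ω => hu1 _)
  have htr : ∀ g : (I → Bool) → ℝ, BM g → ∫ ω, g (Y 0 ω) ∂μ = ∫ y, g y ∂fair I := by
    intro g hg
    rw [← h0, integral_map (hY 0).aemeasurable hg.1.aestronglyMeasurable]
  have h3 : ∫ ω, u (Y 0 ω) * u (Y 0 ω) ∂μ = ∫ y, u y ^ 2 ∂fair I := by
    rw [← htr _ hub.sq]; congr 1; ext ω; ring
  have h4 : ∀ e, ∫ ω, u (Y 0 ω) * u (swc e (Y 0 ω)) ∂μ = ∫ y, u y * u (swc e y) ∂fair I :=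
    fun e => htr _ (hub.mul (hub.comp (measurable_swc e)))
  simp_rw [h3, h4] at h2
  rw [tsub_zero] at h2
  have h5 : ∑' e, (K.rate e : ℝ) * (∫ y, u y * u (swc e y) ∂fair I - ∫ y, u y ^ 2 ∂fair I) =
      - ∑' e, (K.rate e : ℝ) * (∫ y, u y ^ 2 ∂fair I - ∫ y, u y * u (swc e y) ∂fair I) := by
    rw [← tsum_neg]
    congr 1; ext e; ring
  rw [h5] at h2
  have h6 := excl_energy_le hM u hub F hdep
  have h7 := sum_infl_le u hub F hdep δ δ.2
  have h8 := (abs_le.1 h2).1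
  rw [← h1] at h8
  have h9 : (δ : ℝ) * ∑' e, (K.rate e : ℝ) *
      (∫ y, u y ^ 2 ∂fair I - ∫ y, u y * u (swc e y) ∂fair I) ≤ δ * (M * ∑ x ∈ F, infl u x) :=
    mul_le_mul_of_nonneg_left h6 δ.2
  have h10 : (M : ℝ) * (δ * ∑ x ∈ F, infl u x) ≤ M * (4 * Real.exp (δ * F.card) *
      (∫ y, u y ^ 2 ∂fair I - ∫ y, u y * mult F (Real.exp (-δ)) u y ∂fair I)) :=
    mul_le_mul_of_nonneg_left h7 M.2
  nlinarith

end energy

section compare
variable {I Ω Ω' : Type*} {mΩ : MeasurableSpace Ω} {mΩ' : MeasurableSpace Ω'} {K : SwapKernel I}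
  {μ : Measure Ω} {μ' : Measure Ω'}
  {𝓕 : Filtration ℝ≥0 mΩ} {N : Sym2 I → ℝ≥0 → Ω → ℕ} {Y : ℝ≥0 → Ω → I → Bool}
  {𝓕' : Filtration ℝ≥0 mΩ'} {N' : I → ℝ≥0 → Ω' → ℕ} {β : I × ℕ → Ω' → Bool}
  {M : ℝ≥0} [Countable I] [IsProbabilityMeasure μ] [IsProbabilityMeasure μ'] [DecidableEq I]

/-- avoidance probability along a grid -/
noncomputable def avo {Ω : Type*} {mΩ : MeasurableSpace Ω} (μ : Measure Ω)
    (Z : ℝ≥0 → Ω → I → Bool) (h : (I → Bool) → ℝ) (δ : ℝ≥0) (n : ℕ) : ℝ :=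
  ∫ ω, ∏ j ∈ Finset.range (n + 1), h (Z (j * δ) ω) ∂μ

lemma prod_mem01 {ι : Type*} (s : Finset ι) (f : ι → ℝ) (h : ∀ i, f i = 0 ∨ f i = 1) :
    0 ≤ ∏ i ∈ s, f i ∧ ∏ i ∈ s, f i ≤ 1 := by
  constructor
  · exact Finset.prod_nonneg fun i _ => by rcases h i with h | h <;> simp [h]
  · exact Finset.prod_le_one (fun i _ => by rcases h i with h | h <;> simp [h])
      (fun i _ => by rcases h i with h | h <;> simp [h])

lemma avo_bm {Ω : Type*} {mΩ : MeasurableSpace Ω}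
    (Z : ℝ≥0 → Ω → I → Bool) (hZ : ∀ t, Measurable (Z t)) (h : (I → Bool) → ℝ) (hh : Measurable h)
    (h01 : ∀ x, h x = 0 ∨ h x = 1) (δ : ℝ≥0) (n : ℕ) :
    BM fun ω => ∏ j ∈ Finset.range (n + 1), h (Z (j * δ) ω) := by
  refine BM.of_abs_le (B := 1) (Finset.measurable_prod _ fun j _ => hh.comp (hZ _)) fun ω => ?_
  have := prod_mem01 (Finset.range (n + 1)) (fun j => h (Z (j * δ) ω)) (fun j => h01 _)
  rw [abs_of_nonneg this.1]; exact this.2

lemma avo_mem {Ω : Type*} {mΩ : MeasurableSpace Ω} (μ : Measure Ω) [IsProbabilityMeasure μ]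
    (Z : ℝ≥0 → Ω → I → Bool) (hZ : ∀ t, Measurable (Z t)) (h : (I → Bool) → ℝ) (hh : Measurable h)
    (h01 : ∀ x, h x = 0 ∨ h x = 1) (δ : ℝ≥0) (n : ℕ) :
    0 ≤ avo μ Z h δ n ∧ avo μ Z h δ n ≤ 1 := by
  constructor
  · exact integral_nonneg fun ω =>
      (prod_mem01 (Finset.range (n + 1)) (fun j => h (Z (j * δ) ω)) (fun j => h01 _)).1
  · have h1 : avo μ Z h δ n ≤ ∫ _, (1 : ℝ) ∂μ :=
      integral_mono ((avo_bm Z hZ h hh h01 δ n).integrable _) (integrable_const _)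
        fun ω => (prod_mem01 (Finset.range (n + 1)) (fun j => h (Z (j * δ) ω)) (fun j => h01 _)).2
    simpa using h1

lemma avo_anti {Ω : Type*} {mΩ : MeasurableSpace Ω} (μ : Measure Ω) [IsProbabilityMeasure μ]
    (Z : ℝ≥0 → Ω → I → Bool) (hZ : ∀ t, Measurable (Z t)) (h : (I → Bool) → ℝ) (hh : Measurable h)
    (h01 : ∀ x, h x = 0 ∨ h x = 1) (δ : ℝ≥0) : Antitone (avo μ Z h δ) := by
  apply antitone_nat_of_succ_le
  intro n
  apply integral_mono ((avo_bm Z hZ h hh h01 δ _).integrable _)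
    ((avo_bm Z hZ h hh h01 δ _).integrable _)
  intro ω
  show ∏ j ∈ Finset.range (n + 1 + 1), h (Z (j * δ) ω) ≤ ∏ j ∈ Finset.range (n + 1), h (Z (j * δ) ω)
  rw [Finset.prod_range_succ]
  have h1 := prod_mem01 (Finset.range (n + 1)) (fun j => h (Z (j * δ) ω)) (fun j => h01 _)
  apply mul_le_of_le_one_right h1.1
  rcases h01 (Z (((n + 1 : ℕ) : ℝ≥0) * δ) ω) with h2 | h2
  · rw [h2]; exact zero_le_one
  · rw [h2]

theorem compare (hD : ExclData K μ 𝓕 N Y) (hM : ∀ x, ∑' y, (K.P x y : ℝ≥0∞) ≤ M)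
    (h0 : μ.map (Y 0) = fair I) (hX : DynData μ' 𝓕' N' β) (F : Finset I)
    (h : (I → Bool) → ℝ) (hh : Measurable h) (h01 : ∀ x, h x = 0 ∨ h x = 1)
    (hdep : DependsOn h (F : Set I)) (δ : ℝ≥0) (hδ0 : 0 < δ) (hδ1 : δ ≤ 1)
    (hδF : (δ : ℝ) * F.card ≤ 1) (m n : ℕ) :
    (1 - δ : ℝ) ^ m * (1 - avo μ Y h δ m) ≤
      (4 * M * Real.exp 1 + 1) * (1 - avo μ' (cfg N' β) h δ n) +
      (4 * M * Real.exp 1 + 3) * (1 - δ : ℝ) ^ n + Cst M F.card * δ := by
  set ρ : ℝ := 1 - δ with hρ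
  have hδ0' : (0:ℝ) < δ := hδ0
  have hδ1' : (δ:ℝ) ≤ 1 := hδ1
  have hρ0 : 0 ≤ ρ := by rw [hρ]; linarith
  have hρ1 : ρ < 1 := by rw [hρ]; linarith
  have h1ρ : 1 - ρ = δ := by rw [hρ]; ring
  have hY := hD.measurable_Y
  have hXm := hX.measurable_cfg
  have hpm : Measurable fun ω => (Y 0 ω, Y δ ω) := (hY 0).prodMk (hY δ)
  set π : Measure ((I → Bool) × (I → Bool)) := μ.map fun ω => (Y 0 ω, Y δ ω) with hπ
  haveI : IsProbabilityMeasure π := Measure.isProbabilityMeasure_map hpm.aemeasurable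
  have hsw : π.map Prod.swap = π := by
    have := hD.pair_symm hM h0 0 δ
    rw [zero_add] at this
    exact this
  have hfst : π.fst = fair I := by
    rw [hπ, Measure.fst, Measure.map_map measurable_fst hpm]
    exact h0
  have hRY : RevOp (fair I) (Pop π) := by rw [← hfst]; exact revOp_of_symm π hsw
  have hRX : RevOp (fair I) (mult F (Real.exp (-δ))) := revOp_mult F _ (Real.exp_pos _).le
    (Real.exp_le_one_iff.2 (by linarith))
  have hhb : BM h := BM.of_abs_le (B := 1) hh fun x => by rcases h01 x with h | h <;> simp [h]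
  have haY : ∀ n, ∫ y, killed (Pop π) h n y ∂fair I = avo μ Y h δ n := by
    intro n
    have := hD.avoid hM h0 δ π hπ h hh h01 n (fun _ => 1) (BM.const 1)
    simp only [mul_one] at this
    exact this.symm
  have haX : ∀ n, ∫ y, killed (mult F (Real.exp (-δ))) h n y ∂fair I =
      avo μ' (cfg N' β) h δ n := by
    intro n
    have := hX.avoid F δ h hhb hdep n (fun _ => 1) (BM.const 1) (fun _ _ _ => rfl)
    simp only [mul_one] at this
    exact this.symm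
  set u : (I → Bool) → ℝ := fun x => 1 - (1 - ρ) * green (mult F (Real.exp (-δ))) h ρ n x with hu
  have hub : BM u := (BM.const 1).sub ((green_bm hRX hhb ρ n).smul _)
  have hu0 : ∀ x, h x = 0 → u x = 1 := by
    intro x hx
    simp only [hu, green, killed_eq_zero _ h x hx, mul_zero, Finset.sum_const_zero, sub_zero]
  have hu01 : ∀ x, 0 ≤ u x ∧ u x ≤ 1 := by
    intro x
    have h1 : 0 ≤ green (mult F (Real.exp (-δ))) h ρ n x :=
      Finset.sum_nonneg fun k _ => mul_nonneg (by positivity) (killed_mem hRX hhb h01 k x).1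
    have h2 : green (mult F (Real.exp (-δ))) h ρ n x ≤ ∑ k ∈ Finset.range n, ρ ^ k :=
      Finset.sum_le_sum fun k _ => mul_le_of_le_one_right (by positivity)
        (killed_mem hRX hhb h01 k x).2
    have h3 := mul_neg_geom_sum ρ n
    have h4 : (1 - ρ) * green (mult F (Real.exp (-δ))) h ρ n x ≤ 1 - ρ ^ n := by
      rw [← h3]; exact mul_le_mul_of_nonneg_left h2 (by linarith)
    have h5 : 0 ≤ ρ ^ n := by positivity
    constructor
    · show 0 ≤ 1 - (1 - ρ) * green (mult F (Real.exp (-δ))) h ρ n x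
      linarith
    · show 1 - (1 - ρ) * green (mult F (Real.exp (-δ))) h ρ n x ≤ 1
      have : 0 ≤ (1 - ρ) * green (mult F (Real.exp (-δ))) h ρ n x :=
        mul_nonneg (by linarith) h1
      linarith
  have hudep : DependsOn u (F : Set I) := by
    intro y y' hy
    show 1 - (1 - ρ) * green (mult F (Real.exp (-δ))) h ρ n y =
      1 - (1 - ρ) * green (mult F (Real.exp (-δ))) h ρ n y'
    rw [green_dependsOn F _ h hdep ρ n hy]
  have hup := potential_upper hRY hhb h01 ρ hρ0 hρ1 n u hub hu0 hu01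
  have hlow := potential_lower hRX hhb h01 ρ hρ0 hρ1 n u (fun x => rfl)
  simp_rw [haY] at hup
  simp_rw [haX] at hlow
  have hen := hD.energy hM h0 δ π hπ F u hub.1 (fun y => by
    rw [abs_of_nonneg (hu01 y).1]; exact (hu01 y).2) hudep
  have s1 := seq_lower (avo μ Y h δ) (avo_anti μ Y hY h hh h01 δ)
    (fun n => (avo_mem μ Y hY h hh h01 δ n).2) (fun n => (avo_mem μ Y hY h hh h01 δ n).1)
    ρ hρ0 hρ1 m n
  have s2 := seq_upper (avo μ' (cfg N' β) h δ) (avo_anti μ' _ hXm h hh h01 δ)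
    (fun n => (avo_mem μ' _ hXm h hh h01 δ n).2) ρ hρ0 hρ1 n
  set EX := ∫ y, u y ^ 2 ∂fair I - ∫ y, u y * mult F (Real.exp (-δ)) u y ∂fair I with hEX
  set EY := ∫ y, u y ^ 2 ∂fair I - ∫ y, u y * Pop π u y ∂fair I with hEY
  set U := ∫ y, u y ^ 2 ∂fair I with hU
  set LY := 1 - (1 - ρ) * ∑ k ∈ Finset.range n, ρ ^ k * avo μ Y h δ k with hLY
  set LX := 1 - (1 - ρ) * ∑ k ∈ Finset.range n, ρ ^ k * avo μ' (cfg N' β) h δ k with hLX
  have hEX0 : 0 ≤ EX := by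
    have := hRX.contr u hub
    rw [hEX]; linarith
  have hU0 : 0 ≤ U := integral_nonneg fun _ => sq_nonneg _
  set C0 : ℝ := 4 * M * Real.exp 1 + 1 with hC0
  have hM0 : (0:ℝ) ≤ M := M.2
  have hC1 : 4 * M * Real.exp (δ * F.card) ≤ C0 := by
    have : Real.exp (δ * F.card) ≤ Real.exp 1 := Real.exp_le_exp.2 hδF
    have h4 : 4 * (M:ℝ) * Real.exp (δ * F.card) ≤ 4 * M * Real.exp 1 :=
      mul_le_mul_of_nonneg_left this (by positivity)
    linarith
  have hC2 : 1 ≤ C0 := by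
    have : 0 ≤ 4 * (M:ℝ) * Real.exp 1 := by positivity
    linarith
  have hCs := Cst_nonneg M F.card
  have hEY2 : EY ≤ C0 * EX + Cst M F.card * δ ^ 2 := by
    have := mul_le_mul_of_nonneg_right hC1 hEX0
    linarith
  rw [h1ρ] at hup hlow
  have k1 : (δ : ℝ) * LY ≤ δ * (C0 * LX + Cst M F.card * δ + 2 * ρ ^ n) := by
    have k2 : ρ * EY ≤ C0 * (ρ * EX) + Cst M F.card * δ ^ 2 := by
      have k3 := mul_le_mul_of_nonneg_left hEY2 hρ0
      have k4 : ρ * (Cst M F.card * δ ^ 2) ≤ 1 * (Cst M F.card * δ ^ 2) :=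
        mul_le_mul_of_nonneg_right hρ1.le (by positivity)
      linarith
    have k5 : (δ : ℝ) * U ≤ C0 * (δ * U) := by
      have : 0 ≤ (δ:ℝ) * U := by positivity
      nlinarith
    have k6 : C0 * (δ * U + ρ * EX) ≤ C0 * (δ * LX) :=
      mul_le_mul_of_nonneg_left hlow (by linarith)
    nlinarith
  have k2 : LY ≤ C0 * LX + Cst M F.card * δ + 2 * ρ ^ n := le_of_mul_le_mul_left k1 hδ0'
  have k3 : C0 * LX ≤ C0 * ((1 - avo μ' (cfg N' β) h δ n) + ρ ^ n) :=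
    mul_le_mul_of_nonneg_left s2 (by linarith)
  have k4 : C0 + 2 = 4 * M * Real.exp 1 + 3 := by rw [hC0]; ring
  rw [← k4]
  linarith

end compare

end Pool.Agent.H.MP_20d613_pr
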