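import Mathlib

/-!
# Ordinary dynamical percolation and exclusion dynamics

`I` is a countable index set (the sites of the triangular lattice, or the edges of the square
lattice).  A configuration is a function `I → Bool` (`true` = open).
-/

open MeasureTheory ProbabilityTheory Filter Topology
open scoped ENNReal NNReal

namespace Pool.Agent.H.MP_20d613_pr

/-- The fair coin on `Bool`. -/
noncomputable def coin : Measure Bool :=
  (2⁻¹ : ℝ≥0∞) • Measure.dirac true + (2⁻¹ : ℝ≥0∞) • Measure.dirac false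

/-- The product Bernoulli(1/2) measure on configurations `I → Bool` (critical percolation). -/
noncomputable def fair (I : Type*) : Measure (I → Bool) := Measure.infinitePi fun _ : I => coin

/-- `N j` (`j : J`) are independent Poisson processes, `N j` of rate `r j`, relative to the
filtration `𝓕` (the information available at each time): they are adapted to `𝓕`, start at `0`,
are nondecreasing and right continuous, and for all `s ≤ t` the increments
`N j t - N j s` (`j : J`) are independent Poisson variables with parameters `r j * (t - s)`,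
jointly independent of `𝓕 s`. -/
structure PoissonClocks {J Ω : Type*} {mΩ : MeasurableSpace Ω} (μ : Measure Ω)
    (𝓕 : Filtration ℝ≥0 mΩ) (r : J → ℝ≥0) (N : J → ℝ≥0 → Ω → ℕ) : Prop where
  adapted : ∀ j t, Measurable[𝓕 t] (N j t)
  zero : ∀ᵐ ω ∂μ, ∀ j, N j 0 ω = 0
  mono : ∀ᵐ ω ∂μ, ∀ j, Monotone fun t => N j t ω
  right_cont : ∀ᵐ ω ∂μ, ∀ j t, ∀ᶠ s in 𝓝[>] t, N j s ω = N j t ω
  poisson : ∀ j s t, s ≤ t →
    μ.map (fun ω => N j t ω - N j s ω) = poissonMeasure (r j * (t - s))
  indep : ∀ s t, s ≤ t → iIndepFun (fun j ω => N j t ω - N j s ω) μ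
  indep_past : ∀ s t, s ≤ t →
    Indep (𝓕 s) (⨆ j, MeasurableSpace.comap (fun ω => N j t ω - N j s ω) ⊤) μ

/-- A symmetric kernel `P : I × I → [0, ∞)` with `sup_x ∑_y P(x, y) < ∞`. -/
structure SwapKernel (I : Type*) where
  /-- the rates `P(x, y)` -/
  P : I → I → ℝ≥0
  symm : ∀ x y, P x y = P y x
  bdd : ∃ M : ℝ≥0, ∀ x, ∑' y, (P x y : ℝ≥0∞) ≤ M

open Classical in
/-- The rate at which an unordered pair is swapped: `P(x, y)` for `{x, y}` with `x ≠ y`
(and `0` for the degenerate pairs `{x, x}`, whose swap does nothing). -/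
noncomputable def SwapKernel.rate {I : Type*} (K : SwapKernel I) (e : Sym2 I) : ℝ≥0 :=
  if e.IsDiag then 0 else Sym2.lift ⟨K.P, K.symm⟩ e

/-- `Y` is the exclusion dynamics with kernel `K` started from the product Bernoulli(1/2)
measure: there are independent Poisson clocks `N s(x, y)` of rate `P(x, y)`, one for each
unordered pair, relative to a filtration to which `Y` is adapted, such that
* the value at `x` does not change during `(s, t]` if no clock of a pair `{x, y}` rings then;
* when the clock of `{x, y}` rings, at time `t`, the values at `x` and `y` are swapped: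
  the value at `x` at time `t` is the value at `y` just before time `t` (and vice versa). -/
structure IsExclusion {I Ω : Type*} {mΩ : MeasurableSpace Ω} (K : SwapKernel I) (μ : Measure Ω)
    (Y : ℝ≥0 → Ω → I → Bool) : Prop where
  exists_clocks : ∃ (𝓕 : Filtration ℝ≥0 mΩ) (N : Sym2 I → ℝ≥0 → Ω → ℕ),
    PoissonClocks μ 𝓕 K.rate N ∧
    (∀ t, Measurable[𝓕 t] (Y t)) ∧
    μ.map (Y 0) = fair I ∧
    (∀ᵐ ω ∂μ, ∀ (x : I) (s t : ℝ≥0), s ≤ t →
      (∀ y, N s(x, y) s ω = N s(x, y) t ω) → Y t ω x = Y s ω x) ∧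
    (∀ᵐ ω ∂μ, ∀ (x y : I) (t : ℝ≥0), 0 < t →
      (∀ s < t, N s(x, y) s ω < N s(x, y) t ω) →
      ∃ s < t, ∀ u, s ≤ u → u < t → Y t ω x = Y u ω y)

/-- `X` is ordinary dynamical percolation: every bit `x` has an independent rate-1 Poisson clock
`N x` and independent fair bits `β x k` (`k = 0, 1, 2, …`), independent of the clocks; the bit at
`x` is initially `β x 0` and is replaced by `β x k` at the `k`-th ring of the clock `N x`. -/
structure IsDynPerc {I Ω : Type*} {mΩ : MeasurableSpace Ω} (μ : Measure Ω)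
    (X : ℝ≥0 → Ω → I → Bool) : Prop where
  exists_clocks : ∃ (𝓕 : Filtration ℝ≥0 mΩ) (N : I → ℝ≥0 → Ω → ℕ) (β : I × ℕ → Ω → Bool),
    PoissonClocks μ 𝓕 (fun _ : I => (1 : ℝ≥0)) N ∧
    (∀ p, Measurable (β p)) ∧
    (∀ p, μ.map (β p) = coin) ∧
    iIndepFun β μ ∧
    Indep (⨆ x, ⨆ t, MeasurableSpace.comap (N x t) ⊤) (⨆ p, MeasurableSpace.comap (β p) ⊤) μ ∧
    (∀ᵐ ω ∂μ, ∀ t x, X t ω x = β (x, N x t ω) ω)

/-- The event `A` has exceptional times under the dynamics `X`: with positive probability there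
is a time `t ≥ 0` with `X t ∈ A` (`μ` is evaluated as an outer measure, so that no measurability
of this event has to be assumed). -/
def HasExceptionalTimes {I Ω : Type*} {mΩ : MeasurableSpace Ω} (μ : Measure Ω)
    (X : ℝ≥0 → Ω → I → Bool) (A : Set (I → Bool)) : Prop :=
  0 < μ {ω | ∃ t : ℝ≥0, X t ω ∈ A}

end Pool.Agent.H.MP_20d613_pr
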