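import Pool.Agent.H.MP_20d613_pr.DynPerc

open MeasureTheory ProbabilityTheory Filter Topology Set
open scoped ENNReal NNReal

set_option linter.unusedSectionVars false
set_option linter.style.haveILetI false

namespace Pool.Agent.H.MP_20d613_pr

section dyn
variable {I Ω : Type*} {mΩ : MeasurableSpace Ω} {μ : Measure Ω}
  {𝓕 : Filtration ℝ≥0 mΩ} {N : I → ℝ≥0 → Ω → ℕ} {β : I × ℕ → Ω → Bool}
  [Countable I] [IsProbabilityMeasure μ]

lemma phi_nil [DecidableEq I] (S : Finset I) (t : ℝ≥0) (c : I × ℝ≥0 → ℕ) :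
    phi [] S t c = if S = ∅ then 1 else 0 := by
  split_ifs with h
  · subst h; simp [phi, wd, ws]
  · obtain ⟨x, hx⟩ := Finset.nonempty_iff_ne_empty.2 h
    exact phi_eq_zero [] S t c x hx (by simp)

lemma DynData.ring_wal (hD : DynData μ 𝓕 N β) [DecidableEq I] (s t : ℝ≥0)
    (hst : s ≤ t) (R : Set (I → ℕ)) (hR : MeasurableSet R) (S : Finset I) :
    ∫ ω, R.indicator 1 (fun x => N x t ω - N x s ω) * wal S (cfg N β s ω) ∂μ =
      μ.real {ω | (fun x => N x t ω - N x s ω) ∈ R} * (if S = ∅ then 1 else 0) := by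
  have hψ : BM fun c : I × ℝ≥0 → ℕ => R.indicator (1 : (I → ℕ) → ℝ) (fun x => c (x, t) - c (x, s)) := by
    refine BM.of_abs_le (B := 1) ?_ fun c => ?_
    · refine (measurable_one.indicator hR).comp (measurable_pi_lambda _ fun x => ?_)
      exact (measurable_pi_apply (x, t)).sub (measurable_pi_apply (x, s))
    · by_cases h : (fun x => c (x, t) - c (x, s)) ∈ R
      · rw [indicator_of_mem h]; simp
      · rw [indicator_of_notMem h]; simp
  have h1 := hD.integral_bits _ hψ [] S s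
  have h2 := hD.integral_incr s t hst R hR (fun _ => if S = ∅ then 1 else 0) measurable_const
  simp only [phi_nil, wd, List.map_nil, List.prod_nil, one_mul] at h1
  rw [integral_const, probReal_univ, one_smul] at h2
  rw [← h2]
  exact h1

lemma DynData.ring_law (hD : DynData μ 𝓕 N β) (s t : ℝ≥0)
    (hst : s ≤ t) (R : Set (I → ℕ)) (hR : MeasurableSet R) :
    (μ.restrict {ω | (fun x => N x t ω - N x s ω) ∈ R}).map (cfg N β s) =
      μ {ω | (fun x => N x t ω - N x s ω) ∈ R} • fair I := by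
  classical
  have hinc : Measurable fun ω x => N x t ω - N x s ω :=
    measurable_pi_lambda _ fun x => (hD.measurable_N x t).sub (hD.measurable_N x s)
  have hRm : MeasurableSet {ω | (fun x => N x t ω - N x s ω) ∈ R} := hinc hR
  haveI : IsFiniteMeasure (μ {ω | (fun x => N x t ω - N x s ω) ∈ R} • fair I) :=
    Measure.smul_finite _ (measure_ne_top _ _)
  apply ext_config
  intro S
  rw [integral_map (hD.measurable_cfg s).aemeasurable (measurable_wal S).aestronglyMeasurable,
    integral_smul_measure, integral_wal_fair', ← integral_indicator hRm, smul_eq_mul]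
  have h1 := hD.ring_wal s t hst R hR S
  rw [measureReal_def] at h1
  rw [← h1]
  congr 1; ext ω
  by_cases h : (fun x => N x t ω - N x s ω) ∈ R
  · rw [indicator_of_mem (show ω ∈ {ω | (fun x => N x t ω - N x s ω) ∈ R} from h),
      indicator_of_mem h]
    simp
  · rw [indicator_of_notMem (show ω ∉ {ω | (fun x => N x t ω - N x s ω) ∈ R} from h),
      indicator_of_notMem h]
    simp

lemma DynData.law_cfg (hD : DynData μ 𝓕 N β) (s : ℝ≥0) : μ.map (cfg N β s) = fair I := by
  have h := hD.ring_law s s le_rfl univ MeasurableSet.univ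
  simpa using h

/-- the span of the products of signs with times at most `s` -/
noncomputable def Zsp (N : I → ℝ≥0 → Ω → ℕ) (β : I × ℕ → Ω → Bool) (s : ℝ≥0) :
    Submodule ℝ (Ω → ℝ) :=
  Submodule.span ℝ {Z | ∃ A : List (I × ℝ≥0), (∀ a ∈ A, a.2 ≤ s) ∧
    Z = fun ω => wd A (cnt N ω) (bts β ω)}

lemma Zsp_one (s : ℝ≥0) : (fun _ => 1 : Ω → ℝ) ∈ Zsp N β s :=
  Submodule.subset_span ⟨[], by simp, by ext; simp [wd]⟩

lemma Zsp_mono {s t : ℝ≥0} (hst : s ≤ t) : Zsp N β s ≤ Zsp N β t := by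
  apply Submodule.span_mono
  rintro Z ⟨A, hA, rfl⟩
  exact ⟨A, fun a ha => (hA a ha).trans hst, rfl⟩

lemma DynData.bm_wd (hD : DynData μ 𝓕 N β) (A : List (I × ℝ≥0)) :
    BM fun ω => wd A (cnt N ω) (bts β ω) := by
  refine BM.of_abs_le (B := 1) ?_ fun b => (abs_wd _ _ _).le
  exact (measurable_wd (fun c : I × ℝ≥0 → ℕ => c) A (fun a _ => measurable_pi_apply a)).comp
    (hD.measurable_cnt.prodMk hD.measurable_bts)

lemma DynData.Zsp_bm (hD : DynData μ 𝓕 N β) (s : ℝ≥0) (Z : Ω → ℝ) (hZ : Z ∈ Zsp N β s) : BM Z := by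
  unfold Zsp at hZ
  induction hZ using Submodule.span_induction with
  | mem Z h =>
    obtain ⟨A, hA, rfl⟩ := h
    exact hD.bm_wd A
  | zero => exact BM.const 0
  | add Z Z' _ _ h h' => exact h.add h'
  | smul c Z _ h => exact h.smul c

lemma Zsp_mul_wal (s : ℝ≥0) (Z : Ω → ℝ) (hZ : Z ∈ Zsp N β s)
    (S : Finset I) : (fun ω => Z ω * wal S (cfg N β s ω)) ∈ Zsp N β s := by
  unfold Zsp at hZ
  induction hZ using Submodule.span_induction with
  | mem Z h =>
    obtain ⟨A, hA, rfl⟩ := h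
    refine Submodule.subset_span ⟨A ++ S.toList.map fun x => (x, s), ?_, ?_⟩
    · intro a ha
      rw [List.mem_append] at ha
      rcases ha with ha | ha
      · exact hA a ha
      · rw [List.mem_map] at ha
        obtain ⟨x, _, rfl⟩ := ha
        exact le_rfl
    · ext ω
      rw [wd_append, wd_toList, ws_cfg]
  | zero =>
    convert (Zsp N β s).zero_mem using 1
    ext ω; simp
  | add Z Z' _ _ h h' =>
    have := (Zsp N β s).add_mem h h'
    convert this using 1
    ext ω; simp [add_mul]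
  | smul c Z _ h =>
    have := (Zsp N β s).smul_mem c h
    convert this using 1
    ext ω; simp [mul_assoc]

lemma Zsp_mul [DecidableEq I] (s : ℝ≥0) (Z : Ω → ℝ) (hZ : Z ∈ Zsp N β s)
    (F : Finset I) (h : (I → Bool) → ℝ) (hh : BM h) (hdep : DependsOn h (F : Set I)) :
    (fun ω => Z ω * h (cfg N β s ω)) ∈ Zsp N β s := by
  have h1 : (fun ω => Z ω * h (cfg N β s ω)) =
      ∑ S ∈ F.powerset, coef h S • fun ω => Z ω * wal S (cfg N β s ω) := by
    ext ω
    rw [← mult_one_eq F h hh hdep (cfg N β s ω), Finset.sum_apply]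
    unfold mult
    rw [Finset.mul_sum]
    refine Finset.sum_congr rfl fun S _ => ?_
    simp only [Pi.smul_apply, smul_eq_mul, one_pow, one_mul]
    ring
  rw [h1]
  exact Submodule.sum_mem _ fun S _ => Submodule.smul_mem _ _ (Zsp_mul_wal s Z hZ S)

lemma DynData.Zsp_decay (hD : DynData μ 𝓕 N β) (s t : ℝ≥0) (hst : s ≤ t) (Z : Ω → ℝ)
    (hZ : Z ∈ Zsp N β s) (S : Finset I) :
    ∫ ω, Z ω * wal S (cfg N β t ω) ∂μ =
      Real.exp (-(t - s : ℝ≥0)) ^ S.card * ∫ ω, Z ω * wal S (cfg N β s ω) ∂μ := by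
  have hw : ∀ r, BM fun ω => wal S (cfg N β r ω) := fun r => (bm_wal S).comp (hD.measurable_cfg r)
  have hmem := hZ
  unfold Zsp at hZ
  induction hZ using Submodule.span_induction with
  | mem Z h =>
    obtain ⟨A, hA, rfl⟩ := h
    exact hD.decay s t hst A hA S
  | zero => simp
  | add Z Z' hz hz' h h' =>
    have b1 := hD.Zsp_bm s Z hz
    have b2 := hD.Zsp_bm s Z' hz'
    simp only [Pi.add_apply, add_mul]
    rw [BM.int_add _ (b1.mul (hw t)) (b2.mul (hw t)), BM.int_add _ (b1.mul (hw s)) (b2.mul (hw s)),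
      h hz, h' hz']
    ring
  | smul c Z hz h =>
    simp only [Pi.smul_apply, smul_eq_mul, mul_assoc]
    rw [integral_const_mul, integral_const_mul, h hz]
    ring

lemma DynData.Zsp_mult [DecidableEq I] (hD : DynData μ 𝓕 N β) (s t : ℝ≥0) (hst : s ≤ t)
    (Z : Ω → ℝ) (hZ : Z ∈ Zsp N β s)
    (F : Finset I) (g : (I → Bool) → ℝ) (hg : BM g) (hdep : DependsOn g (F : Set I)) :
    ∫ ω, Z ω * g (cfg N β t ω) ∂μ =
      ∫ ω, Z ω * mult F (Real.exp (-(t - s : ℝ≥0))) g (cfg N β s ω) ∂μ := by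
  have hw : ∀ r S, BM fun ω => wal S (cfg N β r ω) :=
    fun r S => (bm_wal S).comp (hD.measurable_cfg r)
  have b1 := hD.Zsp_bm s Z hZ
  have h1 : ∀ ω, Z ω * g (cfg N β t ω) =
      ∑ S ∈ F.powerset, coef g S * (Z ω * wal S (cfg N β t ω)) := by
    intro ω
    rw [← mult_one_eq F g hg hdep (cfg N β t ω)]
    unfold mult
    rw [Finset.mul_sum]
    refine Finset.sum_congr rfl fun S _ => ?_
    rw [one_pow]; ring
  have h2 : ∀ ω, Z ω * mult F (Real.exp (-(t - s : ℝ≥0))) g (cfg N β s ω) =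
      ∑ S ∈ F.powerset, (Real.exp (-(t - s : ℝ≥0)) ^ S.card * coef g S) *
        (Z ω * wal S (cfg N β s ω)) := by
    intro ω
    unfold mult
    rw [Finset.mul_sum]
    refine Finset.sum_congr rfl fun S _ => ?_
    ring
  simp_rw [h1, h2]
  rw [integral_finsetSum _ fun S _ => ((b1.mul (hw t S)).smul _).integrable _,
    integral_finsetSum _ fun S _ => ((b1.mul (hw s S)).smul _).integrable _]
  refine Finset.sum_congr rfl fun S _ => ?_
  rw [integral_const_mul, integral_const_mul, hD.Zsp_decay s t hst Z hZ S]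
  ring

lemma DependsOn.mul' {F : Set I} {f g : (I → Bool) → ℝ} (hf : DependsOn f F) (hg : DependsOn g F) :
    DependsOn (fun y => f y * g y) F := by
  intro y y' h
  show f y * g y = f y' * g y'
  rw [hf h, hg h]

lemma DynData.Zsp_prod [DecidableEq I] (F : Finset I) (h : (I → Bool) → ℝ) (hh : BM h)
    (hdep : DependsOn h (F : Set I)) (δ : ℝ≥0) (n : ℕ) :
    (fun ω => ∏ j ∈ Finset.range (n + 1), h (cfg N β (j * δ) ω)) ∈ Zsp N β (n * δ) := by
  induction n with
  | zero =>
    have := Zsp_mul (N := N) (β := β) ((0 : ℕ) * δ) _ (Zsp_one _) F h hh hdep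
    convert this using 1
    ext ω; simp
  | succ n ih =>
    have h1 := Zsp_mono (N := N) (β := β) (s := n * δ) (t := ((n + 1 : ℕ) : ℝ≥0) * δ)
      (by gcongr; simp) ih
    have := Zsp_mul (N := N) (β := β) (((n + 1 : ℕ) : ℝ≥0) * δ) _ h1 F h hh hdep
    convert this using 1
    ext ω; rw [Finset.prod_range_succ]

theorem DynData.avoid [DecidableEq I] (hD : DynData μ 𝓕 N β) (F : Finset I) (δ : ℝ≥0)
    (h : (I → Bool) → ℝ) (hh : BM h) (hdep : DependsOn h (F : Set I)) (n : ℕ) :
    ∀ g : (I → Bool) → ℝ, BM g → DependsOn g (F : Set I) →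
    ∫ ω, (∏ j ∈ Finset.range (n + 1), h (cfg N β (j * δ) ω)) * g (cfg N β (n * δ) ω) ∂μ =
      ∫ y, killed (mult F (Real.exp (-δ))) h n y * g y ∂fair I := by
  have hR := revOp_mult (I := I) F (Real.exp (-δ)) (Real.exp_pos _).le
    (Real.exp_le_one_iff.2 (by simp))
  induction n with
  | zero =>
    intro g hg _
    simp only [killed, zero_add, Finset.range_one, Finset.prod_singleton]
    rw [← hD.law_cfg ((0 : ℕ) * δ), integral_map (hD.measurable_cfg _).aemeasurable
      (hh.mul hg).1.aestronglyMeasurable]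
  | succ n ih =>
    intro g hg hgdep
    have hle : (n : ℝ≥0) * δ ≤ ((n + 1 : ℕ) : ℝ≥0) * δ := by gcongr; simp
    have hsub : ((n + 1 : ℕ) : ℝ≥0) * δ - n * δ = δ := by
      push_cast; rw [add_mul, one_mul]; exact add_tsub_cancel_left _ _
    have h1 := hD.Zsp_mult (n * δ) ((n + 1 : ℕ) * δ) hle _ (DynData.Zsp_prod F h hh hdep δ n) F
      (fun y => h y * g y) (hh.mul hg) (DependsOn.mul' hdep hgdep)
    rw [hsub] at h1
    have h2 : ∀ ω, (∏ j ∈ Finset.range (n + 1 + 1), h (cfg N β (j * δ) ω)) *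
        g (cfg N β ((n + 1 : ℕ) * δ) ω) =
        (∏ j ∈ Finset.range (n + 1), h (cfg N β (j * δ) ω)) *
        (h (cfg N β ((n + 1 : ℕ) * δ) ω) * g (cfg N β ((n + 1 : ℕ) * δ) ω)) := by
      intro ω
      rw [Finset.prod_range_succ]; ring
    simp_rw [h2]
    rw [h1, ih _ (mult_bm _ _ _) (mult_dependsOn _ _ _), hR.symm _ _ (by
      exact killed_bm hR hh n) (hh.mul hg)]
    congr 1; ext y
    simp only [killed]
    ring

end dyn

end Pool.Agent.H.MP_20d613_pr
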