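import Pool.Agent.H.MP_20d613_pr.Energy

open MeasureTheory ProbabilityTheory Filter Topology Set
open scoped ENNReal NNReal

set_option linter.unusedSectionVars false
set_option linter.style.haveILetI false

namespace Pool.Agent.H.MP_20d613_pr

/-- data of dynamical percolation -/
structure DynData {I Ω : Type*} {mΩ : MeasurableSpace Ω} (μ : Measure Ω)
    (𝓕 : Filtration ℝ≥0 mΩ) (N : I → ℝ≥0 → Ω → ℕ) (β : I × ℕ → Ω → Bool) : Prop where
  clocks : PoissonClocks μ 𝓕 (fun _ : I => (1 : ℝ≥0)) N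
  meas : ∀ p, Measurable (β p)
  law : ∀ p, μ.map (β p) = coin
  indep : iIndepFun β μ
  indepN : Indep (⨆ x, ⨆ t, MeasurableSpace.comap (N x t) ⊤)
    (⨆ p, MeasurableSpace.comap (β p) ⊤) μ

section words
variable {I : Type*}

/-- product of signs along a list of (site, time) pairs -/
def wd (A : List (I × ℝ≥0)) (c : I × ℝ≥0 → ℕ) (b : I × ℕ → Bool) : ℝ :=
  (A.map fun a => sgn (b (a.1, c a))).prod

/-- product of signs over the sites of `S` at time `t` -/
def ws (S : Finset I) (t : ℝ≥0) (c : I × ℝ≥0 → ℕ) (b : I × ℕ → Bool) : ℝ :=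
  ∏ x ∈ S, sgn (b (x, c (x, t)))

lemma abs_wd (A : List (I × ℝ≥0)) (c : I × ℝ≥0 → ℕ) (b : I × ℕ → Bool) : |wd A c b| = 1 := by
  induction A with
  | nil => simp [wd]
  | cons a A ih =>
    have : wd (a :: A) c b = sgn (b (a.1, c a)) * wd A c b := by simp [wd]
    rw [this, abs_mul, ih, abs_sgn, one_mul]

lemma abs_ws (S : Finset I) (t : ℝ≥0) (c : I × ℝ≥0 → ℕ) (b : I × ℕ → Bool) : |ws S t c b| = 1 := by
  simp [ws, Finset.abs_prod, abs_sgn]

lemma wd_append (A B : List (I × ℝ≥0)) (c : I × ℝ≥0 → ℕ) (b : I × ℕ → Bool) :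
    wd (A ++ B) c b = wd A c b * wd B c b := by simp [wd]

lemma wd_toList (S : Finset I) (t : ℝ≥0) (c : I × ℝ≥0 → ℕ) (b : I × ℕ → Bool) :
    wd (S.toList.map fun x => (x, t)) c b = ws S t c b := by
  unfold wd ws
  rw [List.map_map, ← Finset.prod_map_toList]
  rfl

variable {Ω' : Type*} [MeasurableSpace Ω'] (c : Ω' → I × ℝ≥0 → ℕ)

lemma measurable_bit (a : I × ℝ≥0) (hc : Measurable fun ω => c ω a) :
    Measurable fun p : Ω' × (I × ℕ → Bool) => sgn (p.2 (a.1, c p.1 a)) := by
  have h1 : Measurable fun q : ℕ × (I × ℕ → Bool) => sgn (q.2 (a.1, q.1)) := by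
    apply measurable_from_prod_countable_right
    intro n
    exact measurable_sgn.comp (measurable_pi_apply (a.1, n))
  exact h1.comp ((hc.comp measurable_fst).prodMk measurable_snd)

lemma measurable_wd (A : List (I × ℝ≥0)) (hc : ∀ a ∈ A, Measurable fun ω => c ω a) :
    Measurable fun p : Ω' × (I × ℕ → Bool) => wd A (c p.1) p.2 := by
  induction A with
  | nil => simp [wd]
  | cons a A ih =>
    have : (fun p : Ω' × (I × ℕ → Bool) => wd (a :: A) (c p.1) p.2) =
        fun p => sgn (p.2 (a.1, c p.1 a)) * wd A (c p.1) p.2 := by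
      ext p; simp [wd]
    rw [this]
    exact (measurable_bit c a (hc a (by simp))).mul (ih fun a ha => hc a (by simp [ha]))

lemma measurable_ws (S : Finset I) (t : ℝ≥0) (hc : ∀ x ∈ S, Measurable fun ω => c ω (x, t)) :
    Measurable fun p : Ω' × (I × ℕ → Bool) => ws S t (c p.1) p.2 := by
  unfold ws
  exact Finset.measurable_prod _ fun x hx => measurable_bit c (x, t) (hc x hx)

/-- expectation over the bits -/
noncomputable def phi (A : List (I × ℝ≥0)) (S : Finset I) (t : ℝ≥0) (c : I × ℝ≥0 → ℕ) : ℝ :=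
  ∫ b, wd A c b * ws S t c b ∂fair (I × ℕ)

lemma measurable_phi (A : List (I × ℝ≥0)) (S : Finset I) (t : ℝ≥0)
    (hA : ∀ a ∈ A, Measurable fun ω => c ω a) (hS : ∀ x ∈ S, Measurable fun ω => c ω (x, t)) :
    Measurable fun ω => phi A S t (c ω) := by
  have h1 := (measurable_wd c A hA).mul (measurable_ws c S t hS)
  exact (h1.stronglyMeasurable.integral_prod_right' (ν := fair (I × ℕ))).measurable

lemma abs_phi (A : List (I × ℝ≥0)) (S : Finset I) (t : ℝ≥0) (c : I × ℝ≥0 → ℕ) :
    |phi A S t c| ≤ 1 := by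
  have := norm_integral_le_of_norm_le_const (μ := fair (I × ℕ)) (C := 1)
    (f := fun b => wd A c b * ws S t c b)
    (ae_of_all _ fun ω => by rw [Real.norm_eq_abs, abs_mul, abs_wd, abs_ws, one_mul])
  simpa [phi] using this

lemma phi_congr (A : List (I × ℝ≥0)) (S : Finset I) (s t : ℝ≥0) (c : I × ℝ≥0 → ℕ)
    (h : ∀ x ∈ S, c (x, s) = c (x, t)) : phi A S t c = phi A S s c := by
  unfold phi ws
  congr 1; ext b
  congr 1
  exact Finset.prod_congr rfl fun x hx => by rw [h x hx]

/-- flipping a bit used exactly once -/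
lemma phi_eq_zero [Countable I] [DecidableEq I] (A : List (I × ℝ≥0)) (S : Finset I) (t : ℝ≥0)
    (c : I × ℝ≥0 → ℕ)
    (x : I) (hx : x ∈ S) (hA : ∀ a ∈ A, (a.1, c a) ≠ (x, c (x, t))) : phi A S t c = 0 := by
  set p : I × ℕ := (x, c (x, t)) with hp
  have h1 : ∀ b : I × ℕ → Bool, wd A c (flip p b) * ws S t c (flip p b) = -(wd A c b * ws S t c b) := by
    intro b
    have h2 : wd A c (flip p b) = wd A c b := by
      unfold wd
      congr 1
      apply List.map_congr_left
      intro a ha
      unfold flip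
      rw [Function.update_of_ne (hA a ha)]
    have h3 : ws S t c (flip p b) = -ws S t c b := by
      unfold ws
      rw [← Finset.mul_prod_erase _ _ hx, ← Finset.mul_prod_erase _ _ hx]
      have h4 : sgn (flip p b (x, c (x, t))) = - sgn (b (x, c (x, t))) := by
        unfold flip
        rw [← hp, Function.update_self]
        cases b p <;> simp
      have h5 : ∀ y ∈ S.erase x, sgn (flip p b (y, c (y, t))) = sgn (b (y, c (y, t))) := by
        intro y hy
        unfold flip
        rw [Function.update_of_ne]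
        intro h
        rw [hp, Prod.mk.injEq] at h
        exact (Finset.mem_erase.1 hy).1 h.1
      rw [h4, Finset.prod_congr rfl h5]
      ring
    rw [h2, h3]; ring
  have hbm : BM fun b => wd A c b * ws S t c b := by
    refine BM.of_abs_le (B := 1) ?_ fun b => by rw [abs_mul, abs_wd, abs_ws, one_mul]
    have h2 := (measurable_wd (fun _ : Unit => c) A (fun _ _ => measurable_const)).mul
      (measurable_ws (fun _ : Unit => c) S t (fun _ _ => measurable_const))
    exact h2.comp (measurable_const (a := ()) |>.prodMk measurable_id)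
  have h6 := integral_comp_flip p _ hbm
  simp_rw [h1] at h6
  rw [integral_neg] at h6
  unfold phi
  linarith

end words

section dyn
variable {I Ω : Type*} {mΩ : MeasurableSpace Ω} {μ : Measure Ω}
  {𝓕 : Filtration ℝ≥0 mΩ} {N : I → ℝ≥0 → Ω → ℕ} {β : I × ℕ → Ω → Bool}

/-- the configuration -/
def cfg (N : I → ℝ≥0 → Ω → ℕ) (β : I × ℕ → Ω → Bool) (t : ℝ≥0) (ω : Ω) (x : I) : Bool :=
  β (x, N x t ω) ω

/-- all clock values -/
def cnt (N : I → ℝ≥0 → Ω → ℕ) (ω : Ω) (a : I × ℝ≥0) : ℕ := N a.1 a.2 ω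

/-- all bits -/
def bts (β : I × ℕ → Ω → Bool) (ω : Ω) (p : I × ℕ) : Bool := β p ω

lemma ws_cfg (S : Finset I) (t : ℝ≥0) (ω : Ω) : ws S t (cnt N ω) (bts β ω) = wal S (cfg N β t ω) :=
  rfl

lemma DynData.measurable_N (hD : DynData μ 𝓕 N β) (x : I) (t : ℝ≥0) : Measurable (N x t) :=
  (hD.clocks.adapted x t).mono (𝓕.le t) le_rfl

lemma DynData.measurable_cnt (hD : DynData μ 𝓕 N β) : Measurable (cnt N) :=
  measurable_pi_lambda _ fun a => hD.measurable_N a.1 a.2

lemma DynData.measurable_bts (hD : DynData μ 𝓕 N β) : Measurable (bts β) :=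
  measurable_pi_lambda _ fun p => hD.meas p

lemma DynData.measurable_cfg (hD : DynData μ 𝓕 N β) (t : ℝ≥0) : Measurable (cfg N β t) := by
  apply measurable_pi_lambda
  intro x
  have h1 : Measurable fun q : ℕ × Ω => β (x, q.1) q.2 := by
    apply measurable_from_prod_countable_right
    intro n
    exact hD.meas (x, n)
  exact h1.comp ((hD.measurable_N x t).prodMk measurable_id)

lemma DynData.map_bts [IsProbabilityMeasure μ] (hD : DynData μ 𝓕 N β) :
    μ.map (bts β) = fair (I × ℕ) := by
  have h1 := hD.indep.map_fun_eq_infinitePi_map hD.meas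
  unfold fair
  simp_rw [hD.law] at h1
  exact h1

lemma DynData.indepFun [IsProbabilityMeasure μ] (hD : DynData μ 𝓕 N β) :
    IndepFun (cnt N) (bts β) μ := by
  rw [IndepFun_iff_Indep]
  refine indep_of_indep_of_le_left (indep_of_indep_of_le_right hD.indepN ?_) ?_
  · unfold bts
    simp only [MeasurableSpace.pi, MeasurableSpace.comap_iSup, MeasurableSpace.comap_comp]
    exact le_rfl
  · unfold cnt
    simp only [MeasurableSpace.pi, MeasurableSpace.comap_iSup, MeasurableSpace.comap_comp]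
    refine iSup_le fun a => ?_
    exact le_iSup_of_le a.1 (le_iSup_of_le a.2 le_rfl)

/-- integrate out the bits -/
lemma DynData.integral_bits [IsProbabilityMeasure μ] (hD : DynData μ 𝓕 N β)
    (ψ : (I × ℝ≥0 → ℕ) → ℝ) (hψ : BM ψ) (A : List (I × ℝ≥0)) (S : Finset I) (t : ℝ≥0) :
    ∫ ω, ψ (cnt N ω) * (wd A (cnt N ω) (bts β ω) * wal S (cfg N β t ω)) ∂μ =
      ∫ ω, ψ (cnt N ω) * phi A S t (cnt N ω) ∂μ := by
  have hc := hD.measurable_cnt
  have hb := hD.measurable_bts
  have hmap := (indepFun_iff_map_prod_eq_prod_map_map hc.aemeasurable hb.aemeasurable).1 hD.indepFun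
  rw [hD.map_bts] at hmap
  haveI : IsProbabilityMeasure (μ.map (cnt N)) := Measure.isProbabilityMeasure_map hc.aemeasurable
  have hg : BM fun p : (I × ℝ≥0 → ℕ) × (I × ℕ → Bool) =>
      ψ p.1 * (wd A p.1 p.2 * ws S t p.1 p.2) := by
    refine (hψ.comp measurable_fst).mul (BM.of_abs_le (B := 1) ?_ fun b => by
      rw [abs_mul, abs_wd, abs_ws, one_mul])
    exact (measurable_wd (fun c : I × ℝ≥0 → ℕ => c) A (fun a _ => measurable_pi_apply a)).mul
      (measurable_ws (fun c : I × ℝ≥0 → ℕ => c) S t (fun x _ => measurable_pi_apply (x, t)))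
  have h1 : ∫ ω, ψ (cnt N ω) * (wd A (cnt N ω) (bts β ω) * wal S (cfg N β t ω)) ∂μ =
      ∫ p, ψ p.1 * (wd A p.1 p.2 * ws S t p.1 p.2) ∂(μ.map fun ω => (cnt N ω, bts β ω)) := by
    rw [integral_map (hc.prodMk hb).aemeasurable hg.1.aestronglyMeasurable]
    rfl
  rw [h1, hmap, integral_prod _ (hg.integrable _)]
  simp_rw [integral_const_mul]
  have hphi : Measurable fun c : I × ℝ≥0 → ℕ => phi A S t c :=
    measurable_phi (fun c => c) A S t (fun a _ => measurable_pi_apply a)
      (fun x _ => measurable_pi_apply (x, t))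
  rw [integral_map hc.aemeasurable]
  · rfl
  · exact (hψ.1.mul hphi).aestronglyMeasurable

/-- events of the increments are independent of the past -/
lemma DynData.integral_incr [IsProbabilityMeasure μ] (hD : DynData μ 𝓕 N β) (s t : ℝ≥0)
    (hst : s ≤ t) (R : Set (I → ℕ)) (hR : MeasurableSet R) (Z : Ω → ℝ) (hZ : Measurable[𝓕 s] Z) :
    ∫ ω, R.indicator 1 (fun x => N x t ω - N x s ω) * Z ω ∂μ =
      μ.real {ω | (fun x => N x t ω - N x s ω) ∈ R} * ∫ ω, Z ω ∂μ := by
  have hinc : Measurable fun ω x => N x t ω - N x s ω :=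
    measurable_pi_lambda _ fun x => (hD.measurable_N x t).sub (hD.measurable_N x s)
  have hind : IndepFun (fun ω x => N x t ω - N x s ω) Z μ := by
    rw [IndepFun_iff_Indep]
    refine (indep_of_indep_of_le_left (indep_of_indep_of_le_right
      (hD.clocks.indep_past s t hst) ?_) hZ.comap_le).symm
    simp only [MeasurableSpace.pi, MeasurableSpace.comap_iSup, MeasurableSpace.comap_comp]
    exact le_rfl
  have hR1 : Measurable (R.indicator (1 : (I → ℕ) → ℝ)) := measurable_one.indicator hR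
  have h1 := (hind.comp hR1 measurable_id).integral_fun_mul_eq_mul_integral
    (hR1.comp hinc).aestronglyMeasurable (hZ.mono (𝓕.le s) le_rfl).aestronglyMeasurable
  simp only [Function.comp_def, id] at h1
  rw [h1]
  congr 1
  have h2 : (fun ω => R.indicator (1 : (I → ℕ) → ℝ) (fun x => N x t ω - N x s ω)) =
      {ω | (fun x => N x t ω - N x s ω) ∈ R}.indicator 1 := by
    ext ω
    simp only [indicator]
    rfl
  rw [h2]
  exact integral_indicator_one (μ := μ) (hinc hR)

/-- the decay of characters -/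
lemma DynData.decay [Countable I] [IsProbabilityMeasure μ] (hD : DynData μ 𝓕 N β) (s t : ℝ≥0)
    (hst : s ≤ t) (A : List (I × ℝ≥0)) (hA : ∀ a ∈ A, a.2 ≤ s) (S : Finset I) :
    ∫ ω, wd A (cnt N ω) (bts β ω) * wal S (cfg N β t ω) ∂μ =
      Real.exp (-(t - s : ℝ≥0)) ^ S.card *
        ∫ ω, wd A (cnt N ω) (bts β ω) * wal S (cfg N β s ω) ∂μ := by
  classical
  have h1 := hD.integral_bits (fun _ => 1) (BM.const 1) A S t
  have h2 := hD.integral_bits (fun _ => 1) (BM.const 1) A S s
  simp only [one_mul] at h1 h2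
  rw [h1, h2]
  set R : Set (I → ℕ) := {c | ∀ x ∈ S, c x = 0} with hR
  have hRm : MeasurableSet R := by
    have : R = ⋂ x ∈ S, (fun c : I → ℕ => c x) ⁻¹' {0} := by ext c; simp [hR]
    rw [this]
    exact Finset.measurableSet_biInter _ fun x _ =>
      measurable_pi_apply x (MeasurableSet.singleton 0)
  have h3 := hD.integral_incr s t hst R hRm (fun ω => phi A S s (cnt N ω)) (by
    refine @measurable_phi I Ω (𝓕 s) (cnt N) A S s ?_ ?_
    · intro a ha
      exact (hD.clocks.adapted a.1 a.2).mono (𝓕.mono (hA a ha)) le_rfl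
    · intro x _
      exact hD.clocks.adapted x s)
  have h4 : μ.real {ω | (fun x => N x t ω - N x s ω) ∈ R} =
      Real.exp (-(t - s : ℝ≥0)) ^ S.card := by
    have h5 : {ω | (fun x => N x t ω - N x s ω) ∈ R} =
        ⋂ x ∈ S, (fun ω => N x t ω - N x s ω) ⁻¹' {0} := by ext ω; simp [hR]
    have h6 := (hD.clocks.indep s t hst).measure_inter_preimage_eq_mul S
      (sets := fun _ => {0}) (fun _ _ => MeasurableSet.singleton 0)
    rw [h5, measureReal_def, h6, ENNReal.toReal_prod]
    rw [Finset.prod_eq_pow_card]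
    intro x _
    have h7 := hD.clocks.poisson x s t hst
    have hm : Measurable fun ω => N x t ω - N x s ω :=
      (hD.measurable_N x t).sub (hD.measurable_N x s)
    have h8 : μ ((fun ω => N x t ω - N x s ω) ⁻¹' {0}) = poissonMeasure (1 * (t - s)) {0} := by
      rw [← h7, Measure.map_apply hm (MeasurableSet.singleton 0)]
    rw [h8, ← measureReal_def, po_real_zero, one_mul]
  rw [← h4, ← h3]
  apply integral_congr_ae
  filter_upwards [hD.clocks.mono] with ω hω
  by_cases h : (fun x => N x t ω - N x s ω) ∈ R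
  · rw [indicator_of_mem h, Pi.one_apply, one_mul]
    apply phi_congr
    intro x hx
    have h9 : N x t ω - N x s ω = 0 := h x hx
    have h10 : N x s ω ≤ N x t ω := hω x hst
    show N x s ω = N x t ω
    omega
  · rw [indicator_of_notMem h, zero_mul]
    simp only [hR, mem_ofPred_eq, not_forall] at h
    obtain ⟨x, hx, hne⟩ := h
    apply phi_eq_zero A S t _ x hx
    intro a ha heq
    rw [Prod.mk.injEq] at heq
    have h12 : N a.1 a.2 ω = N x t ω := heq.2
    have h13 : N a.1 a.2 ω ≤ N a.1 s ω := hω a.1 (hA _ ha)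
    rw [heq.1] at h12 h13
    omega

end dyn

end Pool.Agent.H.MP_20d613_pr
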