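import Pool.Agent.H.MP_20d613_pr.Law

open MeasureTheory ProbabilityTheory Filter Topology Set
open scoped ENNReal NNReal

set_option linter.unusedSectionVars false
set_option linter.style.haveILetI false

namespace Pool.Agent.H.MP_20d613_pr

variable {I : Type*} [DecidableEq I]

/-- Walsh coefficient -/
noncomputable def coef (f : (I → Bool) → ℝ) (S : Finset I) : ℝ := ∫ y, f y * wal S y ∂fair I

lemma wal_mul_wal (S T : Finset I) (y : I → Bool) : wal S y * wal T y = wal (symmDiff S T) y :=
  chi_mul_chi _ S T y

lemma integral_wal_mul_wal (S T : Finset I) :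
    ∫ y, wal S y * wal T y ∂fair I = if S = T then 1 else 0 := by
  simp_rw [wal_mul_wal]
  rw [integral_wal_fair']
  have h5 : symmDiff S T = ∅ ↔ S = T := by
    rw [← Finset.bot_eq_empty, symmDiff_eq_bot]
  simp only [h5]

/-- the truncated Walsh series with multipliers -/
noncomputable def mult (F : Finset I) (q : ℝ) (f : (I → Bool) → ℝ) (y : I → Bool) : ℝ :=
  ∑ S ∈ F.powerset, q ^ S.card * coef f S * wal S y

lemma mult_bm (F : Finset I) (q : ℝ) (f : (I → Bool) → ℝ) : BM (mult F q f) :=
  BM.sum _ fun S _ => (bm_wal S).smul _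

lemma mult_dependsOn (F : Finset I) (q : ℝ) (f : (I → Bool) → ℝ) :
    DependsOn (mult F q f) (F : Set I) := by
  intro y y' h
  unfold mult
  refine Finset.sum_congr rfl fun S hS => ?_
  rw [dependsOn_wal S (x := y) (y := y') fun x hx => h x (Finset.mem_powerset.1 hS hx)]

lemma integral_mul_mult (F : Finset I) (q : ℝ) (f g : (I → Bool) → ℝ) (hf : BM f) :
    ∫ y, f y * mult F q g y ∂fair I = ∑ S ∈ F.powerset, q ^ S.card * coef f S * coef g S := by
  unfold mult
  simp_rw [Finset.mul_sum]
  rw [integral_finsetSum _ fun S _ => (hf.mul ((bm_wal S).smul _)).integrable _]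
  refine Finset.sum_congr rfl fun S _ => ?_
  have : ∀ y, f y * (q ^ S.card * coef g S * wal S y) = (q ^ S.card * coef g S) * (f y * wal S y) := by
    intro y; ring
  simp_rw [this]
  rw [integral_const_mul]
  unfold coef; ring

/-- kernel representation -/
lemma mult_eq_integral (F : Finset I) (q : ℝ) (f : (I → Bool) → ℝ) (hf : BM f) (y : I → Bool) :
    mult F q f y = ∫ y', f y' * ∏ x ∈ F, (1 + q * (sgn (y x) * sgn (y' x))) ∂fair I := by
  have h1 : ∀ y' : I → Bool, ∏ x ∈ F, (1 + q * (sgn (y x) * sgn (y' x))) =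
      ∑ S ∈ F.powerset, q ^ S.card * wal S y * wal S y' := by
    intro y'
    rw [Finset.prod_one_add]
    refine Finset.sum_congr rfl fun S _ => ?_
    unfold wal chi
    rw [Finset.prod_mul_distrib, Finset.prod_const, Finset.prod_mul_distrib]; ring
  simp_rw [h1, Finset.mul_sum]
  rw [integral_finsetSum _ fun S _ => (hf.mul ((bm_wal S).smul _)).integrable _]
  unfold mult coef
  refine Finset.sum_congr rfl fun S _ => ?_
  have : ∀ y', f y' * (q ^ S.card * wal S y * wal S y') = (q ^ S.card * wal S y) * (f y' * wal S y') := by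
    intro y'; ring
  simp_rw [this]
  rw [integral_const_mul]; ring

/-- Bessel inequality -/
lemma bessel (F : Finset I) (f : (I → Bool) → ℝ) (hf : BM f) :
    ∑ S ∈ F.powerset, coef f S ^ 2 ≤ ∫ y, f y ^ 2 ∂fair I := by
  have hg := mult_bm F 1 f
  have h1 : 0 ≤ ∫ y, (f y - mult F 1 f y) ^ 2 ∂fair I := integral_nonneg fun y => sq_nonneg _
  have h2 := integral_mul_mult F 1 f f hf
  have h3 := integral_mul_mult F 1 (mult F 1 f) f hg
  have h4 : ∀ S ∈ F.powerset, coef (mult F 1 f) S = coef f S := by
    intro S hS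
    unfold coef
    have : ∀ y, mult F 1 f y * wal S y = wal S y * mult F 1 f y := fun y => mul_comm _ _
    simp_rw [this]
    rw [integral_mul_mult F 1 (wal S) f (bm_wal S)]
    have : ∀ T ∈ F.powerset, (1:ℝ) ^ T.card * coef (wal S) T * coef f T =
        if S = T then coef f T else 0 := by
      intro T _
      unfold coef
      rw [integral_wal_mul_wal]
      split_ifs <;> simp
    rw [Finset.sum_congr rfl this, Finset.sum_ite_eq, if_pos hS]
    rfl
  have h5 : ∫ y, (f y - mult F 1 f y) ^ 2 ∂fair I =
      ∫ y, f y ^ 2 ∂fair I - 2 * ∫ y, f y * mult F 1 f y ∂fair I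
        + ∫ y, mult F 1 f y * mult F 1 f y ∂fair I := by
    rw [← integral_const_mul, ← BM.int_sub _ hf.sq ((hf.mul hg).smul 2),
      ← BM.int_add _ (hf.sq.sub ((hf.mul hg).smul 2)) (hg.mul hg)]
    congr 1; ext y; ring
  rw [h5, h2, h3] at h1
  have h6 : ∑ S ∈ F.powerset, (1:ℝ) ^ S.card * coef f S * coef f S =
      ∑ S ∈ F.powerset, coef f S ^ 2 := Finset.sum_congr rfl fun S _ => by rw [one_pow]; ring
  have h7 : ∑ S ∈ F.powerset, (1:ℝ) ^ S.card * coef (mult F 1 f) S * coef f S =
      ∑ S ∈ F.powerset, coef f S ^ 2 := Finset.sum_congr rfl fun S hS => by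
    rw [one_pow, h4 S hS]; ring
  rw [h6, h7] at h1
  linarith

/-- The noise operator restricted to `F` is a reversible Markov operator. -/
lemma revOp_mult (F : Finset I) (q : ℝ) (hq0 : 0 ≤ q) (hq1 : q ≤ 1) :
    RevOp (fair I) (mult F q) where
  bm := fun f _ => mult_bm F q f
  pos := fun f hf h y => by
    rw [mult_eq_integral F q f hf]
    apply integral_nonneg
    intro y'
    apply mul_nonneg (h y')
    apply Finset.prod_nonneg
    intro x _
    rcases y x with _ | _ <;> rcases y' x with _ | _ <;> simp <;> linarith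
  add := fun f g hf hg y => by
    unfold mult
    rw [← Finset.sum_add_distrib]
    refine Finset.sum_congr rfl fun S _ => ?_
    have : coef (fun x => f x + g x) S = coef f S + coef g S := by
      unfold coef
      rw [← BM.int_add _ (hf.mul (bm_wal S)) (hg.mul (bm_wal S))]
      congr 1; ext y; ring
    rw [this]; ring
  smul := fun c f _ y => by
    unfold mult
    rw [Finset.mul_sum]
    refine Finset.sum_congr rfl fun S _ => ?_
    have : coef (fun x => c * f x) S = c * coef f S := by
      unfold coef
      rw [← integral_const_mul]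
      congr 1; ext y; ring
    rw [this]; ring
  one := fun y => by
    unfold mult
    have : ∀ S ∈ F.powerset, q ^ S.card * coef (fun _ => 1) S * wal S y =
        if S = ∅ then 1 else 0 := by
      intro S _
      unfold coef
      simp only [one_mul]
      rw [integral_wal_fair']
      split_ifs with h
      · subst h; simp [wal, chi_empty]
      · simp
    rw [Finset.sum_congr rfl this]
    simp
  symm := fun f g hf hg => by
    rw [integral_mul_mult F q f g hf, integral_mul_mult F q g f hg]
    refine Finset.sum_congr rfl fun S _ => by ring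
  contr := fun f hf => by
    rw [integral_mul_mult F q f f hf]
    refine le_trans (Finset.sum_le_sum fun S _ => ?_) (bessel F f hf)
    have h1 : q ^ S.card ≤ 1 := pow_le_one₀ hq0 hq1
    nlinarith [sq_nonneg (coef f S)]

/-- Walsh expansion of functions depending on `F` -/
lemma mult_one_eq (F : Finset I) (f : (I → Bool) → ℝ) (hf : BM f) (hdep : DependsOn f (F : Set I))
    (y : I → Bool) : mult F 1 f y = f y := by
  rw [mult_eq_integral F 1 f hf]
  have h1 : ∀ y' : I → Bool, f y' * ∏ x ∈ F, (1 + 1 * (sgn (y x) * sgn (y' x))) =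
      f y * ∏ x ∈ F, (1 + 1 * (sgn (y x) * sgn (y' x))) := by
    intro y'
    by_cases h : ∀ x ∈ F, y x = y' x
    · rw [hdep (x := y') (y := y) fun x hx => (h x hx).symm]
    · push Not at h
      obtain ⟨x, hx, hne⟩ := h
      have : ∏ x ∈ F, (1 + 1 * (sgn (y x) * sgn (y' x))) = 0 := by
        apply Finset.prod_eq_zero hx
        rcases h1 : y x with _ | _ <;> rcases h2 : y' x with _ | _ <;> simp_all
      rw [this]; simp
  simp_rw [h1]
  rw [integral_const_mul]
  have h2 := mult_eq_integral F 1 (fun _ => 1) (BM.const 1) y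
  rw [(revOp_mult F 1 zero_le_one le_rfl).one y] at h2
  simp only [one_mul] at h2 ⊢
  rw [← h2, mul_one]

lemma parseval (F : Finset I) (f g : (I → Bool) → ℝ) (hf : BM f) (hg : BM g)
    (hdep : DependsOn g (F : Set I)) :
    ∫ y, f y * g y ∂fair I = ∑ S ∈ F.powerset, coef f S * coef g S := by
  have h1 := integral_mul_mult F 1 f g hf
  simp_rw [mult_one_eq F g hg hdep] at h1
  rw [h1]
  refine Finset.sum_congr rfl fun S _ => by rw [one_pow, one_mul]

/-! ### flips -/

/-- flip the bit at `x` -/
def flip (x : I) (y : I → Bool) : I → Bool := Function.update y x (!y x)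

lemma measurable_flip (x : I) : Measurable (flip x : (I → Bool) → (I → Bool)) := by
  unfold flip
  apply measurable_pi_lambda
  intro z
  by_cases h : z = x
  · subst h
    simp only [Function.update_self]
    exact (Measurable.of_discrete (f := fun b : Bool => !b)).comp (measurable_pi_apply z)
  · simp only [Function.update_of_ne h]
    exact measurable_pi_apply z

lemma wal_flip (x : I) (S : Finset I) (y : I → Bool) :
    wal S (flip x y) = (if x ∈ S then -1 else 1) * wal S y := by
  unfold wal chi flip
  have : ∀ z ∈ S, sgn (Function.update y x (!y x) z) = (if z = x then -1 else 1) * sgn (y z) := by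
    intro z _
    by_cases h : z = x
    · subst h; rcases h2 : y z with _ | _ <;> simp
    · simp [h]
  rw [Finset.prod_congr rfl this, Finset.prod_mul_distrib, Finset.prod_ite_eq']

lemma fair_map_flip [Countable I] (x : I) : (fair I).map (flip x) = fair I := by
  haveI : IsProbabilityMeasure ((fair I).map (flip x)) :=
    Measure.isProbabilityMeasure_map (measurable_flip x).aemeasurable
  apply ext_config
  intro S
  rw [integral_map (measurable_flip x).aemeasurable (measurable_wal S).aestronglyMeasurable]
  simp_rw [wal_flip]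
  rw [integral_const_mul, integral_wal_fair']
  by_cases h : S = ∅
  · subst h; simp
  · simp [h]

lemma fair_map_swc [Countable I] (e : Sym2 I) : (fair I).map (swc e) = fair I := by
  haveI : IsProbabilityMeasure ((fair I).map (swc e)) :=
    Measure.isProbabilityMeasure_map (measurable_swc e).aemeasurable
  apply ext_config
  intro S
  rw [integral_map (measurable_swc e).aemeasurable (measurable_wal S).aestronglyMeasurable]
  simp_rw [wal_swc]
  rw [integral_wal_fair', integral_wal_fair']
  have : (act e S = ∅) ↔ S = ∅ := by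
    rw [← Finset.card_eq_zero, act_card, Finset.card_eq_zero]
  simp [this]

lemma integral_comp_flip [Countable I] (x : I) (f : (I → Bool) → ℝ) (hf : BM f) :
    ∫ y, f (flip x y) ∂fair I = ∫ y, f y ∂fair I := by
  conv_rhs => rw [← fair_map_flip x]
  rw [integral_map (measurable_flip x).aemeasurable hf.1.aestronglyMeasurable]

lemma integral_comp_swc [Countable I] (e : Sym2 I) (f : (I → Bool) → ℝ) (hf : BM f) :
    ∫ y, f (swc e y) ∂fair I = ∫ y, f y ∂fair I := by
  conv_rhs => rw [← fair_map_swc e]
  rw [integral_map (measurable_swc e).aemeasurable hf.1.aestronglyMeasurable]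

/-- influence of a coordinate -/
noncomputable def infl (u : (I → Bool) → ℝ) (x : I) : ℝ := ∫ y, (u y - u (flip x y)) ^ 2 ∂fair I

lemma infl_nonneg (u : (I → Bool) → ℝ) (x : I) : 0 ≤ infl u x :=
  integral_nonneg fun _ => sq_nonneg _

lemma infl_eq_zero (u : (I → Bool) → ℝ) (F : Finset I) (hdep : DependsOn u (F : Set I)) (x : I)
    (hx : x ∉ F) : infl u x = 0 := by
  unfold infl
  have : ∀ y, u (flip x y) = u y := by
    intro y
    apply hdep
    intro z hz
    have : z ≠ x := fun h => hx (h ▸ hz)
    simp [flip, Function.update_of_ne this]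
  simp [this]

lemma infl_eq [Countable I] (u : (I → Bool) → ℝ) (hu : BM u) (F : Finset I)
    (hdep : DependsOn u (F : Set I)) (x : I) :
    infl u x = 4 * ∑ S ∈ F.powerset, (if x ∈ S then 1 else 0) * coef u S ^ 2 := by
  have huf : BM fun y => u (flip x y) := hu.comp (measurable_flip x)
  have h1 : infl u x = 2 * ∫ y, u y * u y ∂fair I - 2 * ∫ y, u (flip x y) * u y ∂fair I := by
    unfold infl
    have h2 : ∫ y, u (flip x y) * u (flip x y) ∂fair I = ∫ y, u y * u y ∂fair I :=
      integral_comp_flip x (fun y => u y * u y) (hu.mul hu)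
    have h3 : ∫ y, (u y - u (flip x y)) ^ 2 ∂fair I = ∫ y, u y * u y ∂fair I
        - 2 * ∫ y, u (flip x y) * u y ∂fair I + ∫ y, u (flip x y) * u (flip x y) ∂fair I := by
      rw [← integral_const_mul, ← BM.int_sub _ (hu.mul hu) ((huf.mul hu).smul 2),
        ← BM.int_add _ ((hu.mul hu).sub ((huf.mul hu).smul 2)) (huf.mul huf)]
      congr 1; ext y; ring
    rw [h3, h2]; ring
  have hc : ∀ S, coef (fun y => u (flip x y)) S = (if x ∈ S then -1 else 1) * coef u S := by
    intro S
    unfold coef
    have h4 : ∀ y, u (flip x y) * wal S y = (fun y => u y * wal S (flip x y)) (flip x y) := by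
      intro y
      have : flip x (flip x y) = y := by
        ext z
        by_cases h : z = x
        · subst h; simp [flip]
        · simp [flip, Function.update_of_ne h]
      simp only [this]
    simp_rw [h4]
    rw [integral_comp_flip x (fun y => u y * wal S (flip x y))
      (hu.mul ((bm_wal S).comp (measurable_flip x)))]
    simp_rw [wal_flip]
    rw [← integral_const_mul]
    congr 1; ext y; ring
  rw [h1, parseval F u u hu hu hdep, parseval F (fun y => u (flip x y)) u huf hu hdep,
    ← mul_sub, ← Finset.sum_sub_distrib, Finset.mul_sum, Finset.mul_sum]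
  refine Finset.sum_congr rfl fun S _ => ?_
  rw [hc]
  split_ifs <;> ring

/-- The total influence is bounded by the energy of the noise operator. -/
lemma sum_infl_le [Countable I] (u : (I → Bool) → ℝ) (hu : BM u) (F : Finset I)
    (hdep : DependsOn u (F : Set I)) (δ : ℝ) (hδ : 0 ≤ δ) :
    δ * ∑ x ∈ F, infl u x ≤ 4 * Real.exp (δ * F.card) *
      (∫ y, u y ^ 2 ∂fair I - ∫ y, u y * mult F (Real.exp (-δ)) u y ∂fair I) := by
  have h1 : ∑ x ∈ F, infl u x = 4 * ∑ S ∈ F.powerset, (S.card : ℝ) * coef u S ^ 2 := by
    simp_rw [infl_eq u hu F hdep]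
    rw [← Finset.mul_sum, Finset.sum_comm]
    congr 1
    refine Finset.sum_congr rfl fun S hS => ?_
    rw [← Finset.sum_mul]
    congr 1
    rw [Finset.sum_ite_mem, Finset.inter_eq_right.2 (Finset.mem_powerset.1 hS)]
    simp
  have h2 : ∫ y, u y ^ 2 ∂fair I = ∑ S ∈ F.powerset, coef u S * coef u S := by
    rw [← parseval F u u hu hu hdep]
    congr 1; ext y; ring
  rw [h1, h2, integral_mul_mult F _ u u hu, ← Finset.sum_sub_distrib, Finset.mul_sum,
    Finset.mul_sum, Finset.mul_sum]
  refine Finset.sum_le_sum fun S hS => ?_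
  have hcard : (S.card : ℝ) ≤ F.card := by
    exact_mod_cast Finset.card_le_card (Finset.mem_powerset.1 hS)
  have hexp : (Real.exp (-δ)) ^ S.card = Real.exp (-(δ * S.card)) := by
    rw [← Real.exp_nat_mul]; congr 1; ring
  rw [hexp]
  have h3 : δ * S.card ≤ Real.exp (δ * F.card) * (1 - Real.exp (-(δ * S.card))) := by
    have h4 := Real.add_one_le_exp (δ * S.card)
    have h5 : Real.exp (δ * S.card) ≤ Real.exp (δ * F.card) :=
      Real.exp_le_exp.2 (mul_le_mul_of_nonneg_left hcard hδ)
    have h6 : 0 ≤ 1 - Real.exp (-(δ * S.card)) := by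
      rw [sub_nonneg, Real.exp_le_one_iff]
      have : 0 ≤ δ * (S.card : ℝ) := by positivity
      linarith
    calc δ * S.card ≤ Real.exp (δ * S.card) - 1 := by linarith
      _ = Real.exp (δ * S.card) * (1 - Real.exp (-(δ * S.card))) := by
        rw [mul_sub, mul_one, ← Real.exp_add, add_neg_cancel, Real.exp_zero]
      _ ≤ _ := mul_le_mul_of_nonneg_right h5 h6
  nlinarith [sq_nonneg (coef u S)]

/-! ### swaps -/

/-- energy of one swap -/
lemma swap_energy_le [Countable I] (u : (I → Bool) → ℝ) (hu : BM u) (a b : I) (hab : a ≠ b) :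
    ∫ y, u y ^ 2 ∂fair I - ∫ y, u y * u (swc s(a, b) y) ∂fair I ≤ infl u a + infl u b := by
  have hs : BM fun y => u (swc s(a, b) y) := hu.comp (measurable_swc _)
  have hfa : BM fun y => u (flip a y) := hu.comp (measurable_flip a)
  have hfb : BM fun y => u (flip b y) := hu.comp (measurable_flip b)
  have hfba : BM fun y => u (flip b (flip a y)) := hfb.comp (measurable_flip a)
  have h1 : 2 * (∫ y, u y ^ 2 ∂fair I - ∫ y, u y * u (swc s(a, b) y) ∂fair I) =
      ∫ y, (u y - u (swc s(a, b) y)) ^ 2 ∂fair I := by
    have h2 : ∫ y, u (swc s(a, b) y) ^ 2 ∂fair I = ∫ y, u y ^ 2 ∂fair I :=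
      integral_comp_swc _ (fun y => u y ^ 2) hu.sq
    have h3 : ∫ y, (u y - u (swc s(a, b) y)) ^ 2 ∂fair I = ∫ y, u y ^ 2 ∂fair I
        - 2 * ∫ y, u y * u (swc s(a, b) y) ∂fair I + ∫ y, u (swc s(a, b) y) ^ 2 ∂fair I := by
      rw [← integral_const_mul, ← BM.int_sub _ hu.sq ((hu.mul hs).smul 2),
        ← BM.int_add _ (hu.sq.sub ((hu.mul hs).smul 2)) hs.sq]
      congr 1; ext y; ring
    rw [h3, h2]; ring
  have h4 : ∀ y, (u y - u (swc s(a, b) y)) ^ 2 ≤
      2 * ((u y - u (flip a y)) ^ 2 + (u (flip a y) - u (flip b (flip a y))) ^ 2) := by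
    intro y
    by_cases h : y a = y b
    · have : swc s(a, b) y = y := by
        ext x
        unfold swc
        rw [sw_mk]
        by_cases hxa : x = a
        · subst hxa; rw [Equiv.swap_apply_left, h]
        · by_cases hxb : x = b
          · subst hxb; rw [Equiv.swap_apply_right, h]
          · rw [Equiv.swap_apply_of_ne_of_ne hxa hxb]
      rw [this, sub_self]
      nlinarith [sq_nonneg (u y - u (flip a y)), sq_nonneg (u (flip a y) - u (flip b (flip a y)))]
    · have h' : y b = !y a := by
        rcases h1 : y a with _ | _ <;> rcases h2 : y b with _ | _ <;> simp_all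
      have : swc s(a, b) y = flip b (flip a y) := by
        ext x
        unfold swc flip
        rw [sw_mk]
        by_cases hxb : x = b
        · subst hxb
          rw [Equiv.swap_apply_right, Function.update_self, Function.update_of_ne hab.symm, h',
            Bool.not_not]
        · rw [Function.update_of_ne hxb]
          by_cases hxa : x = a
          · subst hxa; rw [Equiv.swap_apply_left, Function.update_self, h']
          · rw [Equiv.swap_apply_of_ne_of_ne hxa hxb, Function.update_of_ne hxa]
      rw [this]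
      nlinarith [sq_nonneg ((u y - u (flip a y)) - (u (flip a y) - u (flip b (flip a y))))]
  have b1 : BM fun y => (u y - u (flip a y)) ^ 2 := (hu.sub hfa).sq
  have b2 : BM fun y => (u (flip a y) - u (flip b (flip a y))) ^ 2 := (hfa.sub hfba).sq
  have h5 : ∫ y, (u y - u (swc s(a, b) y)) ^ 2 ∂fair I ≤ 2 * (infl u a + infl u b) := by
    calc ∫ y, (u y - u (swc s(a, b) y)) ^ 2 ∂fair I
        ≤ ∫ y, 2 * ((u y - u (flip a y)) ^ 2 + (u (flip a y) - u (flip b (flip a y))) ^ 2) ∂fair I :=
          integral_mono (((hu.sub hs).sq).integrable _) (((b1.add b2).smul 2).integrable _) h4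
      _ = 2 * (infl u a + infl u b) := by
          rw [integral_const_mul, BM.int_add _ b1 b2]
          congr 2
          exact integral_comp_flip a (fun y => (u y - u (flip b y)) ^ 2) (hu.sub hfb).sq
  linarith

/-- comparison of the energy of the exclusion process with the total influence -/
lemma excl_energy_le [Countable I] {K : SwapKernel I} {M : ℝ≥0}
    (hM : ∀ x, ∑' y, (K.P x y : ℝ≥0∞) ≤ M) (u : (I → Bool) → ℝ) (hu : BM u)
    (F : Finset I) (hdep : DependsOn u (F : Set I)) :
    ∑' e, (K.rate e : ℝ) * (∫ y, u y ^ 2 ∂fair I - ∫ y, u y * u (swc e y) ∂fair I) ≤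
      M * ∑ x ∈ F, infl u x := by
  classical
  have hterm : ∀ e, (K.rate e : ℝ) * (∫ y, u y ^ 2 ∂fair I - ∫ y, u y * u (swc e y) ∂fair I) ≤
      ∑ x ∈ F, (if x ∈ e then (K.rate e : ℝ) else 0) * infl u x := by
    intro e
    induction e using Sym2.ind with
    | _ a b =>
      by_cases hab : a = b
      · subst hab
        have : K.rate s(a, a) = 0 := by unfold SwapKernel.rate; simp
        rw [this]
        simp
      · have h1 := swap_energy_le u hu a b hab
        have h2 : infl u a + infl u b ≤ ∑ x ∈ F, (if x ∈ s(a, b) then 1 else 0) * infl u x := by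
          have hsub : infl u a + infl u b = ∑ x ∈ ({a, b} : Finset I), infl u x := by
            rw [Finset.sum_pair hab]
          have h3 : ∑ x ∈ ({a, b} : Finset I), infl u x = ∑ x ∈ ({a, b} : Finset I) ∩ F, infl u x := by
            symm
            apply Finset.sum_subset Finset.inter_subset_left
            intro x hx hx'
            apply infl_eq_zero u F hdep x
            intro hxF
            exact hx' (Finset.mem_inter.2 ⟨hx, hxF⟩)
          rw [hsub, h3]
          have h4 : ∀ x ∈ F, (if x ∈ s(a, b) then (1:ℝ) else 0) * infl u x =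
              if x ∈ ({a, b} : Finset I) then infl u x else 0 := by
            intro x _
            have : x ∈ s(a, b) ↔ x ∈ ({a, b} : Finset I) := by
              rw [Sym2.mem_iff]; simp
            by_cases hx : x ∈ s(a, b)
            · rw [if_pos hx, if_pos (this.1 hx), one_mul]
            · rw [if_neg hx, if_neg (fun h => hx (this.2 h)), zero_mul]
          rw [Finset.sum_congr rfl h4, Finset.sum_ite_mem, Finset.inter_comm]
        calc (K.rate s(a, b) : ℝ) * (∫ y, u y ^ 2 ∂fair I - ∫ y, u y * u (swc s(a, b) y) ∂fair I)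
            ≤ (K.rate s(a, b) : ℝ) * ∑ x ∈ F, (if x ∈ s(a, b) then 1 else 0) * infl u x := by
              gcongr; exact h1.trans h2
          _ = _ := by
              rw [Finset.mul_sum]
              refine Finset.sum_congr rfl fun x _ => ?_
              split_ifs <;> ring
  have hsx : ∀ x : I, Summable fun e : Sym2 I => (if x ∈ e then (K.rate e : ℝ) else 0) := by
    intro x
    have h1 : ∑' e : Sym2 I, (if x ∈ e then (K.rate e : ℝ≥0∞) else 0) ≠ ∞ := by
      refine ne_top_of_le_ne_top (b := (M : ℝ≥0∞)) (by finiteness) ?_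
      exact (tsum_congr fun e => by split_ifs <;> rfl).trans_le (tsum_mem hM x)
    have h2 := ENNReal.summable_toReal h1
    refine h2.congr fun e => ?_
    split_ifs <;> simp
  have hsxle : ∀ x : I, ∑' e : Sym2 I, (if x ∈ e then (K.rate e : ℝ) else 0) ≤ M := by
    intro x
    have h1 : ∑' e : Sym2 I, (if x ∈ e then (K.rate e : ℝ≥0∞) else 0) ≤ (M : ℝ≥0∞) :=
      (tsum_congr fun e => by split_ifs <;> rfl).trans_le (tsum_mem hM x)
    have h2 := ENNReal.toReal_mono (by finiteness) h1
    rw [ENNReal.tsum_toReal_eq (fun e => by split_ifs <;> simp), ENNReal.coe_toReal] at h2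
    refine le_trans (le_of_eq ?_) h2
    congr 1; ext e; split_ifs <;> simp
  have hS : Summable fun e => ∑ x ∈ F, (if x ∈ e then (K.rate e : ℝ) else 0) * infl u x :=
    summable_sum fun x _ => (hsx x).mul_right _
  have hnn : ∀ e, 0 ≤ (K.rate e : ℝ) * (∫ y, u y ^ 2 ∂fair I - ∫ y, u y * u (swc e y) ∂fair I) := by
    intro e
    apply mul_nonneg (NNReal.coe_nonneg _)
    have hs : BM fun y => u (swc e y) := hu.comp (measurable_swc _)
    have h2 : ∫ y, u (swc e y) ^ 2 ∂fair I = ∫ y, u y ^ 2 ∂fair I :=
      integral_comp_swc _ (fun y => u y ^ 2) hu.sq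
    have h3 : ∫ y, (u y - u (swc e y)) ^ 2 ∂fair I = ∫ y, u y ^ 2 ∂fair I
        - 2 * ∫ y, u y * u (swc e y) ∂fair I + ∫ y, u (swc e y) ^ 2 ∂fair I := by
      rw [← integral_const_mul, ← BM.int_sub _ hu.sq ((hu.mul hs).smul 2),
        ← BM.int_add _ (hu.sq.sub ((hu.mul hs).smul 2)) hs.sq]
      congr 1; ext y; ring
    have h4 : 0 ≤ ∫ y, (u y - u (swc e y)) ^ 2 ∂fair I := integral_nonneg fun _ => sq_nonneg _
    rw [h3, h2] at h4
    linarith
  calc ∑' e, (K.rate e : ℝ) * (∫ y, u y ^ 2 ∂fair I - ∫ y, u y * u (swc e y) ∂fair I)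
      ≤ ∑' e, ∑ x ∈ F, (if x ∈ e then (K.rate e : ℝ) else 0) * infl u x :=
        (Summable.of_nonneg_of_le hnn hterm hS).tsum_le_tsum hterm hS
    _ = ∑ x ∈ F, (∑' e : Sym2 I, (if x ∈ e then (K.rate e : ℝ) else 0)) * infl u x := by
        rw [Summable.tsum_finsetSum fun x _ => (hsx x).mul_right _]
        refine Finset.sum_congr rfl fun x _ => by rw [tsum_mul_right]
    _ ≤ ∑ x ∈ F, (M : ℝ) * infl u x := by
        refine Finset.sum_le_sum fun x _ => ?_
        exact mul_le_mul_of_nonneg_right (hsxle x) (infl_nonneg u x)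
    _ = _ := by rw [Finset.mul_sum]

end Pool.Agent.H.MP_20d613_pr
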