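import Pool.Agent.H.MP_20d613_pr.Compact
import Pool.Agent.H.MP_20d613_pr.Cap

open MeasureTheory ProbabilityTheory Filter Topology Set TopologicalSpace
open scoped ENNReal NNReal

set_option linter.unusedSectionVars false
set_option linter.style.haveILetI false

namespace Pool.Agent.H.MP_20d613_pr

section rc
variable {I Ω : Type*} {mΩ : MeasurableSpace Ω} {K : SwapKernel I} {μ : Measure Ω}
  {𝓕 : Filtration ℝ≥0 mΩ} {N : Sym2 I → ℝ≥0 → Ω → ℕ} {Y : ℝ≥0 → Ω → I → Bool}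
  {M : ℝ≥0} [Countable I] [IsProbabilityMeasure μ]

lemma ExclData.finite_rings (hD : ExclData K μ 𝓕 N Y)
    (hM : ∀ x, ∑' y, (K.P x y : ℝ≥0∞) ≤ M) (T : ℕ) :
    ∀ᵐ ω ∂μ, ∀ x, {y | Dn N 0 T s(x, y) ω ≠ 0}.Finite := by
  rw [ae_all_iff]
  intro x
  have h1 : ∑' y, μ {ω | Dn N 0 T s(x, y) ω ≠ 0} ≠ ∞ := by
    refine ne_top_of_le_ne_top (b := (M : ℝ≥0∞) * T) (by finiteness) ?_
    calc ∑' y, μ {ω | Dn N 0 T s(x, y) ω ≠ 0} ≤ ∑' y, (K.P x y : ℝ≥0∞) * T := by
          refine ENNReal.tsum_le_tsum fun y => ?_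
          refine (hD.prob_R_le 0 T zero_le s(x, y)).trans ?_
          rw [tsub_zero, ENNReal.coe_mul]
          gcongr
          · exact_mod_cast rate_le K x y
          · simp
      _ = (∑' y, (K.P x y : ℝ≥0∞)) * T := ENNReal.tsum_mul_right
      _ ≤ M * T := by gcongr; exact hM x
  exact ae_finite_setOfPred_mem h1

/-- right continuity of the exclusion dynamics -/
lemma ExclData.right_cont (hD : ExclData K μ 𝓕 N Y)
    (hM : ∀ x, ∑' y, (K.P x y : ℝ≥0∞) ≤ M) :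
    ∀ᵐ ω ∂μ, ∀ t x, ∀ᶠ s in 𝓝[>] t, Y s ω x = Y t ω x := by
  have hfin : ∀ᵐ ω ∂μ, ∀ T : ℕ, ∀ x, {y | Dn N 0 T s(x, y) ω ≠ 0}.Finite :=
    ae_all_iff.2 fun T => hD.finite_rings hM T
  filter_upwards [hD.good, hfin] with ω hg hf t x
  obtain ⟨T, hT⟩ := exists_nat_gt t
  have h1 : ∀ᶠ s in 𝓝[>] t, ∀ y ∈ {y | Dn N 0 T s(x, y) ω ≠ 0}, N s(x, y) s ω = N s(x, y) t ω :=
    (eventually_all_finite (hf T x)).2 fun y _ => hg.rc s(x, y) t
  have h2 : ∀ᶠ s in 𝓝[>] t, s < (T : ℝ≥0) := eventually_nhdsWithin_of_eventually_nhds (gt_mem_nhds hT)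
  filter_upwards [h1, h2, self_mem_nhdsWithin] with s hs1 hs2 hs3
  have hts : t < s := hs3
  apply hg.stay x t s hts.le
  intro y
  by_cases hy : Dn N 0 T s(x, y) ω ≠ 0
  · exact (hs1 y hy).symm
  · push Not at hy
    have h3 : N s(x, y) 0 ω ≤ N s(x, y) t ω := hg.mono _ zero_le
    have h4 : N s(x, y) t ω ≤ N s(x, y) s ω := hg.mono _ hts.le
    have h5 : N s(x, y) s ω ≤ N s(x, y) T ω := hg.mono _ hs2.le
    unfold Dn at hy
    omega

lemma exists_dyadic (s t : ℝ≥0) (hst : s < t) :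
    ∃ k j : ℕ, s < j * (2⁻¹ : ℝ≥0) ^ k ∧ j * (2⁻¹ : ℝ≥0) ^ k < t := by
  have hts : (0:ℝ≥0) < t - s := tsub_pos_of_lt hst
  obtain ⟨k, hk⟩ := exists_pow_lt_of_lt_one hts (show (2⁻¹ : ℝ≥0) < 1 by
    rw [inv_lt_one₀ (by norm_num)]; norm_num)
  set δ : ℝ≥0 := (2⁻¹ : ℝ≥0) ^ k with hδ
  have hδ0 : 0 < δ := by rw [hδ]; positivity
  refine ⟨k, ⌊s / δ⌋₊ + 1, ?_, ?_⟩
  · rw [← hδ, ← div_lt_iff₀ hδ0]
    push_cast
    exact Nat.lt_floor_add_one _
  · rw [← hδ]
    push_cast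
    rw [add_mul, one_mul]
    have h1 : (⌊s / δ⌋₊ : ℝ≥0) * δ ≤ s := by
      rw [← le_div_iff₀ hδ0]
      exact Nat.floor_le zero_le
    calc (⌊s / δ⌋₊ : ℝ≥0) * δ + δ ≤ s + δ := by gcongr
      _ < t := by rw [add_comm]; exact lt_tsub_iff_right.1 hk

end rc

section main
variable {I Ω Ω' : Type*} {mΩ : MeasurableSpace Ω} {mΩ' : MeasurableSpace Ω'} {K : SwapKernel I}
  {μ : Measure Ω} {μ' : Measure Ω'}
  {𝓕 : Filtration ℝ≥0 mΩ} {N : Sym2 I → ℝ≥0 → Ω → ℕ} {Y : ℝ≥0 → Ω → I → Bool}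
  {𝓕' : Filtration ℝ≥0 mΩ'} {N' : I → ℝ≥0 → Ω' → ℕ} {β : I × ℕ → Ω' → Bool}
  {M : ℝ≥0} [Countable I] [IsProbabilityMeasure μ] [IsProbabilityMeasure μ']

theorem no_hit_closed (hD : ExclData K μ 𝓕 N Y) (hM : ∀ x, ∑' y, (K.P x y : ℝ≥0∞) ≤ M)
    (h0 : μ.map (Y 0) = fair I) (hX : DynData μ' 𝓕' N' β)
    (C : Set (I → Bool)) (hC : IsClosed C)
    (hnull : μ' {ω | ∃ t, cfg N' β t ω ∈ C} = 0) : μ {ω | ∃ t, Y t ω ∈ C} = 0 := by
  classical
  have hC0 : fair I C = 0 := by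
    rw [← hX.law_cfg 0, Measure.map_apply (hX.measurable_cfg 0) hC.measurableSet]
    exact measure_mono_null (t := {ω | ∃ t, cfg N' β t ω ∈ C}) (fun ω hω => ⟨0, hω⟩) hnull
  obtain ⟨F, hF, hFu⟩ := exists_exhaustion (I := I)
  have hanti : Antitone fun m => cyl C (F m) := fun m m' h => cyl_anti C (hF h)
  set E : ℕ → ℕ → Set Ω := fun T m => ⋃ k, hits Y (cyl C (F m)) T k with hE
  have hM0 : (0:ℝ) ≤ M := M.2
  -- the probability to hit all the cylinders vanishes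
  have key : ∀ T : ℕ, μ.real (⋂ m, E T m) = 0 := by
    intro T
    have h1 : ∀ T' m : ℕ, Real.exp (-(2 * T)) * μ.real (⋂ m, E T m) ≤
        (4 * M * Real.exp 1 + 1) * μ'.real (⋃ k, hits (cfg N' β) (cyl C (F m)) T' k) +
        (4 * M * Real.exp 1 + 3) * Real.exp (-T') := by
      intro T' m
      refine le_trans ?_ (cyl_bound hD hM h0 hX (F m) (cyl C (F m)) (measurableSet_cyl C (F m))
        (cyl_dependsOn C (F m)) T T')
      exact mul_le_mul_of_nonneg_left (measureReal_mono (iInter_subset _ m)) (Real.exp_pos _).le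
    have h2 : ∀ T' : ℕ, Real.exp (-(2 * T)) * μ.real (⋂ m, E T m) ≤
        (4 * M * Real.exp 1 + 3) * Real.exp (-T') := by
      intro T'
      have h3 := ((hX.hits_null C hC F hF hFu hC0 hnull T').const_mul
        (4 * M * Real.exp 1 + 1)).add_const ((4 * M * Real.exp 1 + 3) * Real.exp (-T'))
      rw [mul_zero, zero_add] at h3
      exact ge_of_tendsto' h3 (h1 T')
    have h4 : Tendsto (fun T' : ℕ => (4 * M * Real.exp 1 + 3) * Real.exp (-(T' : ℝ))) atTop (𝓝 0) := by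
      have h5 : Tendsto (fun T' : ℕ => Real.exp (-(T' : ℝ))) atTop (𝓝 0) :=
        Real.tendsto_exp_neg_atTop_nhds_zero.comp tendsto_natCast_atTop_atTop
      simpa using h5.const_mul (4 * M * Real.exp 1 + 3)
    have h6 : Real.exp (-(2 * T)) * μ.real (⋂ m, E T m) ≤ 0 := ge_of_tendsto' h4 h2
    have h7 : 0 ≤ μ.real (⋂ m, E T m) := measureReal_nonneg
    have h8 : 0 < Real.exp (-(2 * (T:ℝ))) := Real.exp_pos _
    nlinarith
  have key2 : ∀ T : ℕ, μ (⋂ m, E T m) = 0 := by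
    intro T
    have := key T
    rwa [measureReal_def, ENNReal.toReal_eq_zero_iff, or_iff_left (measure_ne_top _ _)] at this
  have hsub : ({ω | ∃ t, Y t ω ∈ C} : Set Ω) ≤ᵐ[μ] (⋃ T : ℕ, ⋂ m, E T m : Set Ω) := by
    filter_upwards [hD.right_cont hM] with ω hrc hω
    obtain ⟨t, ht⟩ := hω
    obtain ⟨T, hT⟩ := exists_nat_gt t
    show ω ∈ ⋃ T : ℕ, ⋂ m, E T m
    rw [mem_iUnion]
    refine ⟨T, ?_⟩
    rw [mem_iInter]
    intro m
    have h1 : ∀ᶠ s in 𝓝[>] t, ∀ x ∈ F m, Y s ω x = Y t ω x := by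
      rw [eventually_all_finset]
      exact fun x _ => hrc t x
    obtain ⟨u, htu, hu⟩ := (mem_nhdsGT_iff_exists_Ioo_subset (a := t)).1 h1
    have htu' : t < min u T := lt_min htu hT
    obtain ⟨k, j, hj1, hj2⟩ := exists_dyadic t _ htu'
    have h2 : ∀ x ∈ F m, Y (j * (2⁻¹ : ℝ≥0) ^ k) ω x = Y t ω x :=
      hu ⟨hj1, lt_of_lt_of_le hj2 (min_le_left _ _)⟩
    simp only [hE, mem_iUnion]
    refine ⟨k, j, ?_, cyl_mem_congr C (F m) (fun x hx => (h2 x hx).symm) (subset_cyl C (F m) ht)⟩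
    have h3 : (j : ℝ≥0) * (2⁻¹ : ℝ≥0) ^ k < T := lt_of_lt_of_le hj2 (min_le_right _ _)
    have h4 : (j : ℝ≥0) < T * 2 ^ k := by
      have h5 : (2⁻¹ : ℝ≥0) ^ k * 2 ^ k = 1 := by rw [← mul_pow]; norm_num
      calc (j : ℝ≥0) = j * (2⁻¹ : ℝ≥0) ^ k * 2 ^ k := by rw [mul_assoc, h5, mul_one]
        _ < T * 2 ^ k := mul_lt_mul_of_pos_right h3 (by positivity)
    exact_mod_cast h4.le
  refine le_antisymm ((measure_mono_ae hsub).trans ?_) zero_le
  refine (measure_iUnion_le _).trans ?_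
  simp [key2]

/-- grid time -/
noncomputable def gt (p : ℕ × ℕ) : ℝ≥0 := p.2 * (2⁻¹ : ℝ≥0) ^ p.1

theorem no_hit_borel (hD : ExclData K μ 𝓕 N Y) (hM : ∀ x, ∑' y, (K.P x y : ℝ≥0∞) ≤ M)
    (h0 : μ.map (Y 0) = fair I) (hX : DynData μ' 𝓕' N' β)
    (A : Set (I → Bool)) (hA : MeasurableSet A)
    (hnull : μ' {ω | ∃ t, cfg N' β t ω ∈ A} = 0) : μ {ω | ∃ t, Y t ω ∈ A} = 0 := by
  classical
  by_contra hcon
  have hY := hD.measurable_Y
  set PI : Ω → (ℕ × ℕ → (I → Bool)) := fun ω p => Y (gt p) ω with hPI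
  have hPIm : Measurable PI := measurable_pi_lambda _ fun p => hY _
  set B : Set ((ℕ × ℕ → (I → Bool)) × ℝ≥0 × (I → Bool)) :=
    {z | z.2.2 ∈ A ∧ ∀ x, ∃ n : ℕ, ∀ p : ℕ × ℕ, z.2.1 < gt p → gt p < z.2.1 + 1 / (n + 1) →
      z.1 p x = z.2.2 x} with hB
  have hBm : MeasurableSet B := by
    have h1 : B = {z | z.2.2 ∈ A} ∩ ⋂ x, ⋃ n : ℕ, ⋂ p : ℕ × ℕ,
        ({z : (ℕ × ℕ → (I → Bool)) × ℝ≥0 × (I → Bool) | z.2.1 < gt p}ᶜ ∪
          ({z | gt p < z.2.1 + 1 / (n + 1)}ᶜ ∪ {z | z.1 p x = z.2.2 x})) := by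
      ext z
      simp only [hB, mem_ofPred_eq, mem_inter_iff, mem_iInter, mem_iUnion, mem_union,
        mem_compl_iff]
      refine and_congr_right fun _ => forall_congr' fun x => exists_congr fun n =>
        forall_congr' fun p => ?_
      tauto
    rw [h1]
    have m2 : Measurable fun z : (ℕ × ℕ → (I → Bool)) × ℝ≥0 × (I → Bool) => z.2.2 :=
      measurable_snd.comp measurable_snd
    have m1 : Measurable fun z : (ℕ × ℕ → (I → Bool)) × ℝ≥0 × (I → Bool) => z.2.1 :=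
      measurable_fst.comp measurable_snd
    refine (m2 hA).inter (MeasurableSet.iInter fun x => MeasurableSet.iUnion fun n =>
      MeasurableSet.iInter fun p => ?_)
    refine (measurableSet_lt m1 measurable_const).compl.union
      ((measurableSet_lt measurable_const (m1.add_const _)).compl.union ?_)
    refine measurableSet_eq_fun ?_ ?_
    · exact (measurable_pi_apply x).comp ((measurable_pi_apply p).comp measurable_fst)
    · exact (measurable_pi_apply x).comp m2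
  haveI : PolishSpace ((ℕ × ℕ → (I → Bool)) × ℝ≥0 × (I → Bool)) :=
    { (inferInstance : SecondCountableTopology ((ℕ × ℕ → (I → Bool)) × ℝ≥0 × (I → Bool))),
      (inferInstance :
        IsCompletelyMetrizableSpace ((ℕ × ℕ → (I → Bool)) × ℝ≥0 × (I → Bool))) with }
  have hsub : ({ω | ∃ t, Y t ω ∈ A} : Set Ω) ≤ᵐ[μ] (PI ⁻¹' (Prod.fst '' B) : Set Ω) := by
    filter_upwards [hD.right_cont hM] with ω hrc hω
    obtain ⟨t, ht⟩ := hω
    refine ⟨(PI ω, t, Y t ω), ⟨ht, fun x => ?_⟩, rfl⟩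
    obtain ⟨u, htu, hu⟩ := (mem_nhdsGT_iff_exists_Ioo_subset (a := t)).1 (hrc t x)
    have htu' : (0:ℝ≥0) < u - t := tsub_pos_of_lt htu
    obtain ⟨n, hn⟩ := exists_nat_one_div_lt htu'
    refine ⟨n, fun p hp1 hp2 => ?_⟩
    have h1 : gt p < u := by
      refine hp2.trans_le ?_
      show t + 1 / ((n : ℝ≥0) + 1) ≤ u
      rw [add_comm]
      exact (lt_tsub_iff_right.1 hn).le
    exact hu ⟨hp1, h1⟩
  have han := hBm.analyticSet
  rw [AnalyticSet_def] at han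
  rcases han with hempty | ⟨f, hf, hfr⟩
  · rw [hempty, image_empty, preimage_empty] at hsub
    exact hcon (le_antisymm ((measure_mono_ae hsub).trans (by simp)) zero_le)
  · set ν := μ.map PI with hν
    haveI : IsProbabilityMeasure ν := Measure.isProbabilityMeasure_map hPIm.aemeasurable
    have hr : range (fun w => (f w).1) = Prod.fst '' B := by
      rw [← hfr, ← range_comp]; rfl
    have hpos : ν (range fun w => (f w).1) ≠ 0 := by
      intro h
      apply hcon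
      refine le_antisymm ((measure_mono_ae hsub).trans ?_) zero_le
      rw [← h, hr]
      exact Measure.le_map_apply hPIm.aemeasurable _
    obtain ⟨C, hCc, hC⟩ := exists_isCompact_measure_image_pos ν (fun w => (f w).1)
      (continuous_fst.comp hf) hpos
    set L : Set (I → Bool) := (fun w => (f w).2.2) '' C with hL
    have hLc : IsCompact L := hCc.image (continuous_snd.comp (continuous_snd.comp hf))
    have hLA : L ⊆ A := by
      rintro _ ⟨w, _, rfl⟩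
      have : f w ∈ B := by rw [← hfr]; exact mem_range_self w
      exact this.1
    have hLn : μ {ω | ∃ t, Y t ω ∈ L} = 0 :=
      no_hit_closed hD hM h0 hX L hLc.isClosed
        (measure_mono_null (t := {ω | ∃ t, cfg N' β t ω ∈ A})
          (by rintro ω ⟨t, ht⟩; exact ⟨t, hLA ht⟩) hnull)
    apply hC
    have hm : MeasurableSet ((fun w => (f w).1) '' C) :=
      (hCc.image (continuous_fst.comp hf)).isClosed.measurableSet
    rw [hν, Measure.map_apply hPIm hm]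
    have hsub2 : (PI ⁻¹' ((fun w => (f w).1) '' C) : Set Ω) ≤ᵐ[μ] ({ω | ∃ t, Y t ω ∈ L} : Set Ω) := by
      filter_upwards [hD.right_cont hM] with ω hrc hω
      obtain ⟨w, hw, hwe⟩ := hω
      have hwB : f w ∈ B := by rw [← hfr]; exact mem_range_self w
      refine ⟨(f w).2.1, ?_⟩
      have : Y (f w).2.1 ω = (f w).2.2 := by
        ext x
        obtain ⟨n, hn⟩ := hwB.2 x
        obtain ⟨u, htu, hu⟩ := (mem_nhdsGT_iff_exists_Ioo_subset (a := (f w).2.1)).1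
          (hrc (f w).2.1 x)
        have hlt : (f w).2.1 < min u ((f w).2.1 + 1 / (n + 1)) :=
          lt_min htu (lt_add_of_pos_right _ (by positivity))
        obtain ⟨k, j, hj1, hj2⟩ := exists_dyadic _ _ hlt
        have h1 := hn (k, j) hj1 (lt_of_lt_of_le hj2 (min_le_right _ _))
        have h2 : Y (j * (2⁻¹ : ℝ≥0) ^ k) ω x = Y (f w).2.1 ω x :=
          hu ⟨hj1, lt_of_lt_of_le hj2 (min_le_left _ _)⟩
        rw [← h2, ← h1]
        have h3 : (f w).1 = PI ω := hwe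
        rw [h3]
        rfl
      rw [this]
      exact ⟨w, hw, rfl⟩
    exact le_antisymm ((measure_mono_ae hsub2).trans hLn.le) zero_le

end main

/-- **Main theorem.**  Exceptional times for the exclusion dynamics imply exceptional times for
ordinary dynamical percolation. -/
theorem exceptional_of_exclusion {I : Type*} [Countable I] (K : SwapKernel I)
    (A : Set (I → Bool)) (hA : MeasurableSet A)
    {Ω : Type*} {mΩ : MeasurableSpace Ω} (μ : Measure Ω) [IsProbabilityMeasure μ]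
    (Y : ℝ≥0 → Ω → I → Bool) (hY : IsExclusion K μ Y)
    {Ω' : Type*} {mΩ' : MeasurableSpace Ω'} (μ' : Measure Ω') [IsProbabilityMeasure μ']
    (X : ℝ≥0 → Ω' → I → Bool) (hX : IsDynPerc μ' X)
    (h : HasExceptionalTimes μ Y A) : HasExceptionalTimes μ' X A := by
  obtain ⟨M, hM⟩ := K.bdd
  obtain ⟨𝓕, N, hN, hadap, h0, hstay, hswap⟩ := hY.exists_clocks
  obtain ⟨𝓕', N', β, hN', hβm, hβl, hβi, hind, hXe⟩ := hX.exists_clocks
  have hE : ExclData K μ 𝓕 N Y :=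
    { clocks := hN
      adapted := hadap
      good := by
        filter_upwards [hN.mono, hN.right_cont, hstay, hswap] with ω h1 h2 h3 h4
        exact ⟨h1, h2, fun x s t hst hz => h3 x s t hst hz, fun x z t ht hr => h4 x z t ht hr⟩ }
  have hDy : DynData μ' 𝓕' N' β := ⟨hN', hβm, hβl, hβi, hind⟩
  by_contra hcon
  unfold HasExceptionalTimes at h hcon
  rw [pos_iff_ne_zero, not_not] at hcon
  rw [pos_iff_ne_zero] at h
  apply h
  apply no_hit_borel hE hM h0 hDy A hA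
  have hsub : ({ω | ∃ t, cfg N' β t ω ∈ A} : Set Ω') ≤ᵐ[μ'] ({ω | ∃ t, X t ω ∈ A} : Set Ω') := by
    filter_upwards [hXe] with ω hω hω'
    obtain ⟨t, ht⟩ := hω'
    refine ⟨t, ?_⟩
    have : X t ω = cfg N' β t ω := funext fun x => hω t x
    rw [this]; exact ht
  exact le_antisymm ((measure_mono_ae hsub).trans hcon.le) zero_le

end Pool.Agent.H.MP_20d613_pr
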