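import Pool.Agent.H.MP_20d613_pr.Compare

open MeasureTheory ProbabilityTheory Filter Topology Set
open scoped ENNReal NNReal

set_option linter.unusedSectionVars false
set_option linter.style.haveILetI false

namespace Pool.Agent.H.MP_20d613_pr

section hits
variable {I Ω : Type*} {mΩ : MeasurableSpace Ω} {μ : Measure Ω}

/-- the dynamics `Z` hits `G` along the grid of mesh `2^{-k}` before time `T` -/
def hits (Z : ℝ≥0 → Ω → I → Bool) (G : Set (I → Bool)) (T k : ℕ) : Set Ω :=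
  {ω | ∃ j : ℕ, j ≤ T * 2 ^ k ∧ Z (j * (2⁻¹ : ℝ≥0) ^ k) ω ∈ G}

lemma measurableSet_hits (Z : ℝ≥0 → Ω → I → Bool) (hZ : ∀ t, Measurable (Z t))
    (G : Set (I → Bool)) (hG : MeasurableSet G) (T k : ℕ) : MeasurableSet (hits Z G T k) := by
  have : hits Z G T k = ⋃ j : ℕ, ⋃ _ : j ≤ T * 2 ^ k, Z (j * (2⁻¹ : ℝ≥0) ^ k) ⁻¹' G := by
    ext ω; simp [hits]
  rw [this]
  exact MeasurableSet.iUnion fun j => MeasurableSet.iUnion fun _ => hZ _ hG

lemma hits_mono (Z : ℝ≥0 → Ω → I → Bool) (G : Set (I → Bool)) (T : ℕ) :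
    Monotone (hits Z G T) := by
  apply monotone_nat_of_le_succ
  rintro k ω ⟨j, hj, hZ⟩
  refine ⟨2 * j, ?_, ?_⟩
  · rw [pow_succ]
    calc 2 * j ≤ 2 * (T * 2 ^ k) := by omega
      _ = _ := by ring
  · have : ((2 * j : ℕ) : ℝ≥0) * (2⁻¹ : ℝ≥0) ^ (k + 1) = j * (2⁻¹ : ℝ≥0) ^ k := by
      push_cast
      rw [pow_succ]
      field_simp
    rw [this]; exact hZ

lemma hits_subset (Z : ℝ≥0 → Ω → I → Bool) {G G' : Set (I → Bool)} (hG : G ⊆ G') (T k : ℕ) :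
    hits Z G T k ⊆ hits Z G' T k := fun _ ⟨j, hj, h⟩ => ⟨j, hj, hG h⟩

lemma one_sub_avo [IsProbabilityMeasure μ] (Z : ℝ≥0 → Ω → I → Bool) (hZ : ∀ t, Measurable (Z t))
    (G : Set (I → Bool)) (hG : MeasurableSet G) (T k : ℕ) :
    1 - avo μ Z (Gᶜ.indicator 1) ((2⁻¹ : ℝ≥0) ^ k) (T * 2 ^ k) = μ.real (hits Z G T k) := by
  have hm := measurableSet_hits Z hZ G hG T k
  have h1 : avo μ Z (Gᶜ.indicator 1) ((2⁻¹ : ℝ≥0) ^ k) (T * 2 ^ k) = μ.real (hits Z G T k)ᶜ := by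
    rw [← integral_indicator_one hm.compl]
    unfold avo
    congr 1; ext ω
    by_cases h : ω ∈ hits Z G T k
    · rw [indicator_of_notMem (by simpa using h)]
      obtain ⟨j, hj, hjG⟩ := h
      apply Finset.prod_eq_zero (i := j) (by rw [Finset.mem_range]; omega)
      rw [indicator_of_notMem (by simpa using hjG)]
    · rw [indicator_of_mem (by simpa using h)]
      apply Finset.prod_eq_one
      intro j hj
      rw [indicator_of_mem]
      · rfl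
      · intro hjG
        exact h ⟨j, by rw [Finset.mem_range] at hj; omega, hjG⟩
  rw [h1, probReal_compl_eq_one_sub hm]; ring

lemma exp_le_one_sub (x : ℝ) (h0 : 0 ≤ x) (h1 : x ≤ 1 / 2) : Real.exp (-(2 * x)) ≤ 1 - x := by
  have h2 := Real.add_one_le_exp (2 * x)
  rw [Real.exp_neg, inv_le_iff_one_le_mul₀ (Real.exp_pos _)]
  nlinarith

end hits

section limit
variable {I Ω Ω' : Type*} {mΩ : MeasurableSpace Ω} {mΩ' : MeasurableSpace Ω'} {K : SwapKernel I}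
  {μ : Measure Ω} {μ' : Measure Ω'}
  {𝓕 : Filtration ℝ≥0 mΩ} {N : Sym2 I → ℝ≥0 → Ω → ℕ} {Y : ℝ≥0 → Ω → I → Bool}
  {𝓕' : Filtration ℝ≥0 mΩ'} {N' : I → ℝ≥0 → Ω' → ℕ} {β : I × ℕ → Ω' → Bool}
  {M : ℝ≥0} [Countable I] [IsProbabilityMeasure μ] [IsProbabilityMeasure μ'] [DecidableEq I]

theorem cyl_bound (hD : ExclData K μ 𝓕 N Y) (hM : ∀ x, ∑' y, (K.P x y : ℝ≥0∞) ≤ M)
    (h0 : μ.map (Y 0) = fair I) (hX : DynData μ' 𝓕' N' β) (F : Finset I)
    (G : Set (I → Bool)) (hG : MeasurableSet G)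
    (hdep : DependsOn (Gᶜ.indicator (1 : (I → Bool) → ℝ)) (F : Set I)) (T T' : ℕ) :
    Real.exp (-(2 * T)) * μ.real (⋃ k, hits Y G T k) ≤
      (4 * M * Real.exp 1 + 1) * μ'.real (⋃ k, hits (cfg N' β) G T' k) +
      (4 * M * Real.exp 1 + 3) * Real.exp (-T') := by
  have hY := hD.measurable_Y
  have hXm := hX.measurable_cfg
  have hM0 : (0:ℝ) ≤ M := M.2
  have hlim : Tendsto (fun k => μ.real (hits Y G T k)) atTop (𝓝 (μ.real (⋃ k, hits Y G T k))) := by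
    have := tendsto_measure_iUnion_atTop (μ := μ) (hits_mono Y G T)
    exact (ENNReal.tendsto_toReal (measure_ne_top _ _)).comp this
  have hlim2 : Tendsto (fun k : ℕ => (4 * M * Real.exp 1 + 1) * μ'.real (⋃ k, hits (cfg N' β) G T' k) +
      (4 * M * Real.exp 1 + 3) * Real.exp (-T') + Cst M F.card * ((2⁻¹ : ℝ)) ^ k) atTop
      (𝓝 ((4 * M * Real.exp 1 + 1) * μ'.real (⋃ k, hits (cfg N' β) G T' k) +
      (4 * M * Real.exp 1 + 3) * Real.exp (-T') + Cst M F.card * 0)) := by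
    apply Tendsto.add tendsto_const_nhds
    apply Tendsto.const_mul
    exact tendsto_pow_atTop_nhds_zero_of_lt_one (by norm_num) (by norm_num)
  rw [mul_zero, add_zero] at hlim2
  refine le_of_tendsto_of_tendsto (hlim.const_mul _) hlim2 ?_
  have hsmall : ∀ᶠ k : ℕ in atTop, ((2⁻¹ : ℝ)) ^ k * F.card ≤ 1 := by
    have h1 : Tendsto (fun k : ℕ => ((2⁻¹ : ℝ)) ^ k * F.card) atTop (𝓝 (0 * F.card)) :=
      (tendsto_pow_atTop_nhds_zero_of_lt_one (by norm_num) (by norm_num)).mul_const _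
    rw [zero_mul] at h1
    exact (h1.eventually (gt_mem_nhds zero_lt_one)).mono fun k hk => hk.le
  filter_upwards [hsmall, eventually_ge_atTop 1] with k hk hk1
  set δ : ℝ≥0 := (2⁻¹ : ℝ≥0) ^ k with hδ
  have hδc : (δ : ℝ) = (2⁻¹ : ℝ) ^ k := by rw [hδ]; push_cast; rfl
  have hδ0 : 0 < δ := by rw [hδ]; positivity
  have hδhalf : (δ : ℝ) ≤ 1 / 2 := by
    rw [hδc]
    calc (2⁻¹ : ℝ) ^ k ≤ (2⁻¹ : ℝ) ^ 1 :=
          pow_le_pow_of_le_one (by norm_num) (by norm_num) hk1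
      _ = 1 / 2 := by norm_num
  have hδ1 : δ ≤ 1 := by
    have : (δ : ℝ) ≤ 1 := by linarith
    exact_mod_cast this
  have hδ2 : (δ : ℝ) * 2 ^ k = 1 := by
    rw [hδc, ← mul_pow]; norm_num
  have hmain := compare hD hM h0 hX F (Gᶜ.indicator 1) (measurable_one.indicator hG.compl)
    (fun x => by
      by_cases hx : x ∈ Gᶜ
      · right; rw [indicator_of_mem hx]; rfl
      · left; rw [indicator_of_notMem hx]) hdep δ hδ0 hδ1
    (by rw [hδc]; exact hk) (T * 2 ^ k) (T' * 2 ^ k)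
  rw [hδ, one_sub_avo Y hY G hG, one_sub_avo (cfg N' β) hXm G hG, ← hδ] at hmain
  have hp : Real.exp (-(2 * T)) ≤ (1 - (δ:ℝ)) ^ (T * 2 ^ k) := by
    have h1 := exp_le_one_sub δ δ.2 hδhalf
    have h2 := pow_le_pow_left₀ (Real.exp_pos _).le h1 (T * 2 ^ k)
    rw [← Real.exp_nat_mul] at h2
    refine le_trans (le_of_eq ?_) h2
    congr 1
    push_cast
    have : (T : ℝ) * 2 ^ k * -(2 * (δ:ℝ)) = -(2 * T) * (δ * 2 ^ k) := by ring
    rw [this, hδ2, mul_one]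
  have hq : (1 - (δ:ℝ)) ^ (T' * 2 ^ k) ≤ Real.exp (-T') := by
    have h1 := Real.add_one_le_exp (-(δ:ℝ))
    have h2 := pow_le_pow_left₀ (show (0:ℝ) ≤ 1 - δ by linarith)
      (show 1 - (δ:ℝ) ≤ Real.exp (-δ) by linarith) (T' * 2 ^ k)
    rw [← Real.exp_nat_mul] at h2
    refine h2.trans (le_of_eq ?_)
    congr 1
    push_cast
    have : (T' : ℝ) * 2 ^ k * -(δ:ℝ) = -T' * (δ * 2 ^ k) := by ring
    rw [this, hδ2, mul_one]
  have hr : μ'.real (hits (cfg N' β) G T' k) ≤ μ'.real (⋃ k, hits (cfg N' β) G T' k) :=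
    measureReal_mono (subset_iUnion _ k)
  have hnn : 0 ≤ μ.real (hits Y G T k) := measureReal_nonneg
  rw [← hδc]
  have e1 : 0 ≤ 4 * (M:ℝ) * Real.exp 1 := by positivity
  calc Real.exp (-(2 * T)) * μ.real (hits Y G T k)
      ≤ (1 - (δ:ℝ)) ^ (T * 2 ^ k) * μ.real (hits Y G T k) := mul_le_mul_of_nonneg_right hp hnn
    _ ≤ _ := hmain
    _ ≤ _ := by
      have e2 := mul_le_mul_of_nonneg_left hr (show 0 ≤ 4 * (M:ℝ) * Real.exp 1 + 1 by linarith)
      have e3 := mul_le_mul_of_nonneg_left hq (show 0 ≤ 4 * (M:ℝ) * Real.exp 1 + 3 by linarith)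
      linarith

end limit

end Pool.Agent.H.MP_20d613_pr
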