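import Pool.Agent.H.MP_20d613_pr.Defs

open MeasureTheory ProbabilityTheory Filter Topology Set
open scoped ENNReal NNReal

namespace Pool.Agent.H.MP_20d613_pr

instance : IsProbabilityMeasure coin := ⟨by
  simp [coin, ENNReal.inv_two_add_inv_two]⟩

instance (I : Type*) : IsProbabilityMeasure (fair I) := by
  unfold fair; infer_instance

/-- The sign of a bit. -/
def sgn (b : Bool) : ℝ := if b then -1 else 1

@[simp] lemma sgn_true : sgn true = -1 := rfl
@[simp] lemma sgn_false : sgn false = 1 := rfl

lemma sgn_mul_self (b : Bool) : sgn b * sgn b = 1 := by cases b <;> simp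

lemma abs_sgn (b : Bool) : |sgn b| = 1 := by cases b <;> simp

lemma measurable_sgn : Measurable sgn := .of_discrete

/-- product of signs -/
def chi {J Z : Type*} (b : J → Z → Bool) (S : Finset J) (z : Z) : ℝ := ∏ j ∈ S, sgn (b j z)

section general
variable {J Z : Type*} {mZ : MeasurableSpace Z} (b : J → Z → Bool)

lemma abs_chi (S : Finset J) (z : Z) : |chi b S z| = 1 := by
  simp [chi, Finset.abs_prod, abs_sgn]

lemma chi_empty (z : Z) : chi b ∅ z = 1 := by simp [chi]

lemma measurable_chi (hb : ∀ j, Measurable (b j)) (S : Finset J) : Measurable (chi b S) := by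
  unfold chi
  exact Finset.measurable_prod _ fun j _ => measurable_sgn.comp (hb j)

lemma integrable_chi (hb : ∀ j, Measurable (b j)) (S : Finset J) (μ : Measure Z)
    [IsFiniteMeasure μ] : Integrable (chi b S) μ :=
  Integrable.of_bound (measurable_chi b hb S).aestronglyMeasurable 1
    (ae_of_all _ fun z => by rw [Real.norm_eq_abs, abs_chi])

lemma chi_mul_chi [DecidableEq J] (S T : Finset J) (z : Z) :
    chi b S z * chi b T z = chi b (symmDiff S T) z := by
  unfold chi
  rw [← Finset.prod_sdiff (Finset.inter_subset_left (s₁ := S) (s₂ := T)),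
    ← Finset.prod_sdiff (Finset.inter_subset_right (s₁ := S) (s₂ := T))]
  have h1 : S \ (S ∩ T) = S \ T := by ext; simp
  have h2 : T \ (S ∩ T) = T \ S := by ext; simp
  rw [h1, h2]
  have h3 : (∏ x ∈ S ∩ T, sgn (b x z)) * (∏ x ∈ S ∩ T, sgn (b x z)) = 1 := by
    rw [← Finset.prod_mul_distrib]
    exact Finset.prod_eq_one fun x _ => sgn_mul_self _
  have h4 : symmDiff S T = (S \ T) ∪ (T \ S) := rfl
  rw [h4, Finset.prod_union (by
    rw [Finset.disjoint_left]; intro x hx hx'
    simp at hx hx'; exact hx'.2 hx.1)]
  linear_combination (∏ x ∈ S \ T, sgn (b x z)) * (∏ x ∈ T \ S, sgn (b x z)) * h3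

/-- Two finite measures with the same Walsh coefficients are equal. -/
lemma ext_of_chi (hgen : mZ = ⨆ j, MeasurableSpace.comap (b j) ⊤) (μ ν : Measure Z)
    [IsFiniteMeasure μ] [IsFiniteMeasure ν]
    (h : ∀ S : Finset J, ∫ z, chi b S z ∂μ = ∫ z, chi b S z ∂ν) : μ = ν := by
  classical
  have hb : ∀ j, Measurable (b j) := by
    intro j
    rw [measurable_iff_comap_le, hgen]
    exact le_iSup (fun j => MeasurableSpace.comap (b j) ⊤) j
  let A : Finset J → Set Z := fun F => {z | ∀ j ∈ F, b j z = true}
  have hA : ∀ F, MeasurableSet (A F) := by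
    intro F
    have : A F = ⋂ j ∈ F, (b j) ⁻¹' {true} := by ext z; simp [A]
    rw [this]
    exact F.measurableSet_biInter fun j _ => (hb j) (measurableSet_singleton _)
  have hpi : IsPiSystem (Set.range A) := by
    rintro _ ⟨F, rfl⟩ _ ⟨F', rfl⟩ _
    refine ⟨F ∪ F', ?_⟩
    ext z
    simp only [A, Finset.mem_union, mem_ofPred_eq, mem_inter_iff]
    constructor
    · intro h; exact ⟨fun j hj => h j (Or.inl hj), fun j hj => h j (Or.inr hj)⟩
    · rintro ⟨h1, h2⟩ j (hj | hj)
      · exact h1 j hj
      · exact h2 j hj
  have hgen' : mZ = MeasurableSpace.generateFrom (Set.range A) := by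
    apply le_antisymm
    · rw [hgen]
      apply iSup_le
      intro j
      rintro _ ⟨s, -, rfl⟩
      have h0 : MeasurableSet[MeasurableSpace.generateFrom (Set.range A)] ((b j) ⁻¹' {true}) := by
        apply MeasurableSpace.measurableSet_generateFrom
        refine ⟨{j}, ?_⟩
        ext z; simp [A]
      have h0' : MeasurableSet[MeasurableSpace.generateFrom (Set.range A)] ((b j) ⁻¹' {false}) := by
        have : (b j) ⁻¹' {false} = ((b j) ⁻¹' {true})ᶜ := by ext z; simp
        rw [this]; exact h0.compl
      have : (b j) ⁻¹' s = (if true ∈ s then (b j) ⁻¹' {true} else ∅) ∪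
          (if false ∈ s then (b j) ⁻¹' {false} else ∅) := by
        ext z
        rcases hz : b j z with _ | _ <;> by_cases h1 : true ∈ s <;> by_cases h2 : false ∈ s <;>
          simp [h1, h2, hz]
      rw [this]
      refine @MeasurableSet.union _ (MeasurableSpace.generateFrom (Set.range A)) _ _ ?_ ?_
      · split_ifs
        · exact h0
        · exact @MeasurableSet.empty _ (MeasurableSpace.generateFrom (Set.range A))
      · split_ifs
        · exact h0'
        · exact @MeasurableSet.empty _ (MeasurableSpace.generateFrom (Set.range A))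
    · apply MeasurableSpace.generateFrom_le
      rintro _ ⟨F, rfl⟩
      exact hA F
  have key : ∀ (ρ : Measure Z) [IsFiniteMeasure ρ] (F : Finset J),
      ρ.real (A F) = (1/2)^F.card * ∑ T ∈ F.powerset, (-1)^T.card * ∫ z, chi b T z ∂ρ := by
    intro ρ _ F
    have hind : ∀ z, (A F).indicator (fun _ => (1:ℝ)) z =
        (1/2)^F.card * ∑ T ∈ F.powerset, (-1)^T.card * chi b T z := by
      intro z
      have h1 : ∑ T ∈ F.powerset, (-1)^T.card * chi b T z = ∏ j ∈ F, (1 + (- sgn (b j z))) := by
        rw [Finset.prod_one_add]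
        apply Finset.sum_congr rfl
        intro T _
        unfold chi
        rw [Finset.prod_neg]
      rw [h1]
      by_cases hz : z ∈ A F
      · rw [indicator_of_mem hz]
        have : ∏ j ∈ F, (1 + (- sgn (b j z))) = 2 ^ F.card := by
          rw [Finset.prod_congr rfl (g := fun _ => (2:ℝ)), Finset.prod_const]
          intro j hj
          rw [hz j hj]; norm_num
        rw [this, ← mul_pow]; norm_num
      · rw [indicator_of_notMem hz]
        have : ∃ j ∈ F, b j z = false := by
          by_contra hcon
          push Not at hcon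
          apply hz
          intro j hj
          have := hcon j hj
          simpa using this
        obtain ⟨j, hj, hj'⟩ := this
        rw [Finset.prod_eq_zero hj (by rw [hj']; norm_num)]
        simp
    have h2 : ρ.real (A F) = ∫ z, (A F).indicator (fun _ => (1:ℝ)) z ∂ρ := by
      rw [integral_indicator_const _ (hA F)]; simp
    rw [h2]
    simp_rw [hind]
    rw [integral_const_mul, integral_finsetSum]
    · simp_rw [integral_const_mul]
    · intro T _
      exact (integrable_chi b hb T ρ).const_mul _
  apply ext_of_generate_finite (Set.range A) hgen' hpi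
  · rintro _ ⟨F, rfl⟩
    have : μ.real (A F) = ν.real (A F) := by
      rw [key μ F, key ν F]; simp_rw [h]
    rwa [measureReal_def, measureReal_def, ENNReal.toReal_eq_toReal_iff' (measure_ne_top _ _)
      (measure_ne_top _ _)] at this
  · have := h ∅
    simp only [chi_empty, integral_const, smul_eq_mul, mul_one] at this
    rwa [measureReal_def, measureReal_def, ENNReal.toReal_eq_toReal_iff' (measure_ne_top _ _)
      (measure_ne_top _ _)] at this

end general

section config
variable {I : Type*}

/-- Walsh character on configurations -/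
abbrev wal (S : Finset I) (ω : I → Bool) : ℝ := chi (fun x (ω : I → Bool) => ω x) S ω

lemma pi_generate : (inferInstance : MeasurableSpace (I → Bool)) =
    ⨆ x : I, MeasurableSpace.comap (fun ω : I → Bool => ω x) ⊤ := rfl

lemma integral_sgn_coin : ∫ b, sgn b ∂coin = 0 := by
  unfold coin
  rw [integral_add_measure, integral_smul_measure, integral_smul_measure]
  · simp [integral_dirac]
  · exact Integrable.of_finite.smul_measure (by simp)
  · exact Integrable.of_finite.smul_measure (by simp)

lemma integral_wal_fair (S : Finset I) (hS : S.Nonempty) : ∫ ω, wal S ω ∂fair I = 0 := by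
  classical
  obtain ⟨x, hx⟩ := hS
  have hind : iIndepFun (fun (i : I) (ω : I → Bool) => sgn (ω i)) (fair I) :=
    iIndepFun_infinitePi (P := fun _ => coin) (X := fun _ b => sgn b) (fun _ => measurable_sgn)
  have hmeas : ∀ i : I, Measurable fun ω : I → Bool => sgn (ω i) :=
    fun i => measurable_sgn.comp (measurable_pi_apply i)
  have h1 : ∀ i : I, ∫ ω, sgn (ω i) ∂fair I = 0 := by
    intro i
    have := (measurePreserving_eval_infinitePi (fun _ : I => coin) i)
    rw [← integral_sgn_coin, ← this.map_eq, integral_map this.measurable.aemeasurable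
      (measurable_sgn.aestronglyMeasurable)]
    rfl
  unfold wal chi
  have h3 := hind.indepFun_finsetProd_of_notMem hmeas (s := S.erase x) (i := x) (by simp)
  have h4 : (fun ω : I → Bool => ∏ j ∈ S, sgn (ω j)) =
      fun ω => (∏ j ∈ S.erase x, fun ω : I → Bool => sgn (ω j)) ω * sgn (ω x) := by
    ext ω
    rw [← Finset.prod_erase_mul _ _ hx, Finset.prod_apply]
  rw [h4]
  have h5 := h3.integral_fun_mul_eq_mul_integral (by
    apply Measurable.aestronglyMeasurable
    have : (∏ j ∈ S.erase x, fun ω : I → Bool => sgn (ω j)) =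
        fun ω : I → Bool => ∏ j ∈ S.erase x, sgn (ω j) := by
      ext ω; rw [Finset.prod_apply]
    rw [this]
    exact Finset.measurable_fun_prod (S.erase x) fun i _ => hmeas i) (hmeas x).aestronglyMeasurable
  rw [h5, h1 x, mul_zero]

lemma integral_wal_fair' [DecidableEq I] (S : Finset I) :
    ∫ ω, wal S ω ∂fair I = if S = ∅ then 1 else 0 := by
  split_ifs with h
  · subst h; simp [wal, chi_empty]
  · exact integral_wal_fair S (Finset.nonempty_iff_ne_empty.2 h)

end config

end Pool.Agent.H.MP_20d613_pr
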