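import Pool.Agent.H.MP_20d613_pr.OneStep
import Pool.Agent.H.MP_20d613_pr.Walsh

open MeasureTheory ProbabilityTheory Filter Topology Set
open scoped ENNReal NNReal

namespace Pool.Agent.H.MP_20d613_pr

variable {I : Type*}

/-- action of a transposition on finite sets -/
noncomputable def act (e : Sym2 I) (S : Finset I) : Finset I := S.map (sw e).toEmbedding

@[simp] lemma act_card (e : Sym2 I) (S : Finset I) : (act e S).card = S.card := by
  simp [act]

lemma act_act (e : Sym2 I) (S : Finset I) : act e (act e S) = S := by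
  unfold act
  rw [Finset.map_map]
  convert Finset.map_refl
  ext x
  simp [sw_sw]

lemma act_of_not_touch (e : Sym2 I) (S : Finset I) (h : ¬ touch S e) : act e S = S := by
  classical
  unfold act
  rw [Finset.map_eq_image]
  have : Finset.image (sw e).toEmbedding S = Finset.image id S := by
    apply Finset.image_congr
    intro x hx
    exact sw_of_notMem e x (fun hxe => h ⟨x, hx, hxe⟩)
  rw [this, Finset.image_id]

lemma wal_swc (e : Sym2 I) (S : Finset I) (y : I → Bool) : wal S (swc e y) = wal (act e S) y := by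
  unfold wal chi swc act
  rw [Finset.prod_map]
  rfl

/-- the generator acting on functions of finite sets -/
noncomputable def gen (K : SwapKernel I) (φ : Finset I → ℝ) (S : Finset I) : ℝ :=
  ∑' e, (K.rate e : ℝ) * (φ (act e S) - φ S)

variable {K : SwapKernel I} {M : ℝ≥0}

open Classical in
lemma summable_touch (hM : ∀ x, ∑' y, (K.P x y : ℝ≥0∞) ≤ M) (F : Finset I) :
    Summable fun e => (if touch F e then (K.rate e : ℝ) else 0) := by
  have h1 : ∑' e : Sym2 I, (if touch F e then (K.rate e : ℝ≥0∞) else 0) ≠ ∞ :=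
    ne_top_of_le_ne_top (by finiteness) (tsum_touch hM F)
  have h2 := ENNReal.summable_toReal h1
  refine h2.congr fun e => ?_
  split_ifs <;> simp

open Classical in
lemma tsum_touch_real (hM : ∀ x, ∑' y, (K.P x y : ℝ≥0∞) ≤ M) (F : Finset I) :
    ∑' e, (if touch F e then (K.rate e : ℝ) else 0) ≤ F.card * M := by
  have h1 := tsum_touch hM F
  have h2 := ENNReal.toReal_mono (by finiteness) h1
  rw [ENNReal.tsum_toReal_eq (fun e => by split_ifs <;> simp)] at h2
  convert h2 using 1
  · congr 1; ext e; split_ifs <;> simp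
  · simp

open Classical in
lemma gen_term_bound (k : ℕ) (φ : Finset I → ℝ) (B : ℝ)
    (hφ : ∀ S : Finset I, S.card = k → |φ S| ≤ B) (S : Finset I) (hS : S.card = k) (e : Sym2 I) :
    ‖(K.rate e : ℝ) * (φ (act e S) - φ S)‖ ≤ (if touch S e then (K.rate e : ℝ) else 0) * (2 * B) := by
  by_cases he : touch S e
  · rw [if_pos he, norm_mul, Real.norm_eq_abs, Real.norm_eq_abs]
    apply mul_le_mul _ _ (abs_nonneg _) (by positivity)
    · simp
    · have h1 := hφ (act e S) (by simp [hS])
      have h2 := hφ S hS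
      rw [abs_le] at *
      constructor <;> linarith
  · rw [act_of_not_touch e S he, sub_self, mul_zero, if_neg he]; simp

lemma gen_summable (hM : ∀ x, ∑' y, (K.P x y : ℝ≥0∞) ≤ M) (k : ℕ) (φ : Finset I → ℝ) (B : ℝ)
    (hφ : ∀ S : Finset I, S.card = k → |φ S| ≤ B) (S : Finset I) (hS : S.card = k) :
    Summable fun e => (K.rate e : ℝ) * (φ (act e S) - φ S) := by
  classical
  exact Summable.of_norm_bounded ((summable_touch hM S).mul_right (2 * B))
    (gen_term_bound k φ B hφ S hS)

lemma gen_bound (hM : ∀ x, ∑' y, (K.P x y : ℝ≥0∞) ≤ M) (k : ℕ) (φ : Finset I → ℝ) (B : ℝ)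
    (hB : 0 ≤ B)
    (hφ : ∀ S : Finset I, S.card = k → |φ S| ≤ B) (S : Finset I) (hS : S.card = k) :
    |gen K φ S| ≤ 2 * k * M * B := by
  classical
  have h1 := tsum_of_norm_bounded ((summable_touch hM S).mul_right (2 * B)).hasSum
    (gen_term_bound k φ B hφ S hS)
  rw [Real.norm_eq_abs] at h1
  refine h1.trans ?_
  rw [tsum_mul_right]
  have h2 := tsum_touch_real hM S
  rw [hS] at h2
  calc _ ≤ (k * M) * (2 * B) := by gcongr
    _ = _ := by ring

lemma gen_sub (hM : ∀ x, ∑' y, (K.P x y : ℝ≥0∞) ≤ M) (k : ℕ) (φ ψ : Finset I → ℝ) (B B' : ℝ)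
    (hφ : ∀ S : Finset I, S.card = k → |φ S| ≤ B)
    (hψ : ∀ S : Finset I, S.card = k → |ψ S| ≤ B') (S : Finset I) (hS : S.card = k) :
    gen K φ S - gen K ψ S = gen K (fun S => φ S - ψ S) S := by
  unfold gen
  rw [← (gen_summable hM k φ B hφ S hS).tsum_sub (gen_summable hM k ψ B' hψ S hS)]
  congr 1; ext e; ring

lemma gen_add_smul (hM : ∀ x, ∑' y, (K.P x y : ℝ≥0∞) ≤ M) (k : ℕ) (φ ψ : Finset I → ℝ) (B B' c : ℝ)
    (hφ : ∀ S : Finset I, S.card = k → |φ S| ≤ B)
    (hψ : ∀ S : Finset I, S.card = k → |ψ S| ≤ B') (S : Finset I) (hS : S.card = k) :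
    gen K (fun S => φ S + c * ψ S) S = gen K φ S + c * gen K ψ S := by
  unfold gen
  rw [← tsum_mul_left, ← (gen_summable hM k φ B hφ S hS).tsum_add
    ((gen_summable hM k ψ B' hψ S hS).mul_left c)]
  congr 1; ext e; ring

/-- Euler step -/
noncomputable def step (K : SwapKernel I) (h : ℝ) (φ : Finset I → ℝ) : Finset I → ℝ :=
  fun S => φ S + h * gen K φ S

lemma step_bound (hM : ∀ x, ∑' y, (K.P x y : ℝ≥0∞) ≤ M) (h : ℝ) (hh : 0 ≤ h) (k : ℕ)
    (φ : Finset I → ℝ) (B : ℝ) (hB : 0 ≤ B)
    (hφ : ∀ S : Finset I, S.card = k → |φ S| ≤ B) (S : Finset I) (hS : S.card = k) :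
    |step K h φ S| ≤ (1 + 2 * k * M * h) * B := by
  have h1 := gen_bound hM k φ B hB hφ S hS
  have h2 := hφ S hS
  unfold step
  calc |φ S + h * gen K φ S| ≤ |φ S| + h * |gen K φ S| := by
        refine (abs_add_le _ _).trans ?_
        rw [abs_mul, abs_of_nonneg hh]
    _ ≤ B + h * (2 * k * M * B) := by gcongr
    _ = _ := by ring

lemma step_iter_bound (hM : ∀ x, ∑' y, (K.P x y : ℝ≥0∞) ≤ M) (h : ℝ) (hh : 0 ≤ h) (k : ℕ)
    (φ : Finset I → ℝ) (B : ℝ) (hB : 0 ≤ B)
    (hφ : ∀ S : Finset I, S.card = k → |φ S| ≤ B) (n : ℕ) (S : Finset I) (hS : S.card = k) :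
    |(step K h)^[n] φ S| ≤ (1 + 2 * k * M * h) ^ n * B := by
  induction n generalizing S with
  | zero => simpa using hφ S hS
  | succ n ih =>
    rw [Function.iterate_succ_apply']
    refine (step_bound hM h hh k _ ((1 + 2 * k * M * h) ^ n * B) (by positivity) ih S hS).trans
      (le_of_eq ?_)
    ring

/-- approximate solutions of the evolution equation are close to Euler iterates -/
lemma euler_error (hM : ∀ x, ∑' y, (K.P x y : ℝ≥0∞) ≤ M) (d : ℝ≥0 → Finset I → ℝ)
    (hd1 : ∀ r S, |d r S| ≤ 1)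
    (hrec : ∀ r r', r ≤ r' → ∀ S, |d r' S - d r S - (r' - r : ℝ≥0) * gen K (d r) S| ≤
      Cst M S.card * (r' - r : ℝ≥0) ^ 2)
    (h : ℝ≥0) (k n : ℕ) (S : Finset I) (hS : S.card = k) :
    |d (n * h) S - (step K h)^[n] (d 0) S| ≤ n * (Cst M k * h ^ 2) * (1 + 2 * k * M * h) ^ n := by
  induction n generalizing S with
  | zero => simp
  | succ n ih =>
    rw [Function.iterate_succ_apply']
    set ψ := (step K h)^[n] (d 0) with hψ
    set q : ℝ := 1 + 2 * k * M * h with hq
    have hq1 : 1 ≤ q := by rw [hq]; have : 0 ≤ 2 * (k:ℝ) * M * h := by positivity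
                           linarith
    have hC := Cst_nonneg M k
    have h1 := hrec (n * h) ((n + 1 : ℕ) * h) (by gcongr; simp) S
    have h2 : ((n + 1 : ℕ) * h - n * h : ℝ≥0) = h := by
      push_cast; rw [add_mul, one_mul, add_tsub_cancel_left]
    rw [h2, hS] at h1
    have hψb : ∀ S : Finset I, S.card = k → |ψ S| ≤ q ^ n * 1 := fun S hS =>
      step_iter_bound hM h h.2 k (d 0) 1 zero_le_one (fun S _ => hd1 0 S) n S hS
    have hdiff : ∀ S : Finset I, S.card = k → |d (n * h) S - ψ S| ≤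
        n * (Cst M k * h ^ 2) * q ^ n := fun S hS => ih S hS
    have h3 := step_bound hM h h.2 k (fun S => d (n * h) S - ψ S) (n * (Cst M k * h ^ 2) * q ^ n)
      (by positivity) hdiff S hS
    have h4 : step K h (fun S => d (n * h) S - ψ S) S = step K h (d (n * h)) S - step K h ψ S := by
      unfold step
      have := gen_sub hM k (d (n * h)) ψ 1 (q ^ n * 1) (fun S _ => hd1 _ S) hψb S hS
      rw [← this]; ring
    rw [h4] at h3
    have h5 : d ((n + 1 : ℕ) * h) S - step K h ψ S =
        (d ((n + 1 : ℕ) * h) S - d (n * h) S - h * gen K (d (n * h)) S) +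
        (step K h (d (n * h)) S - step K h ψ S) := by
      unfold step; ring
    rw [h5]
    refine (abs_add_le _ _).trans ((add_le_add h1 h3).trans ?_)
    rw [← hq]
    have h6 : Cst M k * (h:ℝ) ^ 2 ≤ Cst M k * h ^ 2 * q ^ (n + 1) := by
      apply le_mul_of_one_le_right (by positivity)
      exact one_le_pow₀ hq1
    calc Cst M k * (h:ℝ) ^ 2 + q * (n * (Cst M k * h ^ 2) * q ^ n)
        ≤ Cst M k * h ^ 2 * q ^ (n + 1) + q * (n * (Cst M k * h ^ 2) * q ^ n) := by gcongr
      _ = _ := by push_cast; ring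

theorem euler_tendsto (hM : ∀ x, ∑' y, (K.P x y : ℝ≥0∞) ≤ M) (d : ℝ≥0 → Finset I → ℝ)
    (hd1 : ∀ r S, |d r S| ≤ 1)
    (hrec : ∀ r r', r ≤ r' → ∀ S, |d r' S - d r S - (r' - r : ℝ≥0) * gen K (d r) S| ≤
      Cst M S.card * (r' - r : ℝ≥0) ^ 2)
    (r : ℝ≥0) (S : Finset I) :
    Tendsto (fun n : ℕ => (step K (r / n : ℝ≥0))^[n] (d 0) S) atTop (𝓝 (d r S)) := by
  set k := S.card
  have hlim : Tendsto (fun n : ℕ => (Cst M k * r ^ 2 * Real.exp (2 * k * M * r)) / (n:ℝ))
      atTop (𝓝 0) := tendsto_const_div_atTop_nhds_zero_nat _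
  rw [tendsto_iff_dist_tendsto_zero]
  refine squeeze_zero' (Eventually.of_forall fun n => dist_nonneg) ?_ hlim
  filter_upwards [eventually_ge_atTop 1] with n hn
  have hn0 : (n : ℝ≥0) ≠ 0 := by positivity
  have hn0' : (n : ℝ) ≠ 0 := by positivity
  have h1 := euler_error hM d hd1 hrec (r / n) k n S rfl
  have h2 : (n : ℝ≥0) * (r / n) = r := mul_div_cancel₀ r hn0
  rw [h2] at h1
  rw [dist_comm, Real.dist_eq]
  refine h1.trans ?_
  have h3 : (1 + 2 * k * M * ((r / n : ℝ≥0) : ℝ)) ^ n ≤ Real.exp (2 * k * M * r) := by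
    have h4 := Real.add_one_le_exp (2 * k * M * ((r / n : ℝ≥0) : ℝ))
    calc (1 + 2 * k * M * ((r / n : ℝ≥0) : ℝ)) ^ n
        ≤ (Real.exp (2 * k * M * ((r / n : ℝ≥0) : ℝ))) ^ n := by
          apply pow_le_pow_left₀ (by positivity); linarith
      _ = Real.exp (2 * k * M * r) := by
          rw [← Real.exp_nat_mul]; congr 1; push_cast; field_simp
  have hC := Cst_nonneg M k
  calc n * (Cst M k * ((r / n : ℝ≥0) : ℝ) ^ 2) * (1 + 2 * k * M * ((r / n : ℝ≥0) : ℝ)) ^ n
      ≤ n * (Cst M k * ((r / n : ℝ≥0) : ℝ) ^ 2) * Real.exp (2 * k * M * r) := by gcongr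
    _ = _ := by push_cast; field_simp

/-- commutation of the generator in the two variables -/
lemma gen_comm (hM : ∀ x, ∑' y, (K.P x y : ℝ≥0∞) ≤ M) (Φ : Finset I → Finset I → ℝ)
    (k k' : ℕ) (B : ℝ)
    (hΦ : ∀ S S' : Finset I, S.card = k → S'.card = k' → |Φ S S'| ≤ B)
    (S S' : Finset I) (hS : S.card = k) (hS' : S'.card = k') :
    gen K (fun U => gen K (Φ U) S') S = gen K (fun U' => gen K (fun U => Φ U U') S) S' := by
  classical
  have hs2 : ∀ U : Finset I, U.card = k →
      Summable fun e' => (K.rate e' : ℝ) * (Φ U (act e' S') - Φ U S') := fun U hU =>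
    gen_summable hM k' (Φ U) B (fun S' hS' => hΦ U S' hU hS') S' hS'
  have hs1 : ∀ U' : Finset I, U'.card = k' →
      Summable fun e => (K.rate e : ℝ) * (Φ (act e S) U' - Φ S U') := fun U' hU' =>
    gen_summable hM k (fun U => Φ U U') B (fun S hS => hΦ S U' hS hU') S hS
  have h1 : gen K (fun U => gen K (Φ U) S') S = ∑' e, ∑' e', (K.rate e : ℝ) * (K.rate e' : ℝ) *
      (Φ (act e S) (act e' S') - Φ (act e S) S' - Φ S (act e' S') + Φ S S') := by
    unfold gen
    congr 1; ext e
    rw [← (hs2 (act e S) (by simp [hS])).tsum_sub (hs2 S hS), ← tsum_mul_left]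
    congr 1; ext e'; ring
  have h2 : gen K (fun U' => gen K (fun U => Φ U U') S) S' = ∑' e', ∑' e, (K.rate e : ℝ) *
      (K.rate e' : ℝ) *
      (Φ (act e S) (act e' S') - Φ (act e S) S' - Φ S (act e' S') + Φ S S') := by
    unfold gen
    congr 1; ext e'
    rw [← (hs1 (act e' S') (by simp [hS'])).tsum_sub (hs1 S' hS'), ← tsum_mul_left]
    congr 1; ext e; ring
  rw [h1, h2]
  refine (Summable.tsum_comm ?_).symm
  have hprod := (summable_touch hM S).mul_of_nonneg (summable_touch hM S')
    (fun e => by simp only [Pi.zero_apply]; split_ifs <;> positivity)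
    (fun e => by simp only [Pi.zero_apply]; split_ifs <;> positivity)
  have hprod2 : Summable fun p : Sym2 I × Sym2 I =>
      (if touch S p.1 then (K.rate p.1 : ℝ) else 0) * (if touch S' p.2 then (K.rate p.2 : ℝ) else 0)
        * (4 * B) := hprod.mul_right _
  refine Summable.of_norm_bounded hprod2 ?_
  rintro ⟨e, e'⟩
  simp only [Function.uncurry]
  by_cases he : touch S e
  · by_cases he' : touch S' e'
    · rw [if_pos he, if_pos he', norm_mul, norm_mul]
      apply mul_le_mul _ _ (norm_nonneg _) (by positivity)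
      · simp
      · have a1 := hΦ (act e S) (act e' S') (by simp [hS]) (by simp [hS'])
        have a2 := hΦ (act e S) S' (by simp [hS]) hS'
        have a3 := hΦ S (act e' S') hS (by simp [hS'])
        have a4 := hΦ S S' hS hS'
        rw [Real.norm_eq_abs]
        rw [abs_le] at *
        constructor <;> linarith
    · rw [act_of_not_touch e' S' he']; simp [he']
  · rw [act_of_not_touch e S he]; simp [he]

/-- the Euler iterates started from the Kronecker delta are symmetric -/
theorem euler_symm (hM : ∀ x, ∑' y, (K.P x y : ℝ≥0∞) ≤ M) [DecidableEq (Finset I)]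
    (h : ℝ) (hh : 0 ≤ h) (n : ℕ) (S S' : Finset I) :
    (step K h)^[n] (fun U' => if S = U' then 1 else 0) S' =
      (step K h)^[n] (fun U' => if S' = U' then 1 else 0) S := by
  -- a n : iterate in the second variable, b n : iterate in the first variable
  let δ : Finset I → Finset I → ℝ := fun U U' => if U = U' then 1 else 0
  let a : ℕ → Finset I → Finset I → ℝ := fun n U U' => (step K h)^[n] (δ U) U'
  let T1 : (Finset I → Finset I → ℝ) → (Finset I → Finset I → ℝ) :=
    fun Φ U U' => step K h (fun V => Φ V U') U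
  let T2 : (Finset I → Finset I → ℝ) → (Finset I → Finset I → ℝ) :=
    fun Φ U U' => step K h (Φ U) U'
  let LB : (Finset I → Finset I → ℝ) → Prop := fun Φ => ∀ k k' : ℕ, ∃ B, 0 ≤ B ∧
    ∀ U U' : Finset I, U.card = k → U'.card = k' → |Φ U U'| ≤ B
  have hLB1 : ∀ Φ, LB Φ → LB (T1 Φ) := by
    intro Φ hΦ k k'
    obtain ⟨B, hB0, hB⟩ := hΦ k k'
    refine ⟨(1 + 2 * k * M * h) * B, by positivity, fun U U' hU hU' => ?_⟩
    exact step_bound hM h hh k (fun V => Φ V U') B hB0 (fun V hV => hB V U' hV hU') U hU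
  have hLB2 : ∀ Φ, LB Φ → LB (T2 Φ) := by
    intro Φ hΦ k k'
    obtain ⟨B, hB0, hB⟩ := hΦ k k'
    refine ⟨(1 + 2 * k' * M * h) * B, by positivity, fun U U' hU hU' => ?_⟩
    exact step_bound hM h hh k' (Φ U) B hB0 (fun V hV => hB U V hU hV) U' hU'
  have hcomm : ∀ Φ, LB Φ → T1 (T2 Φ) = T2 (T1 Φ) := by
    intro Φ hΦ
    ext U U'
    obtain ⟨B, hB0, hB⟩ := hΦ U.card U'.card
    have g2 : ∀ V : Finset I, V.card = U.card → |gen K (Φ V) U'| ≤ 2 * U'.card * M * B := fun V hV =>
      gen_bound hM U'.card (Φ V) B hB0 (fun W hW => hB V W hV hW) U' rfl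
    have g1 : ∀ V : Finset I, V.card = U'.card → |gen K (fun W => Φ W V) U| ≤ 2 * U.card * M * B :=
      fun V hV => gen_bound hM U.card (fun W => Φ W V) B hB0 (fun W hW => hB W V hW hV) U rfl
    have e1 : gen K (fun V => Φ V U' + h * gen K (Φ V) U') U =
        gen K (fun V => Φ V U') U + h * gen K (fun V => gen K (Φ V) U') U :=
      gen_add_smul hM U.card (fun V => Φ V U') (fun V => gen K (Φ V) U') B _ h
        (fun V hV => hB V U' hV rfl) g2 U rfl
    have e2 : gen K (fun V => Φ U V + h * gen K (fun W => Φ W V) U) U' =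
        gen K (Φ U) U' + h * gen K (fun V => gen K (fun W => Φ W V) U) U' :=
      gen_add_smul hM U'.card (Φ U) (fun V => gen K (fun W => Φ W V) U) B _ h
        (fun V hV => hB U V rfl hV) g1 U' rfl
    have e3 := gen_comm hM Φ U.card U'.card B hB U U' rfl rfl
    simp only [T1, T2, step]
    rw [e1, e2, e3]; ring
  have hδ : LB δ := fun k k' => ⟨1, zero_le_one, fun U U' _ _ => by
    simp only [δ]; split_ifs <;> simp⟩
  have hT12δ : T1 δ = T2 δ := by
    ext U U'
    simp only [T1, T2, step, gen, δ]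
    congr 2
    apply tsum_congr
    intro e
    congr 2
    have : act e U = U' ↔ U = act e U' := by
      constructor
      · rintro rfl; rw [act_act]
      · rintro rfl; rw [act_act]
    simp only [this]
  have hT1n : ∀ n, LB (T1^[n] δ) := by
    intro n
    induction n with
    | zero => exact hδ
    | succ n ih => rw [Function.iterate_succ_apply']; exact hLB1 _ ih
  have hswap : ∀ n, T2 (T1^[n] δ) = T1^[n + 1] δ := by
    intro n
    induction n with
    | zero => simp [← hT12δ]
    | succ n ih =>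
      rw [Function.iterate_succ_apply', ← hcomm _ (hT1n n), ih]
      rw [← Function.iterate_succ_apply' T1]
  have hT2n : ∀ n, T2^[n] δ = T1^[n] δ := by
    intro n
    induction n with
    | zero => rfl
    | succ n ih => rw [Function.iterate_succ_apply', ih, hswap]
  have ha2 : ∀ n U U', T2^[n] δ U U' = (step K h)^[n] (δ U) U' := by
    intro n
    induction n with
    | zero => intro U U'; rfl
    | succ n ih =>
      intro U U'
      rw [Function.iterate_succ_apply', Function.iterate_succ_apply']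
      show step K h (T2^[n] δ U) U' = _
      have : T2^[n] δ U = (step K h)^[n] (δ U) := by ext V; exact ih U V
      rw [this]
  have ha1 : ∀ n U U', T1^[n] δ U U' = (step K h)^[n] (δ U') U := by
    intro n
    induction n with
    | zero => intro U U'; simp [δ, eq_comm]
    | succ n ih =>
      intro U U'
      rw [Function.iterate_succ_apply', Function.iterate_succ_apply']
      show step K h (fun V => T1^[n] δ V U') U = _
      have : (fun V => T1^[n] δ V U') = (step K h)^[n] (δ U') := by ext V; exact ih V U'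
      rw [this]
  show (step K h)^[n] (δ S) S' = (step K h)^[n] (δ S') S
  rw [← ha2, ← ha1, hT2n]

end Pool.Agent.H.MP_20d613_pr
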