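import Pool.Agent.H.MP_20d613_pr.Iter

open MeasureTheory ProbabilityTheory Filter Topology Set
open scoped ENNReal NNReal

set_option linter.unusedSectionVars false
set_option linter.style.haveILetI false

namespace Pool.Agent.H.MP_20d613_pr

/-! ### reversible kernels from symmetric couplings -/

section RevKernel
variable {E : Type*} [MeasurableSpace E] [StandardBorelSpace E] [Nonempty E]

/-- operator associated with a coupling -/
noncomputable def Pop (π : Measure (E × E)) [IsFiniteMeasure π] (f : E → ℝ) (x : E) : ℝ :=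
  ∫ y, f y ∂(π.condKernel x)

lemma Pop_bm (π : Measure (E × E)) [IsFiniteMeasure π] (f : E → ℝ) (hf : BM f) :
    BM (Pop π f) := by
  obtain ⟨hfm, B, hB⟩ := hf
  refine ⟨?_, B, fun x => ?_⟩
  · have : StronglyMeasurable fun x => ∫ y, f y ∂(π.condKernel x) :=
      hfm.stronglyMeasurable.integral_kernel
    exact this.measurable
  · have := norm_integral_le_of_norm_le_const (μ := π.condKernel x) (C := B) (f := f)
        (ae_of_all _ fun ω => by rw [Real.norm_eq_abs]; exact hB ω)
    simpa [Pop] using this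

lemma Pop_integral (π : Measure (E × E)) [IsFiniteMeasure π] (f g : E → ℝ) (hf : BM f)
    (hg : BM g) : ∫ x, f x * Pop π g x ∂π.fst = ∫ p, f p.1 * g p.2 ∂π := by
  have hint : Integrable (fun p : E × E => f p.1 * g p.2) π :=
    ((hf.comp measurable_fst).mul (hg.comp measurable_snd)).integrable π
  rw [← Measure.integral_condKernel hint]
  congr 1; ext x
  show f x * Pop π g x = ∫ y, f x * g y ∂(π.condKernel x)
  rw [integral_const_mul]
  rfl

lemma revOp_of_symm (π : Measure (E × E)) [IsProbabilityMeasure π]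
    (hsw : π.map Prod.swap = π) : RevOp π.fst (Pop π) where
  bm := Pop_bm π
  pos := fun f _ h x => integral_nonneg h
  add := fun f g hf hg x => integral_add (hf.integrable _) (hg.integrable _)
  smul := fun c f _ x => integral_const_mul c f
  one := fun x => by simp [Pop]
  symm := fun f g hf hg => by
    rw [Pop_integral π f g hf hg, Pop_integral π g f hg hf]
    conv_rhs => rw [← hsw]
    rw [integral_map measurable_swap.aemeasurable]
    · congr 1; ext p; simp [mul_comm]
    · exact ((hg.comp measurable_fst).mul (hf.comp measurable_snd)).1.aestronglyMeasurable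
  contr := fun f hf => by
    rw [Pop_integral π f f hf hf]
    have h1 : ∫ p, f p.1 ^ 2 ∂π = ∫ x, f x ^ 2 ∂π.fst := by
      rw [Measure.fst, integral_map measurable_fst.aemeasurable]
      exact hf.sq.1.aestronglyMeasurable
    have h2 : ∫ p, f p.2 ^ 2 ∂π = ∫ p, f p.1 ^ 2 ∂π := by
      conv_lhs => rw [← hsw]
      rw [integral_map measurable_swap.aemeasurable]
      · rfl
      · exact (hf.sq.comp measurable_snd).1.aestronglyMeasurable
    have b1 := (hf.sq.comp (measurable_fst (α := E) (β := E)))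
    have b2 := (hf.sq.comp (measurable_snd (α := E) (β := E)))
    have h3 : ∫ p, f p.1 * f p.2 ∂π ≤ ∫ p, (1/2) * (f p.1 ^ 2 + f p.2 ^ 2) ∂π := by
      apply integral_mono
      · exact ((hf.comp measurable_fst).mul (hf.comp measurable_snd)).integrable π
      · exact ((b1.add b2).smul (1/2)).integrable π
      · intro p
        have := sq_nonneg (f p.1 - f p.2)
        simp only
        nlinarith
    rw [integral_const_mul, BM.int_add π b1 b2, h2, h1] at h3
    linarith

end RevKernel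

/-! ### pairs of configurations -/

section pair
variable {I : Type*}

/-- coordinates of a pair of configurations -/
def pairBit (j : I ⊕ I) (z : (I → Bool) × (I → Bool)) : Bool :=
  match j with
  | Sum.inl x => z.1 x
  | Sum.inr x => z.2 x

lemma pair_generate : (inferInstance : MeasurableSpace ((I → Bool) × (I → Bool))) =
    ⨆ j : I ⊕ I, MeasurableSpace.comap (pairBit j) ⊤ := by
  rw [iSup_sum]
  have h1 : (inferInstance : MeasurableSpace ((I → Bool) × (I → Bool))) =
      (MeasurableSpace.comap Prod.fst (inferInstance : MeasurableSpace (I → Bool))) ⊔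
      (MeasurableSpace.comap Prod.snd (inferInstance : MeasurableSpace (I → Bool))) := rfl
  rw [h1, pi_generate, MeasurableSpace.comap_iSup, MeasurableSpace.comap_iSup]
  congr 1
  · congr 1; ext1 x; rw [MeasurableSpace.comap_comp]; rfl
  · congr 1; ext1 x; rw [MeasurableSpace.comap_comp]; rfl

lemma chi_pair (A : Finset (I ⊕ I)) (z : (I → Bool) × (I → Bool)) :
    chi pairBit A z = wal A.toLeft z.1 * wal A.toRight z.2 := by
  unfold wal chi
  conv_lhs => rw [← Finset.toLeft_disjSum_toRight (u := A)]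
  rw [Finset.prod_disjSum]
  rfl

lemma ext_pair (μ ν : Measure ((I → Bool) × (I → Bool))) [IsFiniteMeasure μ] [IsFiniteMeasure ν]
    (h : ∀ S S' : Finset I, ∫ z, wal S z.1 * wal S' z.2 ∂μ = ∫ z, wal S z.1 * wal S' z.2 ∂ν) :
    μ = ν := by
  apply ext_of_chi pairBit pair_generate
  intro A
  simp_rw [chi_pair]
  exact h _ _

lemma ext_config (μ ν : Measure (I → Bool)) [IsFiniteMeasure μ] [IsFiniteMeasure ν]
    (h : ∀ S : Finset I, ∫ z, wal S z ∂μ = ∫ z, wal S z ∂ν) : μ = ν :=
  ext_of_chi (fun x (ω : I → Bool) => ω x) pi_generate μ ν h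

lemma measurable_wal (S : Finset I) : Measurable (wal S : (I → Bool) → ℝ) :=
  measurable_chi _ (fun x => measurable_pi_apply x) S

lemma abs_wal (S : Finset I) (y : I → Bool) : |wal S y| = 1 := abs_chi _ S y

lemma bm_wal (S : Finset I) : BM (wal S : (I → Bool) → ℝ) :=
  BM.of_abs_le (measurable_wal S) fun y => (abs_wal S y).le

lemma dependsOn_wal (S : Finset I) : DependsOn (wal S : (I → Bool) → ℝ) (S : Set I) := by
  intro y y' h
  unfold wal chi
  exact Finset.prod_congr rfl fun x hx => by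
    show sgn (y x) = sgn (y' x)
    rw [h x hx]

end pair

section law
variable {I Ω : Type*} {mΩ : MeasurableSpace Ω} {K : SwapKernel I} {μ : Measure Ω}
  {𝓕 : Filtration ℝ≥0 mΩ} {N : Sym2 I → ℝ≥0 → Ω → ℕ} {Y : ℝ≥0 → Ω → I → Bool}
  {M : ℝ≥0} [Countable I] [IsProbabilityMeasure μ]

lemma abs_integral_le_one {g : Ω → ℝ} (hg : ∀ ω, |g ω| ≤ 1) : |∫ ω, g ω ∂μ| ≤ 1 := by
  have := norm_integral_le_of_norm_le_const (μ := μ) (C := 1) (f := g)
    (ae_of_all _ fun ω => by rw [Real.norm_eq_abs]; exact hg ω)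
  simpa using this

/-- the evolution equation for the correlation functions -/
lemma ExclData.evol (hD : ExclData K μ 𝓕 N Y)
    (hM : ∀ x, ∑' y, (K.P x y : ℝ≥0∞) ≤ M) (s : ℝ≥0)
    (Z : Ω → ℝ) (hZ : Measurable[𝓕 s] Z) (hZ1 : ∀ ω, |Z ω| ≤ 1) :
    ∀ r r' : ℝ≥0, r ≤ r' → ∀ S : Finset I,
      |(fun (r : ℝ≥0) (S : Finset I) => ∫ ω, Z ω * wal S (Y (s + r) ω) ∂μ) r' S
      - (fun (r : ℝ≥0) (S : Finset I) => ∫ ω, Z ω * wal S (Y (s + r) ω) ∂μ) r S
      - (r' - r : ℝ≥0) * gen K
        ((fun (r : ℝ≥0) (S : Finset I) => ∫ ω, Z ω * wal S (Y (s + r) ω) ∂μ) r) S| ≤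
      Cst M S.card * (r' - r : ℝ≥0) ^ 2 := by
  intro r r' hrr S
  have h := one_step hD hM S (wal S) (measurable_wal S) (fun y => (abs_wal S y).le)
    (dependsOn_wal S) (s + r) (s + r') (by gcongr) Z (hZ.mono (𝓕.mono (by simp)) le_rfl) hZ1
  have h1 : s + r' - (s + r) = r' - r := add_tsub_add_eq_tsub_left s r' r
  rw [h1] at h
  simp_rw [wal_swc] at h
  exact h

lemma ExclData.abs_corr (Z : Ω → ℝ) (hZ1 : ∀ ω, |Z ω| ≤ 1) (s r : ℝ≥0) (S : Finset I) :
    |∫ ω, Z ω * wal S (Y (s + r) ω) ∂μ| ≤ 1 :=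
  abs_integral_le_one fun ω => by
    rw [abs_mul, abs_wal, mul_one]; exact hZ1 ω

/-- uniqueness of the evolution -/
lemma ExclData.unique (hD : ExclData K μ 𝓕 N Y)
    (hM : ∀ x, ∑' y, (K.P x y : ℝ≥0∞) ≤ M) (s s' : ℝ≥0)
    (Z Z' : Ω → ℝ) (hZ : Measurable[𝓕 s] Z) (hZ1 : ∀ ω, |Z ω| ≤ 1)
    (hZ' : Measurable[𝓕 s'] Z') (hZ1' : ∀ ω, |Z' ω| ≤ 1)
    (h0 : ∀ S : Finset I, ∫ ω, Z ω * wal S (Y s ω) ∂μ = ∫ ω, Z' ω * wal S (Y s' ω) ∂μ)
    (r : ℝ≥0) (S : Finset I) :
    ∫ ω, Z ω * wal S (Y (s + r) ω) ∂μ = ∫ ω, Z' ω * wal S (Y (s' + r) ω) ∂μ := by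
  have h1 := euler_tendsto hM (fun (r : ℝ≥0) (S : Finset I) => ∫ ω, Z ω * wal S (Y (s + r) ω) ∂μ)
    (fun r S => ExclData.abs_corr Z hZ1 s r S) (hD.evol hM s Z hZ hZ1) r S
  have h2 := euler_tendsto hM (fun (r : ℝ≥0) (S : Finset I) => ∫ ω, Z' ω * wal S (Y (s' + r) ω) ∂μ)
    (fun r S => ExclData.abs_corr Z' hZ1' s' r S) (hD.evol hM s' Z' hZ' hZ1') r S
  have h3 : (fun S : Finset I => ∫ ω, Z ω * wal S (Y (s + 0) ω) ∂μ) =
      fun S : Finset I => ∫ ω, Z' ω * wal S (Y (s' + 0) ω) ∂μ := by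
    ext S; simp only [add_zero]; exact h0 S
  rw [h3] at h1
  exact tendsto_nhds_unique h1 h2

/-- stationarity -/
lemma ExclData.stationary (hD : ExclData K μ 𝓕 N Y)
    (hM : ∀ x, ∑' y, (K.P x y : ℝ≥0∞) ≤ M) (h0 : μ.map (Y 0) = fair I) (t : ℝ≥0) :
    μ.map (Y t) = fair I := by
  classical
  have hY := hD.measurable_Y
  haveI : IsProbabilityMeasure (μ.map (Y t)) := Measure.isProbabilityMeasure_map (hY t).aemeasurable
  apply ext_config
  intro S
  rw [integral_map (hY t).aemeasurable (measurable_wal S).aestronglyMeasurable,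
    integral_wal_fair']
  have h1 := euler_tendsto hM (fun (r : ℝ≥0) (S : Finset I) => ∫ ω, 1 * wal S (Y (0 + r) ω) ∂μ)
    (fun r S => ExclData.abs_corr (fun _ => 1) (by simp) 0 r S)
    (hD.evol hM 0 (fun _ => 1) measurable_const (by simp)) t S
  have h2 := euler_tendsto hM (fun (_ : ℝ≥0) (S : Finset I) => if S = ∅ then (1:ℝ) else 0)
    (fun r S => by split_ifs <;> simp) (by
      intro r r' _ S
      have : gen K (fun S : Finset I => if S = ∅ then (1:ℝ) else 0) S = 0 := by
        unfold gen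
        have : ∀ e : Sym2 I, (act e S = ∅) ↔ S = ∅ := by
          intro e; rw [← Finset.card_eq_zero, act_card, Finset.card_eq_zero]
        simp [this]
      rw [this]
      simp only [sub_self, mul_zero, abs_zero]
      exact mul_nonneg (Cst_nonneg _ _) (sq_nonneg _)) t S
  have h3 : (fun S : Finset I => ∫ ω, 1 * wal S (Y (0 + 0) ω) ∂μ) =
      fun S : Finset I => if S = ∅ then (1:ℝ) else 0 := by
    ext S
    simp only [one_mul, add_zero]
    rw [← integral_wal_fair', ← h0, integral_map (hY 0).aemeasurable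
      (measurable_wal S).aestronglyMeasurable]
  rw [h3] at h1
  have h4 := tendsto_nhds_unique h1 h2
  simpa using h4

/-- the correlation of characters at two times, as a limit of symmetric matrices -/
lemma ExclData.corr_tendsto [DecidableEq (Finset I)] (hD : ExclData K μ 𝓕 N Y)
    (hM : ∀ x, ∑' y, (K.P x y : ℝ≥0∞) ≤ M) (h0 : μ.map (Y 0) = fair I) (s r : ℝ≥0)
    (S S' : Finset I) :
    Tendsto (fun n : ℕ => (step K (r / n : ℝ≥0))^[n] (fun U' => if S = U' then 1 else 0) S') atTop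
      (𝓝 (∫ ω, wal S (Y s ω) * wal S' (Y (s + r) ω) ∂μ)) := by
  classical
  have hY := hD.measurable_Y
  have h1 := euler_tendsto hM
    (fun (r : ℝ≥0) (S' : Finset I) => ∫ ω, wal S (Y s ω) * wal S' (Y (s + r) ω) ∂μ)
    (fun r S' => ExclData.abs_corr (fun ω => wal S (Y s ω)) (fun ω => (abs_wal S _).le) s r S')
    (hD.evol hM s (fun ω => wal S (Y s ω)) ((measurable_wal S).comp (hD.adapted s))
      (fun ω => (abs_wal S _).le)) r S'
  have h3 : (fun S' : Finset I => ∫ ω, wal S (Y s ω) * wal S' (Y (s + 0) ω) ∂μ) =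
      fun U' => if S = U' then 1 else 0 := by
    ext S'
    simp only [add_zero]
    have : ∀ ω, wal S (Y s ω) * wal S' (Y s ω) = wal (symmDiff S S') (Y s ω) :=
      fun ω => chi_mul_chi _ S S' _
    simp_rw [this]
    rw [← integral_map (hY s).aemeasurable (measurable_wal _).aestronglyMeasurable,
      hD.stationary hM h0 s, integral_wal_fair']
    have h5 : symmDiff S S' = ∅ ↔ S = S' := by
      rw [← Finset.bot_eq_empty, symmDiff_eq_bot]
    simp only [h5]
  rw [h3] at h1
  exact h1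

lemma ExclData.pair_symm (hD : ExclData K μ 𝓕 N Y)
    (hM : ∀ x, ∑' y, (K.P x y : ℝ≥0∞) ≤ M) (h0 : μ.map (Y 0) = fair I) (s r : ℝ≥0) :
    (μ.map fun ω => (Y s ω, Y (s + r) ω)).map Prod.swap = μ.map fun ω => (Y s ω, Y (s + r) ω) := by
  classical
  have hY := hD.measurable_Y
  have hp : Measurable fun ω => (Y s ω, Y (s + r) ω) := (hY s).prodMk (hY (s + r))
  haveI : IsProbabilityMeasure (μ.map fun ω => (Y s ω, Y (s + r) ω)) :=
    Measure.isProbabilityMeasure_map hp.aemeasurable
  haveI : IsProbabilityMeasure ((μ.map fun ω => (Y s ω, Y (s + r) ω)).map Prod.swap) :=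
    Measure.isProbabilityMeasure_map measurable_swap.aemeasurable
  apply ext_pair
  intro S S'
  have hm : Measurable fun z : (I → Bool) × (I → Bool) => wal S z.1 * wal S' z.2 :=
    ((measurable_wal S).comp measurable_fst).mul ((measurable_wal S').comp measurable_snd)
  have hm' : Measurable fun z : (I → Bool) × (I → Bool) => wal S z.swap.1 * wal S' z.swap.2 :=
    hm.comp measurable_swap
  rw [integral_map measurable_swap.aemeasurable hm.aestronglyMeasurable,
    integral_map hp.aemeasurable hm'.aestronglyMeasurable,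
    integral_map hp.aemeasurable hm.aestronglyMeasurable]
  have h1 := hD.corr_tendsto hM h0 s r S S'
  have h2 := hD.corr_tendsto hM h0 s r S' S
  have h3 : ∀ n : ℕ, (step K (r / n : ℝ≥0))^[n] (fun U' => if S = U' then 1 else 0) S' =
      (step K (r / n : ℝ≥0))^[n] (fun U' => if S' = U' then 1 else 0) S := fun n =>
    euler_symm hM _ (NNReal.coe_nonneg _) n S S'
  simp_rw [h3] at h1
  have h4 := tendsto_nhds_unique h2 h1
  simp only [Prod.swap]
  rw [← h4]
  congr 1; ext ω; ring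

lemma ExclData.pair_homog (hD : ExclData K μ 𝓕 N Y)
    (hM : ∀ x, ∑' y, (K.P x y : ℝ≥0∞) ≤ M) (h0 : μ.map (Y 0) = fair I) (s r : ℝ≥0) :
    (μ.map fun ω => (Y s ω, Y (s + r) ω)) = μ.map fun ω => (Y 0 ω, Y r ω) := by
  classical
  have hY := hD.measurable_Y
  have hp : Measurable fun ω => (Y s ω, Y (s + r) ω) := (hY s).prodMk (hY (s + r))
  have hp' : Measurable fun ω => (Y 0 ω, Y r ω) := (hY 0).prodMk (hY r)
  haveI : IsProbabilityMeasure (μ.map fun ω => (Y s ω, Y (s + r) ω)) :=
    Measure.isProbabilityMeasure_map hp.aemeasurable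
  haveI : IsProbabilityMeasure (μ.map fun ω => (Y 0 ω, Y r ω)) :=
    Measure.isProbabilityMeasure_map hp'.aemeasurable
  apply ext_pair
  intro S S'
  have hm : Measurable fun z : (I → Bool) × (I → Bool) => wal S z.1 * wal S' z.2 :=
    ((measurable_wal S).comp measurable_fst).mul ((measurable_wal S').comp measurable_snd)
  rw [integral_map hp.aemeasurable hm.aestronglyMeasurable,
    integral_map hp'.aemeasurable hm.aestronglyMeasurable]
  have h1 := hD.corr_tendsto hM h0 s r S S'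
  have h2 := hD.corr_tendsto hM h0 0 r S S'
  rw [zero_add] at h2
  exact tendsto_nhds_unique h1 h2

/-- Markov property in weak form: `Z` may be replaced by its conditional expectation `H (Y s)`. -/
lemma ExclData.transfer (hD : ExclData K μ 𝓕 N Y)
    (hM : ∀ x, ∑' y, (K.P x y : ℝ≥0∞) ≤ M) (s r : ℝ≥0)
    (Z : Ω → ℝ) (hZ : Measurable[𝓕 s] Z) (hZ1 : ∀ ω, 0 ≤ Z ω ∧ Z ω ≤ 1)
    (H : (I → Bool) → ℝ) (hH : Measurable H) (hH1 : ∀ y, 0 ≤ H y ∧ H y ≤ 1)
    (hZH : ∀ g : (I → Bool) → ℝ, BM g → ∫ ω, Z ω * g (Y s ω) ∂μ = ∫ ω, H (Y s ω) * g (Y s ω) ∂μ)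
    (f : (I → Bool) → ℝ) (hf : BM f) :
    ∫ ω, Z ω * f (Y (s + r) ω) ∂μ = ∫ ω, H (Y s ω) * f (Y (s + r) ω) ∂μ := by
  have hY := hD.measurable_Y
  have hZm : Measurable Z := hZ.mono (𝓕.le s) le_rfl
  have hHm : Measurable fun ω => H (Y s ω) := hH.comp (hY s)
  have habsZ : ∀ ω, |Z ω| ≤ 1 := fun ω => by rw [abs_of_nonneg (hZ1 ω).1]; exact (hZ1 ω).2
  have habsH : ∀ ω, |H (Y s ω)| ≤ 1 := fun ω => by
    rw [abs_of_nonneg (hH1 _).1]; exact (hH1 _).2
  have hgen : ∀ (W : Ω → ℝ) (_ : Measurable W) (_ : ∀ ω, 0 ≤ W ω ∧ W ω ≤ 1)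
      (g : (I → Bool) → ℝ) (_ : Measurable g),
      ∫ y, g y ∂((μ.withDensity fun ω => ENNReal.ofReal (W ω)).map (Y (s + r))) =
      ∫ ω, W ω * g (Y (s + r) ω) ∂μ := by
    intro W hW hW1 g hg
    rw [integral_map (hY _).aemeasurable hg.aestronglyMeasurable,
      integral_withDensity_eq_integral_toReal_smul hW.ennreal_ofReal
        (ae_of_all _ fun ω => ENNReal.ofReal_lt_top)]
    congr 1; ext ω
    rw [ENNReal.toReal_ofReal (hW1 ω).1, smul_eq_mul]
  have hfin : ∀ (W : Ω → ℝ) (_ : ∀ ω, 0 ≤ W ω ∧ W ω ≤ 1),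
      IsFiniteMeasure (μ.withDensity fun ω => ENNReal.ofReal (W ω)) := by
    intro W hW1
    apply isFiniteMeasure_withDensity
    refine ne_top_of_le_ne_top (b := 1) ENNReal.one_ne_top ?_
    calc ∫⁻ ω, ENNReal.ofReal (W ω) ∂μ ≤ ∫⁻ ω, 1 ∂μ := by
          apply lintegral_mono; intro ω
          show ENNReal.ofReal (W ω) ≤ 1
          rw [← ENNReal.ofReal_one]
          exact ENNReal.ofReal_le_ofReal (hW1 ω).2
      _ = 1 := by simp
  haveI i1 := hfin Z hZ1
  haveI i2 := hfin (fun ω => H (Y s ω)) (fun ω => hH1 _)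
  haveI j1 : IsFiniteMeasure ((μ.withDensity fun ω => ENNReal.ofReal (Z ω)).map (Y (s + r))) :=
    Measure.isFiniteMeasure_map _ _
  haveI j2 : IsFiniteMeasure
      ((μ.withDensity fun ω => ENNReal.ofReal (H (Y s ω))).map (Y (s + r))) :=
    Measure.isFiniteMeasure_map _ _
  have heq : (μ.withDensity fun ω => ENNReal.ofReal (Z ω)).map (Y (s + r)) =
      (μ.withDensity fun ω => ENNReal.ofReal (H (Y s ω))).map (Y (s + r)) := by
    apply ext_config
    intro S
    rw [hgen Z hZm hZ1 _ (measurable_wal S),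
      hgen (fun ω => H (Y s ω)) hHm (fun ω => hH1 _) _ (measurable_wal S)]
    exact hD.unique hM s s Z (fun ω => H (Y s ω)) hZ habsZ (hH.comp (hD.adapted s)) habsH
      (fun S => hZH _ (bm_wal S)) r S
  rw [← hgen Z hZm hZ1 f hf.1, heq, hgen (fun ω => H (Y s ω)) hHm (fun ω => hH1 _) f hf.1]

/-- The probability that the skeleton avoids the set is given by the killed semigroup. -/
theorem ExclData.avoid (hD : ExclData K μ 𝓕 N Y)
    (hM : ∀ x, ∑' y, (K.P x y : ℝ≥0∞) ≤ M) (h0 : μ.map (Y 0) = fair I) (δ : ℝ≥0)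
    (π : Measure ((I → Bool) × (I → Bool))) [IsProbabilityMeasure π]
    (hπ : π = μ.map fun ω => (Y 0 ω, Y δ ω))
    (h : (I → Bool) → ℝ) (hh : Measurable h) (h01 : ∀ x, h x = 0 ∨ h x = 1) (n : ℕ)
    (g : (I → Bool) → ℝ) (hg : BM g) :
    ∫ ω, (∏ j ∈ Finset.range (n + 1), h (Y (j * δ) ω)) * g (Y (n * δ) ω) ∂μ =
      ∫ y, killed (Pop π) h n y * g y ∂fair I := by
  have hY := hD.measurable_Y
  have hpm : Measurable fun ω => (Y 0 ω, Y δ ω) := (hY 0).prodMk (hY δ)
  have hsw : π.map Prod.swap = π := by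
    have := hD.pair_symm hM h0 0 δ
    rw [zero_add] at this
    rw [hπ]; exact this
  have hfst : π.fst = fair I := by
    rw [hπ, Measure.fst_map_prodMk (hY δ), h0]
  have hP : RevOp (fair I) (Pop π) := hfst ▸ revOp_of_symm π hsw
  have hhb : BM h := BM.of_abs_le hh (B := 1) fun x => by rcases h01 x with h | h <;> simp [h]
  induction n generalizing g with
  | zero =>
    simp only [zero_add, Finset.range_one, Finset.prod_singleton, Nat.cast_zero, zero_mul, killed]
    rw [← h0, integral_map (hY 0).aemeasurable (hhb.mul hg).1.aestronglyMeasurable]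
  | succ n ih =>
    have e1 : ∀ ω, (∏ j ∈ Finset.range (n + 1 + 1), h (Y (j * δ) ω)) * g (Y ((n + 1 : ℕ) * δ) ω) =
        (∏ j ∈ Finset.range (n + 1), h (Y (j * δ) ω)) *
          (fun y => h y * g y) (Y (n * δ + δ) ω) := by
      intro ω
      rw [Finset.prod_range_succ]
      have : ((n + 1 : ℕ) : ℝ≥0) * δ = n * δ + δ := by push_cast; ring
      rw [this]; ring
    simp_rw [e1]
    have hZmem : ∀ ω, 0 ≤ (∏ j ∈ Finset.range (n + 1), h (Y (j * δ) ω)) ∧
        (∏ j ∈ Finset.range (n + 1), h (Y (j * δ) ω)) ≤ 1 := by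
      intro ω
      constructor
      · exact Finset.prod_nonneg fun j _ => by rcases h01 (Y (j * δ) ω) with h | h <;> simp [h]
      · exact Finset.prod_le_one (fun j _ => by rcases h01 (Y (j * δ) ω) with h | h <;> simp [h])
          (fun j _ => by rcases h01 (Y (j * δ) ω) with h | h <;> simp [h])
    have hZmeas : Measurable[𝓕 (n * δ)] fun ω => ∏ j ∈ Finset.range (n + 1), h (Y (j * δ) ω) := by
      apply Finset.measurable_fun_prod
      intro j hj
      have hjn : (j : ℝ≥0) * δ ≤ n * δ := by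
        gcongr
        exact Nat.lt_succ_iff.1 (Finset.mem_range.1 hj)
      exact hh.comp ((hD.adapted (j * δ)).mono (𝓕.mono hjn) le_rfl)
    have hk := killed_bm hP hhb n
    have hk1 := killed_mem hP hhb h01 n
    rw [hD.transfer hM (n * δ) δ _ hZmeas hZmem (killed (Pop π) h n) hk.1 hk1 _
      (fun y => h y * g y) (hhb.mul hg)]
    · -- time homogeneity, symmetry
      have e2 : ∫ ω, killed (Pop π) h n (Y (n * δ) ω) * (fun y => h y * g y) (Y (n * δ + δ) ω) ∂μ =
          ∫ p, killed (Pop π) h n p.1 * (h p.2 * g p.2) ∂π := by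
        have hπ' : π = μ.map fun ω => (Y (n * δ) ω, Y (n * δ + δ) ω) := by
          rw [hπ, hD.pair_homog hM h0 (n * δ) δ]
        have hF : AEStronglyMeasurable (fun p : (I → Bool) × (I → Bool) =>
            killed (Pop π) h n p.1 * (h p.2 * g p.2))
            (μ.map fun ω => (Y (n * δ) ω, Y (n * δ + δ) ω)) :=
          ((hk.comp measurable_fst).mul ((hhb.mul hg).comp measurable_snd)).1.aestronglyMeasurable
        have h5 := integral_map ((hY (n * δ)).prodMk (hY (n * δ + δ))).aemeasurable hF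
        rw [← hπ'] at h5
        exact h5.symm
      rw [e2, ← Pop_integral π _ (fun y => h y * g y) hk (hhb.mul hg), hfst,
        hP.symm _ (fun y => h y * g y) hk (hhb.mul hg)]
      congr 1; ext y
      simp only [killed]; ring
    · intro g' hg'
      rw [ih g' hg', ← hD.stationary hM h0 (n * δ), integral_map (hY _).aemeasurable
        (hk.mul hg').1.aestronglyMeasurable]

end law

end Pool.Agent.H.MP_20d613_pr
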