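import Mathlib

open MeasureTheory ProbabilityTheory Filter Topology Set
open scoped ENNReal NNReal

set_option linter.unusedSectionVars false

namespace Pool.Agent.H.MP_20d613_pr

/-- bounded measurable real functions -/
def BM {E : Type*} [MeasurableSpace E] (f : E → ℝ) : Prop := Measurable f ∧ ∃ B, ∀ x, |f x| ≤ B

namespace BM
variable {E : Type*} [MeasurableSpace E] {f g : E → ℝ}

lemma const (c : ℝ) : BM (fun _ : E => c) := ⟨measurable_const, |c|, fun _ => le_rfl⟩

lemma add (hf : BM f) (hg : BM g) : BM (fun x => f x + g x) := by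
  obtain ⟨hf, B, hB⟩ := hf
  obtain ⟨hg, C, hC⟩ := hg
  exact ⟨hf.add hg, B + C, fun x => (abs_add_le _ _).trans (add_le_add (hB x) (hC x))⟩

lemma mul (hf : BM f) (hg : BM g) : BM (fun x => f x * g x) := by
  obtain ⟨hf, B, hB⟩ := hf
  obtain ⟨hg, C, hC⟩ := hg
  refine ⟨hf.mul hg, B * C, fun x => ?_⟩
  rw [abs_mul]
  exact mul_le_mul (hB x) (hC x) (abs_nonneg _) ((abs_nonneg _).trans (hB x))

lemma smul (c : ℝ) (hf : BM f) : BM (fun x => c * f x) := (BM.const c).mul hf

lemma neg (hf : BM f) : BM (fun x => - f x) := by simpa using hf.smul (-1)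

lemma sub (hf : BM f) (hg : BM g) : BM (fun x => f x - g x) := by
  simpa [sub_eq_add_neg] using hf.add hg.neg

lemma sum {ι : Type*} (s : Finset ι) {F : ι → E → ℝ} (h : ∀ i ∈ s, BM (F i)) :
    BM (fun x => ∑ i ∈ s, F i x) := by
  classical
  induction s using Finset.induction_on with
  | empty => simpa using BM.const (E := E) 0
  | insert a s ha ih =>
    simp only [Finset.sum_insert ha]
    exact (h a (Finset.mem_insert_self _ _)).add (ih fun i hi => h i (Finset.mem_insert_of_mem hi))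

lemma prod {ι : Type*} (s : Finset ι) {F : ι → E → ℝ} (h : ∀ i ∈ s, BM (F i)) :
    BM (fun x => ∏ i ∈ s, F i x) := by
  classical
  induction s using Finset.induction_on with
  | empty => simpa using BM.const (E := E) 1
  | insert a s ha ih =>
    simp only [Finset.prod_insert ha]
    exact (h a (Finset.mem_insert_self _ _)).mul (ih fun i hi => h i (Finset.mem_insert_of_mem hi))

lemma integrable (hf : BM f) (m : Measure E) [IsFiniteMeasure m] : Integrable f m := by
  obtain ⟨hf, B, hB⟩ := hf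
  exact Integrable.of_bound hf.aestronglyMeasurable B (ae_of_all _ hB)

lemma int_add (m : Measure E) [IsFiniteMeasure m] (hf : BM f) (hg : BM g) :
    ∫ x, (f x + g x) ∂m = ∫ x, f x ∂m + ∫ x, g x ∂m :=
  integral_add (hf.integrable m) (hg.integrable m)

lemma int_sub (m : Measure E) [IsFiniteMeasure m] (hf : BM f) (hg : BM g) :
    ∫ x, (f x - g x) ∂m = ∫ x, f x ∂m - ∫ x, g x ∂m :=
  integral_sub (hf.integrable m) (hg.integrable m)

lemma sq (hf : BM f) : BM (fun x => f x ^ 2) := by simpa [_root_.sq] using hf.mul hf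

lemma comp {E' : Type*} [MeasurableSpace E'] (hf : BM f) {φ : E' → E} (hφ : Measurable φ) :
    BM (fun x => f (φ x)) := by
  obtain ⟨hf, B, hB⟩ := hf
  exact ⟨hf.comp hφ, B, fun x => hB _⟩

lemma of_abs_le (hf : Measurable f) {B : ℝ} (h : ∀ x, |f x| ≤ B) : BM f := ⟨hf, B, h⟩

end BM

/-- A symmetric Markov operator on bounded measurable functions. -/
structure RevOp {E : Type*} [MeasurableSpace E] (m : Measure E) (P : (E → ℝ) → (E → ℝ)) :
    Prop where
  bm : ∀ f, BM f → BM (P f)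
  pos : ∀ f, BM f → (∀ x, 0 ≤ f x) → ∀ x, 0 ≤ P f x
  add : ∀ f g, BM f → BM g → ∀ x, P (fun x => f x + g x) x = P f x + P g x
  smul : ∀ (c : ℝ) f, BM f → ∀ x, P (fun x => c * f x) x = c * P f x
  one : ∀ x, P (fun _ => 1) x = 1
  symm : ∀ f g, BM f → BM g → ∫ x, f x * P g x ∂m = ∫ x, g x * P f x ∂m
  contr : ∀ f, BM f → ∫ x, f x * P f x ∂m ≤ ∫ x, f x ^ 2 ∂m

section
variable {E : Type*} [MeasurableSpace E] {m : Measure E} [IsProbabilityMeasure m]
  {P : (E → ℝ) → (E → ℝ)}

lemma RevOp.le_one (hP : RevOp m P) (f : E → ℝ) (hf : BM f) (h1 : ∀ x, f x ≤ 1) :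
    ∀ x, P f x ≤ 1 := by
  intro x
  have h2 := hP.pos (fun x => 1 + (-1) * f x) ((BM.const 1).add (hf.smul (-1)))
    (fun x => by linarith [h1 x]) x
  rw [hP.add _ _ (BM.const 1) (hf.smul (-1)), hP.one, hP.smul _ _ hf] at h2
  linarith

/-- the killed iterates: `Hit 0 = h`, `Hit (n+1) = h * P (Hit n)`, where `h` is the indicator of
the complement of the target set. -/
noncomputable def killed (P : (E → ℝ) → (E → ℝ)) (h : E → ℝ) : ℕ → E → ℝ
  | 0 => h
  | n + 1 => fun x => h x * P (killed P h n) x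

noncomputable def green (P : (E → ℝ) → (E → ℝ)) (h : E → ℝ) (ρ : ℝ) (N : ℕ) : E → ℝ :=
  fun x => ∑ n ∈ Finset.range N, ρ ^ n * killed P h n x

variable {h : E → ℝ}

lemma killed_bm (hP : RevOp m P) (hh : BM h) (n : ℕ) : BM (killed P h n) := by
  induction n with
  | zero => exact hh
  | succ n ih => exact hh.mul (hP.bm _ ih)

lemma killed_mem (hP : RevOp m P) (hh : BM h) (h01 : ∀ x, h x = 0 ∨ h x = 1) (n : ℕ) (x : E) :
    0 ≤ killed P h n x ∧ killed P h n x ≤ 1 := by
  induction n generalizing x with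
  | zero => rcases h01 x with h | h <;> simp [killed, h]
  | succ n ih =>
    have h1 := hP.pos _ (killed_bm hP hh n) (fun x => (ih x).1) x
    have h2 := hP.le_one _ (killed_bm hP hh n) (fun x => (ih x).2) x
    simp only [killed]
    rcases h01 x with h | h <;> simp [h, h1, h2]

lemma green_bm (hP : RevOp m P) (hh : BM h) (ρ : ℝ) (N : ℕ) : BM (green P h ρ N) :=
  BM.sum _ fun n _ => (killed_bm hP hh n).smul _

lemma RevOp.sum (hP : RevOp m P) {ι : Type*} (s : Finset ι) (F : ι → E → ℝ)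
    (hF : ∀ i ∈ s, BM (F i)) (x : E) :
    P (fun x => ∑ i ∈ s, F i x) x = ∑ i ∈ s, P (F i) x := by
  classical
  induction s using Finset.induction_on with
  | empty =>
    simp only [Finset.sum_empty]
    have := hP.smul 0 (fun _ => 0) (BM.const 0) x
    simpa using this
  | insert a s ha ih =>
    simp only [Finset.sum_insert ha]
    rw [hP.add _ _ (hF a (Finset.mem_insert_self _ _))
      (BM.sum _ fun i hi => hF i (Finset.mem_insert_of_mem hi)),
      ih fun i hi => hF i (Finset.mem_insert_of_mem hi)]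

/-- resolvent identity tested against functions vanishing on the target set -/
lemma green_resolvent (hP : RevOp m P) (hh : BM h) (h01 : ∀ x, h x = 0 ∨ h x = 1) (ρ : ℝ) (N : ℕ)
    (g : E → ℝ) (hg : BM g) (hgh : ∀ x, g x = h x * g x) :
    ∫ x, g x * green P h ρ N x ∂m - ρ * ∫ x, g x * P (green P h ρ N) x ∂m
      = ∫ x, g x ∂m - ρ ^ N * ∫ x, g x * killed P h N x ∂m := by
  have e1 : ∫ x, g x * green P h ρ N x ∂m
      = ∑ n ∈ Finset.range N, ρ ^ n * ∫ x, g x * killed P h n x ∂m := by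
    simp only [green, Finset.mul_sum]
    rw [integral_finsetSum]
    · apply Finset.sum_congr rfl
      intro n _
      rw [← integral_const_mul]
      congr 1; ext x; ring
    · intro n _
      exact (hg.mul ((killed_bm hP hh n).smul _)).integrable m
  have e2 : ∫ x, g x * P (green P h ρ N) x ∂m
      = ∑ n ∈ Finset.range N, ρ ^ n * ∫ x, g x * killed P h (n+1) x ∂m := by
    have : ∀ x, g x * P (green P h ρ N) x =
        ∑ n ∈ Finset.range N, ρ ^ n * (g x * killed P h (n+1) x) := by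
      intro x
      unfold green
      rw [hP.sum _ _ (fun n _ => (killed_bm hP hh n).smul _), Finset.mul_sum]
      apply Finset.sum_congr rfl
      intro n _
      rw [hP.smul _ _ (killed_bm hP hh n)]
      simp only [killed]
      have : g x = g x * h x := by rw [mul_comm]; exact hgh x
      rw [this]
      have hhh : h x * h x = h x := by rcases h01 x with h | h <;> simp [h]
      linear_combination (-ρ ^ n * g x * P (killed P h n) x) * hhh
    simp_rw [this]
    rw [integral_finsetSum]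
    · apply Finset.sum_congr rfl
      intro n _
      rw [integral_const_mul]
    · intro n _
      exact ((hg.mul (killed_bm hP hh (n+1))).smul _).integrable m
  rw [e1, e2, Finset.mul_sum, ← Finset.sum_sub_distrib]
  have e3 : ∀ n ∈ Finset.range N, ρ ^ n * ∫ x, g x * killed P h n x ∂m -
      ρ * (ρ ^ n * ∫ x, g x * killed P h (n+1) x ∂m) =
      (fun n => ρ ^ n * ∫ x, g x * killed P h n x ∂m) n
        - (fun n => ρ ^ n * ∫ x, g x * killed P h n x ∂m) (n+1) := by
    intro n _
    simp only [pow_succ]; ring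
  rw [Finset.sum_congr rfl e3, Finset.sum_range_sub']
  simp only [pow_zero, one_mul, killed]
  congr 1
  congr 1; ext x
  rw [mul_comm]; exact (hgh x).symm

/-- upper bound for the hitting functional by the energy of any test function -/
theorem potential_upper (hP : RevOp m P) (hh : BM h) (h01 : ∀ x, h x = 0 ∨ h x = 1)
    (ρ : ℝ) (hρ0 : 0 ≤ ρ) (hρ1 : ρ < 1) (N : ℕ) (u : E → ℝ) (hu : BM u)
    (hu1 : ∀ x, h x = 0 → u x = 1) (hu01 : ∀ x, 0 ≤ u x ∧ u x ≤ 1) :
    (1 - ρ) * (1 - (1 - ρ) * ∑ n ∈ Finset.range N, ρ ^ n * ∫ x, killed P h n x ∂m)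
      ≤ (1 - ρ) * ∫ x, u x ^ 2 ∂m + ρ * (∫ x, u x ^ 2 ∂m - ∫ x, u x * P u x ∂m)
        + 2 * (1 - ρ) * ρ ^ N := by
  set w : E → ℝ := fun x => (1 - ρ)⁻¹ * (1 - u x) with hw
  have hρ' : 0 < 1 - ρ := by linarith
  have hwb : BM w := ((BM.const 1).sub hu).smul _
  set z := green P h ρ N with hz
  have hzb : BM z := green_bm hP hh ρ N
  have hwh : ∀ x, w x = h x * w x := by
    intro x
    rcases h01 x with h | h
    · simp [hw, hu1 x h]
    · rw [h, one_mul]
  have hzh : ∀ x, z x = h x * z x := by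
    intro x
    simp only [hz, green, Finset.mul_sum]
    apply Finset.sum_congr rfl
    intro n _
    have : killed P h n x = h x * killed P h n x := by
      cases n with
      | zero => rcases h01 x with h | h <;> simp [killed, h]
      | succ n => rcases h01 x with h | h <;> simp [killed, h]
    rw [this]
    rcases h01 x with h | h <;> simp [h]
  -- nonnegativity of the energy of z - w
  have hd : BM (fun x => z x + (-1) * w x) := hzb.add (hwb.smul (-1))
  have hpos : 0 ≤ ∫ x, (z x + (-1) * w x) ^ 2 ∂m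
      - ρ * ∫ x, (z x + (-1) * w x) * P (fun x => z x + (-1) * w x) x ∂m := by
    have h1 := hP.contr _ hd
    have h2 : 0 ≤ ∫ x, (z x + (-1) * w x) ^ 2 ∂m := integral_nonneg fun x => sq_nonneg _
    by_cases h3 : 0 ≤ ∫ x, (z x + (-1) * w x) * P (fun x => z x + (-1) * w x) x ∂m
    · nlinarith
    · push Not at h3
      nlinarith
  have iz := hzb.integrable m
  have ez := green_resolvent hP hh h01 ρ N z hzb hzh
  have ew := green_resolvent hP hh h01 ρ N w hwb hwh
  have expand1 : ∫ x, (z x + (-1) * w x) ^ 2 ∂m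
      = ∫ x, z x * z x ∂m - 2 * ∫ x, w x * z x ∂m + ∫ x, w x ^ 2 ∂m := by
    rw [← integral_const_mul, ← BM.int_sub m (hzb.mul hzb) ((hwb.mul hzb).smul 2),
      ← BM.int_add m ((hzb.mul hzb).sub ((hwb.mul hzb).smul 2)) hwb.sq]
    congr 1; ext x; ring
  have expand2 : ∫ x, (z x + (-1) * w x) * P (fun x => z x + (-1) * w x) x ∂m
      = ∫ x, z x * P z x ∂m - 2 * ∫ x, w x * P z x ∂m + ∫ x, w x * P w x ∂m := by
    have hs := hP.symm z w hzb hwb
    have b1 := (hzb.mul (hP.bm _ hzb))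
    have b2 := (hwb.mul (hP.bm _ hzb))
    have b2' := (hzb.mul (hP.bm _ hwb))
    have b3 := (hwb.mul (hP.bm _ hwb))
    have : ∫ x, (z x + (-1) * w x) * P (fun x => z x + (-1) * w x) x ∂m =
        ∫ x, z x * P z x ∂m - ∫ x, w x * P z x ∂m - ∫ x, z x * P w x ∂m + ∫ x, w x * P w x ∂m := by
      rw [← BM.int_sub m b1 b2, ← BM.int_sub m (b1.sub b2) b2',
        ← BM.int_add m ((b1.sub b2).sub b2') b3]
      congr 1; ext x
      rw [hP.add _ _ hzb (hwb.smul _), hP.smul _ _ hwb]; ring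
    rw [this, hs]; ring
  have hint : ∫ x, z x ∂m = ∑ n ∈ Finset.range N, ρ ^ n * ∫ x, killed P h n x ∂m := by
    simp only [hz, green]
    rw [integral_finsetSum _ fun n _ => ((killed_bm hP hh n).smul _).integrable m]
    exact Finset.sum_congr rfl fun n _ => by rw [integral_const_mul]
  have hzN : 0 ≤ ρ ^ N * ∫ x, z x * killed P h N x ∂m := by
    apply mul_nonneg (pow_nonneg hρ0 _)
    apply integral_nonneg
    intro x
    apply mul_nonneg _ (killed_mem hP hh h01 N x).1
    simp only [hz, green]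
    exact Finset.sum_nonneg fun n _ => mul_nonneg (pow_nonneg hρ0 _) (killed_mem hP hh h01 n x).1
  have hwN : ρ ^ N * ∫ x, w x * killed P h N x ∂m ≤ ρ ^ N * (1 - ρ)⁻¹ := by
    apply mul_le_mul_of_nonneg_left _ (pow_nonneg hρ0 _)
    have : ∫ x, w x * killed P h N x ∂m ≤ ∫ x, (1 - ρ)⁻¹ ∂m := by
      apply integral_mono ((hwb.mul (killed_bm hP hh N)).integrable m) (integrable_const _)
      intro x
      have h1 := killed_mem hP hh h01 N x
      have h2 := hu01 x
      simp only [hw]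
      have h3 : 0 ≤ (1 - ρ)⁻¹ := inv_nonneg.2 hρ'.le
      have h4 : (1 - u x) * killed P h N x ≤ 1 := by
        nlinarith [h1.1, h1.2, h2.1, h2.2]
      calc (1 - ρ)⁻¹ * (1 - u x) * killed P h N x = (1 - ρ)⁻¹ * ((1 - u x) * killed P h N x) := by ring
        _ ≤ (1 - ρ)⁻¹ * 1 := mul_le_mul_of_nonneg_left h4 h3
        _ = (1 - ρ)⁻¹ := mul_one _
    simpa using this
  -- energies of w in terms of u
  have iu := hu.integrable m
  have iu2 : Integrable (fun x => u x ^ 2) m := by simpa [sq] using (hu.mul hu).integrable m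
  have ewint : ∫ x, w x ∂m = (1 - ρ)⁻¹ * (1 - ∫ x, u x ∂m) := by
    simp only [hw]
    rw [integral_const_mul, integral_sub (integrable_const _) iu]
    simp
  have ew2 : ∫ x, w x ^ 2 ∂m = (1 - ρ)⁻¹ ^ 2 * (1 - 2 * ∫ x, u x ∂m + ∫ x, u x ^ 2 ∂m) := by
    simp only [hw]
    have : ∀ x, ((1 - ρ)⁻¹ * (1 - u x)) ^ 2 = (1 - ρ)⁻¹ ^ 2 * (1 - 2 * u x + u x ^ 2) := by
      intro x; ring
    simp_rw [this]
    rw [integral_const_mul, BM.int_add m ((BM.const 1).sub (hu.smul 2)) hu.sq,
      BM.int_sub m (BM.const 1) (hu.smul 2), integral_const_mul]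
    simp
  have ewP : ∫ x, w x * P w x ∂m
      = (1 - ρ)⁻¹ ^ 2 * (1 - 2 * ∫ x, u x ∂m + ∫ x, u x * P u x ∂m) := by
    have hPw : ∀ x, P w x = (1 - ρ)⁻¹ * (1 - P u x) := by
      intro x
      have : w = fun x => (1 - ρ)⁻¹ * ((fun _ => (1:ℝ)) x + (-1) * u x) := by
        ext x; simp only [hw]; ring
      rw [this, hP.smul _ _ ((BM.const 1).add (hu.smul _)), hP.add _ _ (BM.const 1) (hu.smul _),
        hP.one, hP.smul _ _ hu]
      ring
    have hs := hP.symm (fun _ => 1) u (BM.const 1) hu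
    simp only [hP.one, one_mul, mul_one] at hs
    have : ∀ x, w x * P w x = (1 - ρ)⁻¹ ^ 2 * (1 - u x - P u x + u x * P u x) := by
      intro x; rw [hPw]; simp only [hw]; ring
    simp_rw [this]
    have bPu := (hP.bm _ hu)
    have buPu := (hu.mul (hP.bm _ hu))
    rw [integral_const_mul, BM.int_add m (((BM.const 1).sub hu).sub bPu) buPu,
      BM.int_sub m ((BM.const 1).sub hu) bPu, BM.int_sub m (BM.const 1) hu, hs]
    simp
    ring_nf
    simp
  rw [expand1, expand2] at hpos
  have main : 0 ≤ ∫ x, z x ∂m - 2 * ∫ x, w x ∂m + 2 * (ρ ^ N * (1 - ρ)⁻¹)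
      + (∫ x, w x ^ 2 ∂m - ρ * ∫ x, w x * P w x ∂m) := by
    linarith
  rw [hint, ewint, ew2, ewP] at main
  have hinv : (1 - ρ) * (1 - ρ)⁻¹ = 1 := mul_inv_cancel₀ hρ'.ne'
  set q := (1 - ρ)⁻¹
  set S := ∑ n ∈ Finset.range N, ρ ^ n * ∫ x, killed P h n x ∂m
  set a := ∫ x, u x ∂m
  set b := ∫ x, u x ^ 2 ∂m
  set c := ∫ x, u x * P u x ∂m
  have main2 := mul_le_mul_of_nonneg_left main (sq_nonneg (1 - ρ))
  rw [mul_zero] at main2
  have key : (1 - ρ) ^ 2 * (S - 2 * (q * (1 - a)) + 2 * (ρ ^ N * q)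
      + (q ^ 2 * (1 - 2 * a + b) - ρ * (q ^ 2 * (1 - 2 * a + c))))
      = (1 - ρ) ^ 2 * S - 2 * (1 - ρ) * (1 - a) + 2 * (1 - ρ) * ρ ^ N
        + (1 - 2 * a + b) - ρ * (1 - 2 * a + c) := by
    linear_combination (-2 * (1 - ρ) * (1 - a) + 2 * (1 - ρ) * ρ ^ N
      + ((1 - 2 * a + b) - ρ * (1 - 2 * a + c)) * ((1 - ρ) * q + 1)) * hinv
  rw [key] at main2
  nlinarith

/-- the Green function gives the exact energy -/
theorem potential_lower (hP : RevOp m P) (hh : BM h) (h01 : ∀ x, h x = 0 ∨ h x = 1)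
    (ρ : ℝ) (hρ0 : 0 ≤ ρ) (hρ1 : ρ < 1) (N : ℕ) (u : E → ℝ)
    (hu : ∀ x, u x = 1 - (1 - ρ) * green P h ρ N x) :
    (1 - ρ) * ∫ x, u x ^ 2 ∂m + ρ * (∫ x, u x ^ 2 ∂m - ∫ x, u x * P u x ∂m)
    ≤ (1 - ρ) * (1 - (1 - ρ) * ∑ n ∈ Finset.range N, ρ ^ n * ∫ x, killed P h n x ∂m) := by
  have hρ' : 0 < 1 - ρ := by linarith
  set z := green P h ρ N with hz
  have hzb : BM z := green_bm hP hh ρ N
  have hzh : ∀ x, z x = h x * z x := by
    intro x
    simp only [hz, green, Finset.mul_sum]
    apply Finset.sum_congr rfl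
    intro n _
    have : killed P h n x = h x * killed P h n x := by
      cases n with
      | zero => rcases h01 x with h | h <;> simp [killed, h]
      | succ n => rcases h01 x with h | h <;> simp [killed, h]
    rw [this]
    rcases h01 x with h | h <;> simp [h]
  have ez := green_resolvent hP hh h01 ρ N z hzb hzh
  have hint : ∫ x, z x ∂m = ∑ n ∈ Finset.range N, ρ ^ n * ∫ x, killed P h n x ∂m := by
    simp only [hz, green]
    rw [integral_finsetSum _ fun n _ => ((killed_bm hP hh n).smul _).integrable m]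
    exact Finset.sum_congr rfl fun n _ => by rw [integral_const_mul]
  have hzN : 0 ≤ ρ ^ N * ∫ x, z x * killed P h N x ∂m := by
    apply mul_nonneg (pow_nonneg hρ0 _)
    apply integral_nonneg
    intro x
    apply mul_nonneg _ (killed_mem hP hh h01 N x).1
    simp only [hz, green]
    exact Finset.sum_nonneg fun n _ => mul_nonneg (pow_nonneg hρ0 _) (killed_mem hP hh h01 n x).1
  have hu' : u = fun x => (fun _ => (1:ℝ)) x + (-(1 - ρ)) * z x := by
    ext x; rw [hu x]; ring
  have iz := hzb.integrable m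
  have iz2 := (hzb.mul hzb).integrable m
  have izP := (hzb.mul (hP.bm _ hzb)).integrable m
  have iPz := (hP.bm _ hzb).integrable m
  have hs := hP.symm (fun _ => 1) z (BM.const 1) hzb
  simp only [hP.one, one_mul, mul_one] at hs
  have hPu : ∀ x, P u x = 1 - (1 - ρ) * P z x := by
    intro x
    rw [hu', hP.add _ _ (BM.const 1) (hzb.smul _), hP.one, hP.smul _ _ hzb]; ring
  have e1 : ∫ x, u x ^ 2 ∂m
      = 1 - 2 * (1 - ρ) * ∫ x, z x ∂m + (1 - ρ) ^ 2 * ∫ x, z x * z x ∂m := by
    have : ∀ x, u x ^ 2 = 1 - 2 * (1 - ρ) * z x + (1 - ρ) ^ 2 * (z x * z x) := by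
      intro x; rw [hu x]; ring
    simp_rw [this]
    rw [BM.int_add m ((BM.const 1).sub (hzb.smul _)) ((hzb.mul hzb).smul _),
      BM.int_sub m (BM.const 1) (hzb.smul _), integral_const_mul, integral_const_mul]
    simp
  have e2 : ∫ x, u x * P u x ∂m
      = 1 - 2 * (1 - ρ) * ∫ x, z x ∂m + (1 - ρ) ^ 2 * ∫ x, z x * P z x ∂m := by
    have : ∀ x, u x * P u x = 1 - (1 - ρ) * z x - (1 - ρ) * P z x
        + (1 - ρ) ^ 2 * (z x * P z x) := by
      intro x; rw [hPu x, hu x]; ring
    simp_rw [this]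
    rw [BM.int_add m (((BM.const 1).sub (hzb.smul _)).sub ((hP.bm _ hzb).smul _))
        ((hzb.mul (hP.bm _ hzb)).smul _),
      BM.int_sub m ((BM.const 1).sub (hzb.smul _)) ((hP.bm _ hzb).smul _),
      BM.int_sub m (BM.const 1) (hzb.smul _), integral_const_mul, integral_const_mul,
      integral_const_mul, hs]
    simp
    ring
  rw [e1, e2, ← hint]
  nlinarith [mul_nonneg (sq_nonneg (1 - ρ)) hzN]

end

end Pool.Agent.H.MP_20d613_pr
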