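import Pool.Agent.H.MP_20d613_pr.Poisson
import Pool.Agent.H.MP_20d613_pr.Potential

open MeasureTheory ProbabilityTheory Filter Topology Set
open scoped ENNReal NNReal

namespace Pool.Agent.H.MP_20d613_pr

/-- the data of an exclusion dynamics -/
structure ExclData {I Ω : Type*} {mΩ : MeasurableSpace Ω} (K : SwapKernel I) (μ : Measure Ω)
    (𝓕 : Filtration ℝ≥0 mΩ) (N : Sym2 I → ℝ≥0 → Ω → ℕ) (Y : ℝ≥0 → Ω → I → Bool) : Prop where
  clocks : PoissonClocks μ 𝓕 K.rate N
  adapted : ∀ t, Measurable[𝓕 t] (Y t)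
  good : ∀ᵐ ω ∂μ, GoodPath (fun e r => N e r ω) (fun r => Y r ω)

section
variable {I Ω : Type*} {mΩ : MeasurableSpace Ω} {K : SwapKernel I} {μ : Measure Ω}
  {𝓕 : Filtration ℝ≥0 mΩ} {N : Sym2 I → ℝ≥0 → Ω → ℕ} {Y : ℝ≥0 → Ω → I → Bool}
  {M : ℝ≥0}

/-- number of rings of the clock `e` during `(s, t]` -/
def Dn (N : Sym2 I → ℝ≥0 → Ω → ℕ) (s t : ℝ≥0) (e : Sym2 I) (ω : Ω) : ℕ := N e t ω - N e s ω

lemma ExclData.measurable_N (hD : ExclData K μ 𝓕 N Y) (e : Sym2 I) (t : ℝ≥0) :
    Measurable (N e t) := (hD.clocks.adapted e t).mono (𝓕.le t) le_rfl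

lemma ExclData.measurable_Y (hD : ExclData K μ 𝓕 N Y) (t : ℝ≥0) :
    Measurable (Y t) := (hD.adapted t).mono (𝓕.le t) le_rfl

lemma ExclData.measurable_D (hD : ExclData K μ 𝓕 N Y) (s t : ℝ≥0) (e : Sym2 I) :
    Measurable (Dn N s t e) := (hD.measurable_N e t).sub (hD.measurable_N e s)

lemma ExclData.map_D (hD : ExclData K μ 𝓕 N Y) (s t : ℝ≥0) (hst : s ≤ t) (e : Sym2 I) :
    μ.map (Dn N s t e) = poissonMeasure (K.rate e * (t - s)) :=
  hD.clocks.poisson e s t hst

lemma ExclData.meas_R (hD : ExclData K μ 𝓕 N Y) (s t : ℝ≥0) (e : Sym2 I) :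
    MeasurableSet {ω | Dn N s t e ω ≠ 0} :=
  (hD.measurable_D s t e) (t := {n | n ≠ 0}) (by measurability)

lemma ExclData.meas_R2 (hD : ExclData K μ 𝓕 N Y) (s t : ℝ≥0) (e : Sym2 I) :
    MeasurableSet {ω | 2 ≤ Dn N s t e ω} :=
  (hD.measurable_D s t e) (t := {n | 2 ≤ n}) (by measurability)

lemma ExclData.prob_R (hD : ExclData K μ 𝓕 N Y) (s t : ℝ≥0) (hst : s ≤ t) (e : Sym2 I) :
    μ {ω | Dn N s t e ω ≠ 0} = poissonMeasure (K.rate e * (t - s)) {n | n ≠ 0} := by
  rw [← hD.map_D s t hst e, Measure.map_apply (hD.measurable_D s t e) (by measurability)]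
  rfl

lemma ExclData.prob_R2 (hD : ExclData K μ 𝓕 N Y) (s t : ℝ≥0) (hst : s ≤ t) (e : Sym2 I) :
    μ {ω | 2 ≤ Dn N s t e ω} ≤ ((K.rate e * (t - s)) * (K.rate e * (t - s)) : ℝ≥0) := by
  have : μ {ω | 2 ≤ Dn N s t e ω} = poissonMeasure (K.rate e * (t - s)) {n | 2 ≤ n} := by
    rw [← hD.map_D s t hst e, Measure.map_apply (hD.measurable_D s t e) (by measurability)]
    rfl
  rw [this]; exact po_ge_two_le _

lemma ExclData.prob_R_le (hD : ExclData K μ 𝓕 N Y) (s t : ℝ≥0) (hst : s ≤ t) (e : Sym2 I) :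
    μ {ω | Dn N s t e ω ≠ 0} ≤ (K.rate e * (t - s) : ℝ≥0) := by
  rw [hD.prob_R s t hst e]; exact po_ne_zero_le _

lemma ExclData.prob_RR (hD : ExclData K μ 𝓕 N Y) (s t : ℝ≥0) (hst : s ≤ t) (e e' : Sym2 I)
    (hne : e ≠ e') :
    μ ({ω | Dn N s t e ω ≠ 0} ∩ {ω | Dn N s t e' ω ≠ 0}) ≤
      (K.rate e * (t - s) : ℝ≥0) * (K.rate e' * (t - s) : ℝ≥0) := by
  have hi : IndepFun (Dn N s t e) (Dn N s t e') μ := (hD.clocks.indep s t hst).indepFun hne
  have := hi.measure_inter_preimage_eq_mul {n | n ≠ 0} {n | n ≠ 0} (by measurability) (by measurability)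
  calc μ ({ω | Dn N s t e ω ≠ 0} ∩ {ω | Dn N s t e' ω ≠ 0})
      = μ {ω | Dn N s t e ω ≠ 0} * μ {ω | Dn N s t e' ω ≠ 0} := this
    _ ≤ _ := mul_le_mul' (hD.prob_R_le s t hst e) (hD.prob_R_le s t hst e')

/-- configuration after swapping -/
noncomputable def swc (e : Sym2 I) (y : I → Bool) : I → Bool := fun x => y (sw e x)

lemma measurable_swc (e : Sym2 I) : Measurable (swc e) :=
  measurable_pi_lambda _ fun x => measurable_pi_apply (sw e x)

lemma swc_of_not_touch {F : Finset I} {f : (I → Bool) → ℝ} (hdep : DependsOn f (F : Set I))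
    {e : Sym2 I} (h : ¬ touch F e) (y : I → Bool) : f (swc e y) = f y := by
  apply hdep
  intro x hx
  unfold swc
  rw [sw_of_notMem]
  intro hxe
  exact h ⟨x, hx, hxe⟩

/-- the error in the first order expansion -/
noncomputable def diffT (N : Sym2 I → ℝ≥0 → Ω → ℕ) (Y : ℝ≥0 → Ω → I → Bool)
    (f : (I → Bool) → ℝ) (s t : ℝ≥0) (e : Sym2 I) (ω : Ω) : ℝ :=
  {ω | Dn N s t e ω ≠ 0}.indicator (fun ω => f (swc e (Y s ω)) - f (Y s ω)) ω

open Classical in
noncomputable def theta (N : Sym2 I → ℝ≥0 → Ω → ℕ) (F : Finset I) (s t : ℝ≥0) (e : Sym2 I)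
    (ω : Ω) : ℝ≥0∞ :=
  if touch F e then {ω | Dn N s t e ω ≠ 0}.indicator 1 ω else 0

open Classical in
noncomputable def bad (N : Sym2 I → ℝ≥0 → Ω → ℕ) (F : Finset I) (s t : ℝ≥0) (e : Sym2 I)
    (ω : Ω) : ℝ≥0∞ :=
  {ω | 2 ≤ Dn N s t e ω}.indicator 1 ω +
    ∑' e', (if near F e e' then {ω | Dn N s t e' ω ≠ 0}.indicator (1 : Ω → ℝ≥0∞) ω else 0)

theorem pathwise_bound (ω : Ω) (hg : GoodPath (fun e r => N e r ω) (fun r => Y r ω))
    (F : Finset I) (f : (I → Bool) → ℝ) (hf1 : ∀ y, |f y| ≤ 1)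
    (hdep : DependsOn f (F : Set I)) (s t : ℝ≥0) (hst : s ≤ t) :
    ‖f (Y t ω) - f (Y s ω) - ∑' e, diffT N Y f s t e ω‖ₑ ≤
      4 * ∑' e, theta N F s t e ω * bad N F s t e ω := by
  classical
  have hD0 : ∀ e, Dn N s t e ω = 0 → N e s ω = N e t ω := by
    intro e he
    have := hg.mono e hst
    simp only [Dn] at he
    simp only at this
    omega
  have hT0 : ∀ e, ¬ touch F e → diffT N Y f s t e ω = 0 := by
    intro e he
    unfold diffT
    rw [indicator_apply]
    split_ifs
    · rw [swc_of_not_touch hdep he, sub_self]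
    · rfl
  by_cases hα : ∃ e, touch F e ∧ Dn N s t e ω ≠ 0 ∧ ¬ 2 ≤ Dn N s t e ω ∧
      ∀ e', near F e e' → Dn N s t e' ω = 0
  · obtain ⟨e, hte, hDe, hDe2, hnear⟩ := hα
    have h1 : ∑' e', diffT N Y f s t e' ω = diffT N Y f s t e ω := by
      apply tsum_eq_single
      intro e' he'
      by_cases ht' : touch F e'
      · have := hnear e' ⟨he', Or.inl ht'⟩
        unfold diffT
        rw [indicator_of_notMem]
        simpa using this
      · exact hT0 e' ht'
    have hNe : N e t ω = N e s ω + 1 := by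
      have := hg.mono e hst
      simp only [Dn] at hDe hDe2
      simp only at this
      omega
    have h2 : f (Y t ω) = f (swc e (Y s ω)) := by
      apply hdep
      intro x hx
      exact hg.one_ring F s t hst e hNe (fun e' he' h => hD0 e' (hnear e' ⟨he', h⟩)) x hx
    have h3 : diffT N Y f s t e ω = f (swc e (Y s ω)) - f (Y s ω) := by
      unfold diffT
      rw [indicator_of_mem]
      exact hDe
    rw [h1, h2, h3, sub_self, enorm_zero]
    exact zero_le
  · push Not at hα
    have hbad : ∀ e, theta N F s t e ω ≤ theta N F s t e ω * bad N F s t e ω := by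
      intro e
      by_cases hte : touch F e
      · by_cases hDe : Dn N s t e ω ≠ 0
        · have hb : 1 ≤ bad N F s t e ω := by
            unfold bad
            by_cases h2 : 2 ≤ Dn N s t e ω
            · rw [indicator_of_mem (by exact h2)]
              simp
            · obtain ⟨e', hn, hD'⟩ := hα e hte hDe (not_le.1 h2)
              refine le_trans ?_ (le_add_left (ENNReal.le_tsum e'))
              rw [if_pos hn, indicator_of_mem (by exact hD')]
              simp
          calc theta N F s t e ω = theta N F s t e ω * 1 := (mul_one _).symm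
            _ ≤ _ := by gcongr
        · have : theta N F s t e ω = 0 := by
            unfold theta
            rw [if_pos hte, indicator_of_notMem]
            simpa using hDe
          rw [this]; exact zero_le
      · have : theta N F s t e ω = 0 := by
          unfold theta; rw [if_neg hte]
        rw [this]; exact zero_le
    have hS1 : ‖f (Y t ω) - f (Y s ω)‖ₑ ≤ 2 * ∑' e, theta N F s t e ω := by
      by_cases hno : ∀ e, touch F e → Dn N s t e ω = 0
      · have : f (Y t ω) = f (Y s ω) := by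
          apply hdep
          intro x hx
          exact hg.no_ring F s t hst (fun e he => hD0 e (hno e he)) x hx
        rw [this, sub_self, enorm_zero]; exact zero_le
      · push Not at hno
        obtain ⟨e, hte, hDe⟩ := hno
        have h1 : (1 : ℝ≥0∞) ≤ ∑' e, theta N F s t e ω := by
          refine le_trans ?_ (ENNReal.le_tsum e)
          unfold theta
          rw [if_pos hte, indicator_of_mem (by exact hDe)]
          simp
        calc ‖f (Y t ω) - f (Y s ω)‖ₑ ≤ 2 := by
              rw [Real.enorm_eq_ofReal_abs]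
              have : |f (Y t ω) - f (Y s ω)| ≤ 2 := by
                have h1 := hf1 (Y t ω)
                have h2 := hf1 (Y s ω)
                rw [abs_le] at *
                constructor <;> linarith
              calc ENNReal.ofReal |f (Y t ω) - f (Y s ω)| ≤ ENNReal.ofReal 2 :=
                    ENNReal.ofReal_le_ofReal this
                _ = 2 := by simp
          _ = 2 * 1 := (mul_one _).symm
          _ ≤ _ := by gcongr
    have hS2 : ‖∑' e, diffT N Y f s t e ω‖ₑ ≤ 2 * ∑' e, theta N F s t e ω := by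
      refine enorm_tsum_le_tsum_enorm.trans ?_
      rw [← ENNReal.tsum_mul_left]
      refine ENNReal.tsum_le_tsum fun e => ?_
      by_cases hte : touch F e
      · unfold diffT theta
        rw [if_pos hte]
        by_cases hDe : Dn N s t e ω ≠ 0
        · rw [indicator_of_mem (by exact hDe), indicator_of_mem (by exact hDe)]
          simp only [Pi.one_apply, mul_one]
          rw [Real.enorm_eq_ofReal_abs]
          have : |f (swc e (Y s ω)) - f (Y s ω)| ≤ 2 := by
            have h1 := hf1 (swc e (Y s ω))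
            have h2 := hf1 (Y s ω)
            rw [abs_le] at *
            constructor <;> linarith
          calc ENNReal.ofReal |f (swc e (Y s ω)) - f (Y s ω)| ≤ ENNReal.ofReal 2 :=
                ENNReal.ofReal_le_ofReal this
            _ = 2 := by simp
        · rw [indicator_of_notMem (by simpa using hDe)]; simp
      · rw [hT0 e hte]; simp
    calc ‖f (Y t ω) - f (Y s ω) - ∑' e, diffT N Y f s t e ω‖ₑ
        ≤ ‖f (Y t ω) - f (Y s ω)‖ₑ + ‖∑' e, diffT N Y f s t e ω‖ₑ := enorm_sub_le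
      _ ≤ 2 * ∑' e, theta N F s t e ω + 2 * ∑' e, theta N F s t e ω := add_le_add hS1 hS2
      _ = 4 * ∑' e, theta N F s t e ω := by ring
      _ ≤ _ := by gcongr with e; exact hbad e

open Classical in
lemma lintegral_theta_bad [Countable I] (hD : ExclData K μ 𝓕 N Y)
    (hM : ∀ x, ∑' y, (K.P x y : ℝ≥0∞) ≤ M)
    (F : Finset I) (s t : ℝ≥0) (hst : s ≤ t) :
    ∫⁻ ω, ∑' e, theta N F s t e ω * bad N F s t e ω ∂μ ≤
      ((F.card * (F.card + 3) * M ^ 2 * (t - s) ^ 2 : ℝ≥0) : ℝ≥0∞) := by
  set h : ℝ≥0 := t - s with hh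
  have hR := fun e => hD.meas_R s t e
  have hR2 := fun e => hD.meas_R2 s t e
  have hmθ : ∀ e, Measurable (theta N F s t e) := by
    intro e
    unfold theta
    split_ifs
    · exact measurable_one.indicator (hR e)
    · exact measurable_const
  have hmb : ∀ e, Measurable (bad N F s t e) := by
    intro e
    unfold bad
    apply Measurable.add
    · exact measurable_one.indicator (hR2 e)
    · apply Measurable.tsum
      intro e'
      split_ifs
      · exact measurable_one.indicator (hR e')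
      · exact measurable_const
  have hmθb : ∀ e, Measurable fun ω => theta N F s t e ω * bad N F s t e ω :=
    fun e => (hmθ e).mul (hmb e)
  rw [lintegral_tsum fun e => (hmθb e).aemeasurable]
  have hterm : ∀ e, ∫⁻ ω, theta N F s t e ω * bad N F s t e ω ∂μ ≤
      (if touch F e then (K.rate e : ℝ≥0∞) else 0) * ((F.card + 3) * M * h ^ 2) := by
    intro e
    by_cases hte : touch F e
    · rw [if_pos hte]
      have hle : ∀ ω, theta N F s t e ω * bad N F s t e ω ≤
          {ω | 2 ≤ Dn N s t e ω}.indicator 1 ω +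
          ∑' e', (if near F e e' then ({ω | Dn N s t e ω ≠ 0} ∩ {ω | Dn N s t e' ω ≠ 0}).indicator
            (1 : Ω → ℝ≥0∞) ω else 0) := by
        intro ω
        unfold theta bad
        rw [if_pos hte, mul_add]
        apply add_le_add
        · by_cases h1 : Dn N s t e ω ≠ 0
          · rw [indicator_of_mem (by exact h1)]; simp
          · rw [indicator_of_notMem (by simpa using h1)]; simp
        · rw [← ENNReal.tsum_mul_left]
          refine ENNReal.tsum_le_tsum fun e' => ?_
          split_ifs with hn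
          · rw [inter_indicator_one]; rfl
          · simp
      refine (lintegral_mono hle).trans ?_
      rw [lintegral_add_left (measurable_one.indicator (hR2 e)), lintegral_indicator_one (hR2 e),
        lintegral_tsum]
      · have hne' : ∀ e', ∫⁻ ω, (if near F e e' then
            ({ω | Dn N s t e ω ≠ 0} ∩ {ω | Dn N s t e' ω ≠ 0}).indicator (1 : Ω → ℝ≥0∞) ω else 0) ∂μ ≤
            (K.rate e * h : ℝ≥0) * (h * (if near F e e' then (K.rate e' : ℝ≥0∞) else 0)) := by
          intro e'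
          split_ifs with hn
          · rw [lintegral_indicator_one ((hR e).inter (hR e'))]
            refine (hD.prob_RR s t hst e e' (Ne.symm hn.1)).trans ?_
            rw [← hh]
            push_cast
            apply le_of_eq; ring
          · simp
        calc μ {ω | 2 ≤ Dn N s t e ω} + ∑' e', ∫⁻ ω, (if near F e e' then
            ({ω | Dn N s t e ω ≠ 0} ∩ {ω | Dn N s t e' ω ≠ 0}).indicator (1 : Ω → ℝ≥0∞) ω else 0) ∂μ
            ≤ ((K.rate e * h) * (K.rate e * h) : ℝ≥0) + ∑' e',
              (K.rate e * h : ℝ≥0) * (h * (if near F e e' then (K.rate e' : ℝ≥0∞) else 0)) :=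
              add_le_add (hD.prob_R2 s t hst e) (ENNReal.tsum_le_tsum hne')
          _ = ((K.rate e * h) * (K.rate e * h) : ℝ≥0) +
              (K.rate e * h : ℝ≥0) * (h * ∑' e', (if near F e e' then (K.rate e' : ℝ≥0∞) else 0)) := by
              rw [ENNReal.tsum_mul_left, ENNReal.tsum_mul_left]
          _ ≤ ((K.rate e : ℝ≥0∞) * h) * (M * h) +
              ((K.rate e : ℝ≥0∞) * h) * (h * ((F.card + 2) * M)) := by
              push_cast
              gcongr
              · exact_mod_cast rate_le_M hM e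
              · exact tsum_near hM F e
          _ = (K.rate e : ℝ≥0∞) * ((F.card + 3) * M * h ^ 2) := by ring
      · intro e'
        apply Measurable.aemeasurable
        split_ifs
        · exact measurable_one.indicator ((hR e).inter (hR e'))
        · exact measurable_const
    · have : ∀ ω, theta N F s t e ω * bad N F s t e ω = 0 := by
        intro ω; unfold theta; rw [if_neg hte, zero_mul]
      simp [this]
  calc ∑' e, ∫⁻ ω, theta N F s t e ω * bad N F s t e ω ∂μ
      ≤ ∑' e, (if touch F e then (K.rate e : ℝ≥0∞) else 0) * ((F.card + 3) * M * h ^ 2) :=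
        ENNReal.tsum_le_tsum hterm
    _ = (∑' e, (if touch F e then (K.rate e : ℝ≥0∞) else 0)) * ((F.card + 3) * M * h ^ 2) := by
        rw [ENNReal.tsum_mul_right]
    _ ≤ (F.card * M) * ((F.card + 3) * M * h ^ 2) := by
        gcongr; exact tsum_touch hM F
    _ = _ := by push_cast; ring

/-- constant in the one step estimate -/
noncomputable def Cst (M : ℝ≥0) (n : ℕ) : ℝ := 4 * (n * (n + 3) * M ^ 2) + 2 * (n * M ^ 2)

lemma Cst_nonneg (M : ℝ≥0) (n : ℕ) : 0 ≤ Cst M n := by unfold Cst; positivity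

open Classical in
/-- One step estimate (first order expansion of the semigroup) for exclusion dynamics. -/
theorem one_step [Countable I] [IsProbabilityMeasure μ] (hD : ExclData K μ 𝓕 N Y)
    (hM : ∀ x, ∑' y, (K.P x y : ℝ≥0∞) ≤ M)
    (F : Finset I) (f : (I → Bool) → ℝ) (hfm : Measurable f) (hf1 : ∀ y, |f y| ≤ 1)
    (hdep : DependsOn f (F : Set I)) (s t : ℝ≥0) (hst : s ≤ t)
    (Z : Ω → ℝ) (hZ : Measurable[𝓕 s] Z) (hZ1 : ∀ ω, |Z ω| ≤ 1) :
    |∫ ω, Z ω * f (Y t ω) ∂μ - ∫ ω, Z ω * f (Y s ω) ∂μ -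
      (t - s : ℝ≥0) * ∑' e, (K.rate e : ℝ) * (∫ ω, Z ω * f (swc e (Y s ω)) ∂μ - ∫ ω, Z ω * f (Y s ω) ∂μ)|
      ≤ Cst M F.card * (t - s : ℝ≥0) ^ 2 := by
  set h : ℝ≥0 := t - s with hh
  have hZm : Measurable Z := hZ.mono (𝓕.le s) le_rfl
  have hYs := hD.measurable_Y s
  have hYt := hD.measurable_Y t
  have hfb : BM f := BM.of_abs_le hfm hf1
  have hZb : BM Z := BM.of_abs_le hZm hZ1
  have hR := fun e => hD.meas_R s t e
  have hψb : ∀ e, BM (fun ω => f (swc e (Y s ω)) - f (Y s ω)) := fun e =>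
    (hfb.comp ((measurable_swc e).comp hYs)).sub (hfb.comp hYs)
  have hψ2 : ∀ e ω, |f (swc e (Y s ω)) - f (Y s ω)| ≤ 2 := by
    intro e ω
    have h1 := hf1 (swc e (Y s ω))
    have h2 := hf1 (Y s ω)
    rw [abs_le] at *
    constructor <;> linarith
  have hdm : ∀ e, Measurable (diffT N Y f s t e) := fun e => (hψb e).1.indicator (hR e)
  have hsupp : ∀ e, ¬ touch F e → ∀ ω, f (swc e (Y s ω)) - f (Y s ω) = 0 := by
    intro e he ω
    rw [swc_of_not_touch hdep he, sub_self]
  -- total variation of the linear term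
  have htot : ∑' e, ∫⁻ ω, ‖Z ω * diffT N Y f s t e ω‖ₑ ∂μ ≠ ∞ := by
    have hle : ∀ e, ∫⁻ ω, ‖Z ω * diffT N Y f s t e ω‖ₑ ∂μ ≤
        (if touch F e then (K.rate e : ℝ≥0∞) else 0) * (2 * h) := by
      intro e
      by_cases hte : touch F e
      · rw [if_pos hte]
        calc ∫⁻ ω, ‖Z ω * diffT N Y f s t e ω‖ₑ ∂μ
            ≤ ∫⁻ ω, {ω | Dn N s t e ω ≠ 0}.indicator (fun _ => 2) ω ∂μ := by
              apply lintegral_mono
              intro ω
              show ‖Z ω * diffT N Y f s t e ω‖ₑ ≤ _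
              unfold diffT
              by_cases h1 : Dn N s t e ω ≠ 0
              · rw [indicator_of_mem (by exact h1), indicator_of_mem (by exact h1),
                  Real.enorm_eq_ofReal_abs, abs_mul]
                calc ENNReal.ofReal (|Z ω| * |f (swc e (Y s ω)) - f (Y s ω)|)
                    ≤ ENNReal.ofReal (1 * 2) := by
                      apply ENNReal.ofReal_le_ofReal
                      exact mul_le_mul (hZ1 ω) (hψ2 e ω) (abs_nonneg _) zero_le_one
                  _ = 2 := by simp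
              · rw [indicator_of_notMem (by simpa using h1)]; simp
          _ = 2 * μ {ω | Dn N s t e ω ≠ 0} := by rw [lintegral_indicator_const (hR e)]
          _ ≤ 2 * (K.rate e * h : ℝ≥0) := by gcongr; exact hD.prob_R_le s t hst e
          _ = (K.rate e : ℝ≥0∞) * (2 * h) := by push_cast; ring
      · have : ∀ ω, Z ω * diffT N Y f s t e ω = 0 := by
          intro ω
          unfold diffT
          rw [indicator_apply, hsupp e hte]; simp
        simp [this]
    refine ne_top_of_le_ne_top ?_ (ENNReal.tsum_le_tsum hle)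
    rw [ENNReal.tsum_mul_right]
    apply ENNReal.mul_ne_top
    · exact ne_top_of_le_ne_top (by finiteness) (tsum_touch hM F)
    · finiteness
  -- expectation of the linear term
  have hlin : ∫ ω, ∑' e, Z ω * diffT N Y f s t e ω ∂μ =
      ∑' e, μ.real {ω | Dn N s t e ω ≠ 0} *
        (∫ ω, Z ω * f (swc e (Y s ω)) ∂μ - ∫ ω, Z ω * f (Y s ω) ∂μ) := by
    have hmm : ∀ e, AEStronglyMeasurable (fun ω => Z ω * diffT N Y f s t e ω) μ :=
      fun e => (hZm.mul (hdm e)).aestronglyMeasurable
    rw [integral_tsum hmm htot]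
    congr 1
    ext e
    have hind : IndepFun (fun ω => Z ω * (f (swc e (Y s ω)) - f (Y s ω)))
        ({ω | Dn N s t e ω ≠ 0}.indicator (fun _ => (1:ℝ))) μ := by
      have h1 := hD.clocks.indep_past s t hst
      have h2 : Indep (𝓕 s) (MeasurableSpace.comap (Dn N s t e) ⊤) μ :=
        indep_of_indep_of_le_right h1 (le_iSup (fun j => MeasurableSpace.comap (Dn N s t j) ⊤) e)
      rw [IndepFun_iff_Indep]
      apply indep_of_indep_of_le_left (indep_of_indep_of_le_right h2 _) _
      · have : {ω | Dn N s t e ω ≠ 0}.indicator (fun _ => (1:ℝ)) =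
            (fun n : ℕ => if n ≠ 0 then (1:ℝ) else 0) ∘ Dn N s t e := by
          ext ω
          by_cases h1 : Dn N s t e ω ≠ 0
          · rw [indicator_of_mem (by exact h1)]; simp [h1]
          · rw [indicator_of_notMem (by simpa using h1)]; simp at h1; simp [h1]
        rw [this, ← MeasurableSpace.comap_comp]
        exact MeasurableSpace.comap_mono (measurable_iff_comap_le.1 (Measurable.of_discrete))
      · rw [← measurable_iff_comap_le]
        have hYs' : Measurable[𝓕 s] (Y s) := hD.adapted s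
        exact hZ.mul ((hfm.comp ((measurable_swc e).comp hYs')).sub (hfm.comp hYs'))
    have h3 := hind.integral_fun_mul_eq_mul_integral
      ((hZb.mul (hψb e)).1.aestronglyMeasurable)
      ((measurable_const.indicator (hR e)).aestronglyMeasurable)
    have h4 : ∀ ω, Z ω * diffT N Y f s t e ω =
        (Z ω * (f (swc e (Y s ω)) - f (Y s ω))) * {ω | Dn N s t e ω ≠ 0}.indicator (fun _ => (1:ℝ)) ω := by
      intro ω
      unfold diffT
      by_cases h1 : Dn N s t e ω ≠ 0
      · rw [indicator_of_mem (by exact h1), indicator_of_mem (by exact h1), mul_one]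
      · rw [indicator_of_notMem (by simpa using h1), indicator_of_notMem (by simpa using h1)]; simp
    simp_rw [h4]
    rw [h3, integral_indicator_const _ (hR e)]
    have h5 : ∫ ω, Z ω * (f (swc e (Y s ω)) - f (Y s ω)) ∂μ =
        ∫ ω, Z ω * f (swc e (Y s ω)) ∂μ - ∫ ω, Z ω * f (Y s ω) ∂μ := by
      have hb1 : BM (fun ω => Z ω * f (swc e (Y s ω))) :=
        hZb.mul (hfb.comp ((measurable_swc e).comp hYs))
      rw [← BM.int_sub μ hb1 (hZb.mul (hfb.comp hYs))]
      congr 1; ext ω; ring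
    rw [h5]
    simp
    ring
  -- the remainder
  set R : Ω → ℝ := fun ω => f (Y t ω) - f (Y s ω) - ∑' e, diffT N Y f s t e ω with hRdef
  have hRm : AEStronglyMeasurable R μ := by
    have h1 : Measurable fun ω => ∑' e, diffT N Y f s t e ω := Measurable.tsum hdm
    exact (((hfm.comp hYt).sub (hfm.comp hYs)).sub h1).aestronglyMeasurable
  have hRbound : ∫⁻ ω, ‖R ω‖ₑ ∂μ ≤ ((4 * (F.card * (F.card + 3) * M ^ 2 * h ^ 2) : ℝ≥0) : ℝ≥0∞) := by
    calc ∫⁻ ω, ‖R ω‖ₑ ∂μ ≤ ∫⁻ ω, 4 * ∑' e, theta N F s t e ω * bad N F s t e ω ∂μ := by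
          apply lintegral_mono_ae
          filter_upwards [hD.good] with ω hω
          exact pathwise_bound ω hω F f hf1 hdep s t hst
      _ = 4 * ∫⁻ ω, ∑' e, theta N F s t e ω * bad N F s t e ω ∂μ := by
          rw [lintegral_const_mul' _ _ (by finiteness)]
      _ ≤ 4 * ((F.card * (F.card + 3) * M ^ 2 * h ^ 2 : ℝ≥0) : ℝ≥0∞) := by
          gcongr
          exact lintegral_theta_bad hD hM F s t hst
      _ = _ := by push_cast; ring
  have hRint : Integrable R μ := ⟨hRm, lt_of_le_of_lt hRbound (by finiteness)⟩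
  have hRZ : |∫ ω, Z ω * R ω ∂μ| ≤ 4 * (F.card * (F.card + 3) * M ^ 2) * (h:ℝ) ^ 2 := by
    have h1 : ‖∫ ω, Z ω * R ω ∂μ‖ ≤ (∫⁻ ω, ‖R ω‖ₑ ∂μ).toReal := by
      refine (norm_integral_le_lintegral_norm _).trans ?_
      apply ENNReal.toReal_mono (ne_top_of_le_ne_top (by finiteness) hRbound)
      apply lintegral_mono
      intro ω
      show ENNReal.ofReal ‖Z ω * R ω‖ ≤ ‖R ω‖ₑ
      rw [← ofReal_norm]
      apply ENNReal.ofReal_le_ofReal
      rw [norm_mul]
      calc ‖Z ω‖ * ‖R ω‖ ≤ 1 * ‖R ω‖ := by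
            gcongr; exact hZ1 ω
        _ = ‖R ω‖ := one_mul _
    rw [Real.norm_eq_abs] at h1
    refine h1.trans ?_
    have h2 := ENNReal.toReal_mono (by finiteness) hRbound
    refine h2.trans (le_of_eq ?_)
    rw [ENNReal.coe_toReal]
    push_cast; ring
  have hsplit : ∫ ω, Z ω * f (Y t ω) ∂μ - ∫ ω, Z ω * f (Y s ω) ∂μ =
      ∫ ω, Z ω * R ω ∂μ + ∑' e, μ.real {ω | Dn N s t e ω ≠ 0} *
        (∫ ω, Z ω * f (swc e (Y s ω)) ∂μ - ∫ ω, Z ω * f (Y s ω) ∂μ) := by
    rw [← hlin]
    have hTi : Integrable (fun ω => ∑' e, Z ω * diffT N Y f s t e ω) μ := by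
      have : (fun ω => ∑' e, Z ω * diffT N Y f s t e ω) = fun ω =>
          (Z ω * f (Y t ω) - Z ω * f (Y s ω)) - Z ω * R ω := by
        ext ω; simp only [hRdef]; rw [tsum_mul_left]; ring
      rw [this]
      apply Integrable.sub
      · exact ((hZb.mul (hfb.comp hYt)).sub (hZb.mul (hfb.comp hYs))).integrable μ
      · exact hRint.bdd_mul (c := 1) hZm.aestronglyMeasurable (ae_of_all _ hZ1)
    rw [← integral_add _ hTi, ← BM.int_sub μ (hZb.mul (hfb.comp hYt)) (hZb.mul (hfb.comp hYs))]
    · congr 1; ext ω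
      simp only [hRdef]; rw [tsum_mul_left]; ring
    · exact hRint.bdd_mul (c := 1) hZm.aestronglyMeasurable (ae_of_all _ hZ1)
  -- replace the probabilities by the rates
  set a : Sym2 I → ℝ := fun e => ∫ ω, Z ω * f (swc e (Y s ω)) ∂μ - ∫ ω, Z ω * f (Y s ω) ∂μ with ha
  have ha0 : ∀ e, ¬ touch F e → a e = 0 := by
    intro e he
    simp only [ha]
    rw [sub_eq_zero]
    congr 1; ext ω
    rw [swc_of_not_touch hdep he]
  have ha2 : ∀ e, |a e| ≤ 2 := by
    intro e
    have h1 : ∀ g : Ω → ℝ, (∀ ω, |g ω| ≤ 1) → |∫ ω, g ω ∂μ| ≤ 1 := by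
      intro g hg
      have := norm_integral_le_of_norm_le_const (μ := μ) (C := 1) (f := g)
        (ae_of_all _ fun ω => by rw [Real.norm_eq_abs]; exact hg ω)
      simpa using this
    have h2 := h1 (fun ω => Z ω * f (swc e (Y s ω))) (fun ω => by
      rw [abs_mul]; exact mul_le_one₀ (hZ1 ω) (abs_nonneg _) (hf1 _))
    have h3 := h1 (fun ω => Z ω * f (Y s ω)) (fun ω => by
      rw [abs_mul]; exact mul_le_one₀ (hZ1 ω) (abs_nonneg _) (hf1 _))
    simp only [ha]
    rw [abs_le] at *
    constructor <;> linarith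
  have hsumtouch : Summable fun e => (if touch F e then (K.rate e : ℝ) else 0) := by
    have h1 : ∑' e : Sym2 I, (if touch F e then (K.rate e : ℝ≥0∞) else 0) ≠ ∞ :=
      ne_top_of_le_ne_top (by finiteness) (tsum_touch hM F)
    have h2 := ENNReal.summable_toReal h1
    refine h2.congr fun e => ?_
    split_ifs <;> simp
  have htsumtouch : ∑' e, (if touch F e then (K.rate e : ℝ) else 0) ≤ F.card * M := by
    have h1 := tsum_touch hM F
    have h2 := ENNReal.toReal_mono (by finiteness) h1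
    rw [ENNReal.tsum_toReal_eq (fun e => by split_ifs <;> simp)] at h2
    convert h2 using 1
    · congr 1; ext e; split_ifs <;> simp
    · simp
  have hprob : ∀ e, μ.real {ω | Dn N s t e ω ≠ 0} = 1 - Real.exp (-(K.rate e * h : ℝ≥0)) := by
    intro e
    rw [measureReal_def, hD.prob_R s t hst e, ← measureReal_def, po_real_ne_zero]
  have hsum1 : Summable fun e => (K.rate e : ℝ) * a e := by
    refine Summable.of_norm_bounded (g := fun e => (if touch F e then (K.rate e : ℝ) else 0) * 2)
      (hsumtouch.mul_right 2) fun e => ?_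
    by_cases he : touch F e
    · rw [if_pos he, norm_mul]
      apply mul_le_mul _ (by rw [Real.norm_eq_abs]; exact ha2 e) (norm_nonneg _) (by positivity)
      simp
    · rw [ha0 e he]; simp [he]
  have hdiffterm : ∀ e, ‖(μ.real {ω | Dn N s t e ω ≠ 0} - h * K.rate e) * a e‖ ≤
      (if touch F e then (K.rate e : ℝ) else 0) * (2 * M * h ^ 2) := by
    intro e
    by_cases he : touch F e
    · rw [if_pos he, norm_mul, hprob e]
      have h1 := one_sub_exp_bound ((K.rate e * h : ℝ≥0) : ℝ) (by positivity)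
      have h2 : (K.rate e : ℝ) ≤ M := by
        have := rate_le_M hM e
        exact_mod_cast this
      have h3 : ‖1 - Real.exp (-((K.rate e * h : ℝ≥0) : ℝ)) - h * K.rate e‖ ≤ (K.rate e) ^ 2 * h ^ 2 := by
        rw [Real.norm_eq_abs]
        calc |1 - Real.exp (-((K.rate e * h : ℝ≥0) : ℝ)) - h * K.rate e|
            = |1 - Real.exp (-((K.rate e * h : ℝ≥0) : ℝ)) - ((K.rate e * h : ℝ≥0) : ℝ)| := by
              push_cast; ring_nf
          _ ≤ ((K.rate e * h : ℝ≥0) : ℝ) ^ 2 := h1
          _ = (K.rate e) ^ 2 * h ^ 2 := by push_cast; ring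
      calc ‖1 - Real.exp (-((K.rate e * h : ℝ≥0) : ℝ)) - h * K.rate e‖ * ‖a e‖
          ≤ ((K.rate e) ^ 2 * h ^ 2) * 2 :=
            mul_le_mul h3 (by rw [Real.norm_eq_abs]; exact ha2 e) (norm_nonneg _) (by positivity)
        _ = (K.rate e : ℝ) * (2 * K.rate e * h ^ 2) := by ring
        _ ≤ (K.rate e : ℝ) * (2 * M * h ^ 2) := by gcongr
    · rw [ha0 e he]; simp [he]
  have hsum2 : Summable fun e => (μ.real {ω | Dn N s t e ω ≠ 0} - h * K.rate e) * a e :=
    Summable.of_norm_bounded (hsumtouch.mul_right _) hdiffterm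
  have hdiff : |∑' e, (μ.real {ω | Dn N s t e ω ≠ 0} - h * K.rate e) * a e| ≤
      2 * (F.card * M ^ 2) * h ^ 2 := by
    have h1 := tsum_of_norm_bounded (hsumtouch.mul_right (2 * (M:ℝ) * h ^ 2)).hasSum hdiffterm
    rw [Real.norm_eq_abs] at h1
    refine h1.trans ?_
    rw [tsum_mul_right]
    calc (∑' e, (if touch F e then (K.rate e : ℝ) else 0)) * (2 * M * h ^ 2)
        ≤ (F.card * M) * (2 * M * h ^ 2) := by gcongr
      _ = _ := by ring
  have hsum3 : ∑' e, μ.real {ω | Dn N s t e ω ≠ 0} * a e =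
      ∑' e, (μ.real {ω | Dn N s t e ω ≠ 0} - h * K.rate e) * a e + h * ∑' e, (K.rate e : ℝ) * a e := by
    rw [← tsum_mul_left, ← hsum2.tsum_add (hsum1.mul_left _)]
    congr 1; ext e; ring
  have hfinal : ∫ ω, Z ω * f (Y t ω) ∂μ - ∫ ω, Z ω * f (Y s ω) ∂μ -
      h * ∑' e, (K.rate e : ℝ) * a e =
      ∫ ω, Z ω * R ω ∂μ + ∑' e, (μ.real {ω | Dn N s t e ω ≠ 0} - h * K.rate e) * a e := by
    rw [hsplit, hsum3]; ring
  rw [hfinal]
  refine (abs_add_le _ _).trans ?_
  unfold Cst
  calc _ ≤ 4 * (F.card * (F.card + 3) * M ^ 2) * (h:ℝ) ^ 2 + 2 * (F.card * M ^ 2) * h ^ 2 :=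
        add_le_add hRZ hdiff
    _ = _ := by ring

end

end Pool.Agent.H.MP_20d613_pr
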