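import Pool.Agent.H.MP_20d613_pr.Defs

open MeasureTheory ProbabilityTheory Filter Topology Set
open scoped ENNReal NNReal

namespace Pool.Agent.H.MP_20d613_pr

open Classical in
/-- the transposition attached to an unordered pair -/
noncomputable def sw {I : Type*} (e : Sym2 I) : Equiv.Perm I :=
  Sym2.lift ⟨fun x y => Equiv.swap x y, fun x y => Equiv.swap_comm x y⟩ e

lemma sw_mk {I : Type*} [DecidableEq I] (x y : I) : sw s(x, y) = Equiv.swap x y := by
  unfold sw
  rw [Sym2.lift_mk]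
  dsimp only
  congr
  exact Subsingleton.elim _ _

lemma sw_of_notMem {I : Type*} (e : Sym2 I) (x : I) (h : x ∉ e) : sw e x = x := by
  classical
  induction e using Sym2.ind with
  | _ a b =>
    rw [Sym2.mem_iff, not_or] at h
    rw [sw_mk, Equiv.swap_apply_of_ne_of_ne h.1 h.2]

lemma sw_sw {I : Type*} (e : Sym2 I) (x : I) : sw e (sw e x) = x := by
  classical
  induction e using Sym2.ind with
  | _ a b => rw [sw_mk, Equiv.swap_apply_self]

lemma sw_mem {I : Type*} (e : Sym2 I) (x : I) (h : x ∈ e) : e = s(x, sw e x) := by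
  classical
  induction e using Sym2.ind with
  | _ a b =>
    rw [Sym2.mem_iff] at h
    rcases h with rfl | rfl
    · rw [sw_mk, Equiv.swap_apply_left]
    · rw [sw_mk, Equiv.swap_apply_right, Sym2.eq_swap]

/-- pathwise properties of the exclusion dynamics -/
structure GoodPath {I : Type*} (N : Sym2 I → ℝ≥0 → ℕ) (y : ℝ≥0 → I → Bool) : Prop where
  mono : ∀ e, Monotone (N e)
  rc : ∀ e t, ∀ᶠ s in 𝓝[>] t, N e s = N e t
  stay : ∀ (x : I) (s t : ℝ≥0), s ≤ t → (∀ z, N s(x, z) s = N s(x, z) t) → y t x = y s x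
  swap : ∀ (x z : I) (t : ℝ≥0), 0 < t → (∀ s < t, N s(x, z) s < N s(x, z) t) →
    ∃ s < t, ∀ u, s ≤ u → u < t → y t x = y u z

/-- A right-continuous nondecreasing integer-valued function which increases by one over
`(s, t]` jumps exactly at one time. -/
lemma exists_jump (n : ℝ≥0 → ℕ) (hm : Monotone n) (hrc : ∀ t, ∀ᶠ s in 𝓝[>] t, n s = n t)
    (s t : ℝ≥0) (_hst : s ≤ t) (h : n t = n s + 1) :
    ∃ τ, s < τ ∧ τ ≤ t ∧ (∀ r < τ, n r < n τ) ∧ n τ = n t ∧
      (∀ r, s ≤ r → r < τ → n r = n s) := by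
  set A : Set ℝ≥0 := {r | n s + 1 ≤ n r} with hA
  have htA : t ∈ A := by simp [hA, h]
  set τ := sInf A with hτ
  have hle : ∀ r ∈ A, τ ≤ r := fun r hr => csInf_le (OrderBot.bddBelow A) hr
  have hτA : τ ∈ A := by
    by_contra hcon
    have hev := hrc τ
    rw [eventually_iff, mem_nhdsGT_iff_exists_Ioo_subset] at hev
    obtain ⟨u, hu, hsub⟩ := hev
    have hu' : τ < u := hu
    obtain ⟨r, hrA, hru⟩ := exists_lt_of_csInf_lt ⟨t, htA⟩ hu'
    have hτr : τ ≠ r := fun h => hcon (h ▸ hrA)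
    have hτr' : τ < r := lt_of_le_of_ne (hle r hrA) hτr
    have := hsub ⟨hτr', hru⟩
    simp only [mem_ofPred_eq] at this
    apply hcon
    show n s + 1 ≤ n τ
    rw [← this]; exact hrA
  have hlt : ∀ r, r < τ → n r ≤ n s := by
    intro r hr
    by_contra hcon
    push Not at hcon
    exact absurd (hle r hcon) (not_le.2 hr)
  have hsτ : s < τ := by
    by_contra hcon
    push Not at hcon
    have h1 : n τ ≤ n s := hm hcon
    have h2 : n s + 1 ≤ n τ := hτA
    omega
  have hτt : τ ≤ t := hle t htA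
  have hnτ : n τ = n s + 1 := le_antisymm (h ▸ hm hτt) hτA
  refine ⟨τ, hsτ, hτt, ?_, ?_, ?_⟩
  · intro r hr
    have := hlt r hr
    omega
  · rw [hnτ, h]
  · intro r hsr hr
    exact le_antisymm (hlt r hr) (hm hsr)

variable {I : Type*} {N : Sym2 I → ℝ≥0 → ℕ} {y : ℝ≥0 → I → Bool}

lemma GoodPath.eq_of_mono (hg : GoodPath N y) {e : Sym2 I} {s t u v : ℝ≥0} (h : N e s = N e t)
    (hsu : s ≤ u) (huv : u ≤ v) (hvt : v ≤ t) : N e u = N e v := by
  have h1 := hg.mono e hsu
  have h2 := hg.mono e huv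
  have h3 := hg.mono e hvt
  omega

/-- if no clock touching `F` rings, the configuration on `F` does not change -/
lemma GoodPath.no_ring (hg : GoodPath N y) (F : Finset I) (s t : ℝ≥0) (hst : s ≤ t)
    (h : ∀ e, (∃ x ∈ F, x ∈ e) → N e s = N e t) : ∀ x ∈ F, y t x = y s x := by
  intro x hx
  exact hg.stay x s t hst fun z => h _ ⟨x, hx, Sym2.mem_mk_left x z⟩

/-- if exactly one clock touching `F` rings, once, and no other clock touching this pair rings,
then the configuration on `F` is swapped -/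
lemma GoodPath.one_ring (hg : GoodPath N y) (F : Finset I) (s t : ℝ≥0) (hst : s ≤ t)
    (e : Sym2 I) (he : N e t = N e s + 1)
    (h : ∀ e', e' ≠ e → ((∃ x ∈ F, x ∈ e') ∨ (∃ x ∈ e, x ∈ e')) → N e' s = N e' t) :
    ∀ x ∈ F, y t x = y s (sw e x) := by
  intro x hx
  by_cases hxe : x ∈ e
  · obtain ⟨τ, hsτ, hτt, hring, hτ, hbefore⟩ := exists_jump (N e) (hg.mono e) (hg.rc e) s t hst he
    set z := sw e x with hz
    have hez : e = s(x, z) := sw_mem e x hxe
    have hze : z ∈ e := by rw [hez]; exact Sym2.mem_mk_right x z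
    have h0τ : 0 < τ := lt_of_le_of_lt (zero_le) hsτ
    obtain ⟨r0, hr0, hswap⟩ := hg.swap x z τ h0τ (by rw [← hez]; exact hring)
    set u := max r0 s with hu
    have huτ : u < τ := max_lt hr0 hsτ
    have h1 : y τ x = y u z := hswap u (le_max_left _ _) huτ
    have h2 : y u z = y s z := by
      apply hg.stay z s u (le_max_right _ _)
      intro w
      by_cases hw : s(z, w) = e
      · rw [hw]; exact (hbefore u (le_max_right _ _) huτ).symm
      · exact hg.eq_of_mono (h _ hw (Or.inr ⟨z, hze, Sym2.mem_mk_left z w⟩)) le_rfl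
          (le_max_right _ _) (huτ.le.trans hτt)
    have h3 : y t x = y τ x := by
      apply hg.stay x τ t hτt
      intro w
      by_cases hw : s(x, w) = e
      · rw [hw]; exact hτ
      · exact hg.eq_of_mono (h _ hw (Or.inl ⟨x, hx, Sym2.mem_mk_left x w⟩)) hsτ.le hτt le_rfl
    rw [h3, h1, h2]
  · rw [sw_of_notMem e x hxe]
    apply hg.stay x s t hst
    intro w
    apply h
    · rintro rfl
      exact hxe (Sym2.mem_mk_left x w)
    · exact Or.inl ⟨x, hx, Sym2.mem_mk_left x w⟩

end Pool.Agent.H.MP_20d613_pr
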