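import Pool.Agent.H.MP_20d613_pr.Rates

open MeasureTheory ProbabilityTheory Filter Topology Set
open scoped ENNReal NNReal

namespace Pool.Agent.H.MP_20d613_pr

lemma po_real_zero (r : ℝ≥0) : (poissonMeasure r).real {0} = Real.exp (-r) := by
  rw [poissonMeasure_real_singleton]; simp

lemma po_real_ne_zero (r : ℝ≥0) : (poissonMeasure r).real {n | n ≠ 0} = 1 - Real.exp (-r) := by
  have : {n : ℕ | n ≠ 0} = ({0} : Set ℕ)ᶜ := by ext; simp
  rw [this, probReal_compl_eq_one_sub (by measurability), po_real_zero]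

lemma po_real_ge_two (r : ℝ≥0) :
    (poissonMeasure r).real {n | 2 ≤ n} = 1 - Real.exp (-r) * (1 + r) := by
  have : {n : ℕ | 2 ≤ n} = ({0} ∪ {1} : Set ℕ)ᶜ := by
    ext n; simp; omega
  rw [this, probReal_compl_eq_one_sub (by measurability), measureReal_union (by simp) (by measurability),
    po_real_zero, poissonMeasure_real_singleton]
  simp; ring

lemma po_ne_zero_le (r : ℝ≥0) : poissonMeasure r {n | n ≠ 0} ≤ r := by
  rw [← ofReal_measureReal, po_real_ne_zero, ← ENNReal.ofReal_coe_nnreal]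
  apply ENNReal.ofReal_le_ofReal
  have := Real.add_one_le_exp (-(r:ℝ))
  linarith

lemma po_ge_two_le (r : ℝ≥0) : poissonMeasure r {n | 2 ≤ n} ≤ (r * r : ℝ≥0) := by
  rw [← ofReal_measureReal, po_real_ge_two, ← ENNReal.ofReal_coe_nnreal]
  apply ENNReal.ofReal_le_ofReal
  have h1 := Real.add_one_le_exp (-(r:ℝ))
  have h2 : (0:ℝ) ≤ r := r.2
  have h3 : (1 - (r:ℝ)) * (1 + r) ≤ Real.exp (-r) * (1 + r) := by
    apply mul_le_mul_of_nonneg_right _ (by linarith)
    linarith
  push_cast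
  nlinarith

lemma one_sub_exp_bound (x : ℝ) (hx : 0 ≤ x) : |(1 - Real.exp (-x)) - x| ≤ x ^ 2 := by
  have h1 := Real.add_one_le_exp (-x)
  have h2 : Real.exp (-x) ≤ 1 - x + x ^ 2 := by
    have h3 := Real.add_one_le_exp x
    rw [Real.exp_neg]
    have h4 : 0 < Real.exp x := Real.exp_pos x
    rw [inv_le_iff_one_le_mul₀ h4]
    have h5 : (x + 1) * (1 - x + x ^ 2) ≤ Real.exp x * (1 - x + x ^ 2) := by
      apply mul_le_mul_of_nonneg_right h3
      nlinarith [sq_nonneg (x - 1)]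
    have h6 : (x + 1) * (1 - x + x ^ 2) = 1 + x ^ 3 := by ring
    nlinarith [pow_nonneg hx 3]
  rw [abs_le]
  constructor <;> nlinarith

end Pool.Agent.H.MP_20d613_pr
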