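import Pool.Agent.H.MP_20d613_pr.Path

open MeasureTheory ProbabilityTheory Filter Topology Set
open scoped ENNReal NNReal

namespace Pool.Agent.H.MP_20d613_pr

variable {I : Type*}

/-- the pair `e` meets the finite set `F` -/
def touch (F : Finset I) (e : Sym2 I) : Prop := ∃ x ∈ F, x ∈ e

/-- `e'` is another pair meeting `F` or `e` -/
def near (F : Finset I) (e e' : Sym2 I) : Prop := e' ≠ e ∧ (touch F e' ∨ ∃ x ∈ e, x ∈ e')

lemma rate_le (K : SwapKernel I) (x y : I) : (K.rate s(x, y) : ℝ≥0∞) ≤ K.P x y := by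
  unfold SwapKernel.rate
  split_ifs
  · simp
  · simp [Sym2.lift_mk]

variable {K : SwapKernel I} {M : ℝ≥0}

open Classical in
lemma tsum_mem (hM : ∀ x, ∑' y, (K.P x y : ℝ≥0∞) ≤ M) (x : I) :
    ∑' e : Sym2 I, (if x ∈ e then (K.rate e : ℝ≥0∞) else 0) ≤ M := by
  have hinj : Function.Injective fun y : I => s(x, y) := fun y z h => Sym2.congr_right.1 h
  have hsupp : Function.support (fun e : Sym2 I => if x ∈ e then (K.rate e : ℝ≥0∞) else 0) ⊆
      range fun y : I => s(x, y) := by
    intro e he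
    simp only [Function.mem_support, ne_eq, ite_eq_right_iff, Classical.not_imp] at he
    obtain ⟨y, hy⟩ := Sym2.mem_iff_exists.1 he.1
    exact ⟨y, hy.symm⟩
  rw [← hinj.tsum_eq hsupp]
  refine le_trans (ENNReal.tsum_le_tsum fun y => ?_) (hM x)
  simp only [Sym2.mem_iff, true_or, if_true]
  exact rate_le K x y

open Classical in
lemma tsum_touch (hM : ∀ x, ∑' y, (K.P x y : ℝ≥0∞) ≤ M) (F : Finset I) :
    ∑' e : Sym2 I, (if touch F e then (K.rate e : ℝ≥0∞) else 0) ≤ F.card * M := by
  calc ∑' e : Sym2 I, (if touch F e then (K.rate e : ℝ≥0∞) else 0)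
      ≤ ∑' e : Sym2 I, ∑ x ∈ F, (if x ∈ e then (K.rate e : ℝ≥0∞) else 0) := by
        refine ENNReal.tsum_le_tsum fun e => ?_
        split_ifs with h
        · obtain ⟨x, hx, hxe⟩ := h
          refine le_trans ?_ (Finset.single_le_sum (f := fun x => if x ∈ e then (K.rate e : ℝ≥0∞) else 0)
            (fun _ _ => zero_le) hx)
          simp [hxe]
        · exact zero_le
    _ = ∑ x ∈ F, ∑' e : Sym2 I, (if x ∈ e then (K.rate e : ℝ≥0∞) else 0) :=
        Summable.tsum_finsetSum fun _ _ => ENNReal.summable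
    _ ≤ ∑ x ∈ F, (M : ℝ≥0∞) := Finset.sum_le_sum fun x _ => tsum_mem hM x
    _ = F.card * M := by simp

open Classical in
lemma tsum_near (hM : ∀ x, ∑' y, (K.P x y : ℝ≥0∞) ≤ M) (F : Finset I) (e : Sym2 I) :
    ∑' e' : Sym2 I, (if near F e e' then (K.rate e' : ℝ≥0∞) else 0) ≤ (F.card + 2) * M := by
  induction e using Sym2.ind with
  | _ a b =>
    refine le_trans (ENNReal.tsum_le_tsum fun e' => ?_)
      ((tsum_touch (K := K) hM (F ∪ {a, b})).trans ?_)
    · by_cases h : near F s(a, b) e'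
      · have h' : touch (F ∪ {a, b}) e' := by
          rcases h.2 with ⟨x, hx, hxe⟩ | ⟨x, hx, hxe⟩
          · exact ⟨x, by simp [hx], hxe⟩
          · refine ⟨x, ?_, hxe⟩
            rw [Sym2.mem_iff] at hx
            rw [Finset.mem_union, Finset.mem_insert, Finset.mem_singleton]
            exact Or.inr hx
        rw [if_pos h, if_pos h']
      · rw [if_neg h]; exact zero_le
    · gcongr
      calc ((F ∪ {a, b}).card : ℝ≥0∞) ≤ ((F.card + ({a, b} : Finset I).card : ℕ) : ℝ≥0∞) := by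
            exact_mod_cast Finset.card_union_le _ _
        _ ≤ ((F.card + 2 : ℕ) : ℝ≥0∞) := by
            have : ({a, b} : Finset I).card ≤ 2 := Finset.card_le_two
            exact_mod_cast Nat.add_le_add_left this _
        _ = F.card + 2 := by push_cast; rfl

lemma rate_le_M (hM : ∀ x, ∑' y, (K.P x y : ℝ≥0∞) ≤ M) (e : Sym2 I) : (K.rate e : ℝ≥0∞) ≤ M := by
  induction e using Sym2.ind with
  | _ a b => exact (rate_le K a b).trans ((ENNReal.le_tsum b).trans (hM a))

end Pool.Agent.H.MP_20d613_pr
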